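import Pool.Agent.H16.FU.Asm1
import Pool.Agent.H71.FQ.Defs

/-!
# The assembly map on the `K₁`-part of the rational source

For a ring `R`, a group `G` and `n`:

* `HnK1 R G n` is the abelian group generated by the symbols `[F, x, z]` with `F` a finite subgroup of `G`,
  `x ∈ K₁(R[F])` and `z ∈ H_{n+1}(Z_G(F); ℤ)`, modulo additivity in `x` and in `z` and
  `[F', c_g(x), z'] = [F, x, c_{g⁻¹}(z')]` for `g F g⁻¹ ⊆ F'`, `z' ∈ H_{n+1}(Z_G(F'); ℤ)`;
* `assembly1 R G n : HnK1 R G n → KQ (R[G]) (n + 1)` sends `[F, [U], z]` to the class of the product of the image of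
  `z` under the scalar matrices `γ ∈ Z_G(F)` with the class of the commuting matrix `U` (`HG.cr`);
* `assembly01 R G n : HnK0 R G (n + 1) × HnK1 R G n → KQ (R[G]) (n + 1)`, the sum of the two assembly maps.
-/

set_option autoImplicit false

open Matrix

universe u v w

namespace Pool.Agent.H16.FU

open Pool.Agent.H71.FQ
open Pool.Agent.H95.WH (K1 K1.mk K1.map FamSub conjHom FinSub)

section

variable (R : Type u) [Ring R] (G : Type v) [Group G] (n : ℕ)

/-- The symbols `[F, x, z]`. -/
structure Sym1 where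
  /-- a finite subgroup -/
  F : FamSub G FinSub
  /-- a class in `K₁` of its group ring -/
  x : K1 (MonoidAlgebra R F.1)
  /-- a homology class of its centralizer -/
  z : HG (Subgroup.centralizer (F.1 : Set G)) n

/-- The symbol `[F, x, z]`. -/
noncomputable def symOf1 (F : FamSub G FinSub) (x : K1 (MonoidAlgebra R F.1))
    (z : HG (Subgroup.centralizer (F.1 : Set G)) n) : FreeAbelianGroup (Sym1 R G n) :=
  FreeAbelianGroup.of ⟨F, x, z⟩

/-- The relation of additivity in `x`. -/
noncomputable def symX1 (F : FamSub G FinSub) (x y : K1 (MonoidAlgebra R F.1))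
    (z : HG (Subgroup.centralizer (F.1 : Set G)) n) : FreeAbelianGroup (Sym1 R G n) :=
  symOf1 R G n F (x + y) z - (symOf1 R G n F x z + symOf1 R G n F y z)

/-- The relation of additivity in `z`. -/
noncomputable def symZ1 (F : FamSub G FinSub) (x : K1 (MonoidAlgebra R F.1))
    (z z' : HG (Subgroup.centralizer (F.1 : Set G)) n) : FreeAbelianGroup (Sym1 R G n) :=
  symOf1 R G n F x (z + z') - (symOf1 R G n F x z + symOf1 R G n F x z')

/-- The relation `[F', c_g(x), z'] = [F, x, c_{g⁻¹}(z')]`. -/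
noncomputable def symC1 (F F' : FamSub G FinSub) (g : G) (h : ∀ x ∈ F.1, g * x * g⁻¹ ∈ F'.1)
    (x : K1 (MonoidAlgebra R F.1)) (z : HG (Subgroup.centralizer (F'.1 : Set G)) n) :
    FreeAbelianGroup (Sym1 R G n) :=
  symOf1 R G n F' (K1.map (MonoidAlgebra.mapDomainRingHom R (conjHom g F.1 F'.1 h)) x) z -
    symOf1 R G n F x (HG.map n (centConj g F.1 F'.1 h) z)

/-- The relations. -/
noncomputable def SymRel1 : AddSubgroup (FreeAbelianGroup (Sym1 R G n)) :=
  AddSubgroup.closure
    ({w | ∃ F x y z, w = symX1 R G n F x y z} ∪ {w | ∃ F x z z', w = symZ1 R G n F x z z'} ∪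
      {w | ∃ F F' g h x z, w = symC1 R G n F F' g h x z})

/-- The group generated by the symbols `[F, x, z]`. -/
def HnK1 : Type (max u v) := FreeAbelianGroup (Sym1 R G n) ⧸ SymRel1 R G n

noncomputable instance instHnK1 : AddCommGroup (HnK1 R G n) :=
  QuotientAddGroup.Quotient.addCommGroup (SymRel1 R G n)

end

section

variable (R : Type u) [Ring R] (n : ℕ) {G : Type v} [Group G]

/-- The value of the assembly map on a symbol. -/
noncomputable def symVal1 (s : Sym1 R G n) : KQ (MonoidAlgebra R G) (n + 1) :=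
  gasm1 R n s.F.1.subtype (Subgroup.centralizer (s.F.1 : Set G)).subtype (cent_comm s.F.1) s.x s.z

variable (G)

theorem symRel1_le : SymRel1 R G n ≤ (FreeAbelianGroup.lift (symVal1 R n (G := G))).ker := by
  rw [SymRel1, AddSubgroup.closure_le]
  rintro w ((⟨F, x, y, z, rfl⟩ | ⟨F, x, z, z', rfl⟩) | ⟨F, F', g, h, x, z, rfl⟩)
  · change FreeAbelianGroup.lift (symVal1 R n) _ = 0
    rw [symX1, symOf1, symOf1, symOf1, map_sub, map_add, FreeAbelianGroup.lift_apply_of,
      FreeAbelianGroup.lift_apply_of, FreeAbelianGroup.lift_apply_of, symVal1, symVal1, symVal1,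
      map_add, AddMonoidHom.add_apply, sub_self]
  · change FreeAbelianGroup.lift (symVal1 R n) _ = 0
    rw [symZ1, symOf1, symOf1, symOf1, map_sub, map_add, FreeAbelianGroup.lift_apply_of,
      FreeAbelianGroup.lift_apply_of, FreeAbelianGroup.lift_apply_of, symVal1, symVal1, symVal1,
      map_add, sub_self]
  · change FreeAbelianGroup.lift (symVal1 R n) _ = 0
    rw [symC1, symOf1, symOf1, map_sub, FreeAbelianGroup.lift_apply_of,
      FreeAbelianGroup.lift_apply_of, sub_eq_zero]
    change gasm1 R n F'.1.subtype (Subgroup.centralizer (F'.1 : Set G)).subtype (cent_comm F'.1)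
        (K1.map (MonoidAlgebra.mapDomainRingHom R (conjHom g F.1 F'.1 h)) x) z =
      gasm1 R n F.1.subtype (Subgroup.centralizer (F.1 : Set G)).subtype (cent_comm F.1) x
        (HG.map n (centConj g F.1 F'.1 h) z)
    have h1 : ∀ (γ : Subgroup.centralizer (F'.1 : Set G)) (a : F.1),
        (F'.1.subtype.comp (conjHom g F.1 F'.1 h)) a *
          (Subgroup.centralizer (F'.1 : Set G)).subtype γ =
        (Subgroup.centralizer (F'.1 : Set G)).subtype γ *
          (F'.1.subtype.comp (conjHom g F.1 F'.1 h)) a := fun γ a =>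
      cent_comm F'.1 γ (conjHom g F.1 F'.1 h a)
    have h2 : ∀ (γ : Subgroup.centralizer (F'.1 : Set G)) (a : F.1),
        F.1.subtype a * ((Subgroup.centralizer (F.1 : Set G)).subtype.comp
          (centConj g F.1 F'.1 h)) γ =
        ((Subgroup.centralizer (F.1 : Set G)).subtype.comp (centConj g F.1 F'.1 h)) γ *
          F.1.subtype a := fun γ a => cent_comm F.1 (centConj g F.1 F'.1 h γ) a
    rw [gasm1_comp R n F'.1.subtype (conjHom g F.1 F'.1 h) _ (cent_comm F'.1) h1,
      gasm1_map R n F.1.subtype _ (centConj g F.1 F'.1 h) (cent_comm F.1) h2]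
    apply gasm1_conj R n _ _ _ _ g
    · intro a
      rfl
    · intro γ
      change (γ : G) = g * (g⁻¹ * (γ : G) * g) * g⁻¹
      group

/-- **The assembly map** on the `K₁`-part. -/
noncomputable def assembly1 : HnK1 R G n →+ KQ (MonoidAlgebra R G) (n + 1) :=
  QuotientAddGroup.lift (SymRel1 R G n) (FreeAbelianGroup.lift (symVal1 R n)) (symRel1_le R n G)

/-- **The assembly map** on the sum of the `K₀`-part and the `K₁`-part. -/
noncomputable def assembly01 :
    HnK0 R G (n + 1) × HnK1 R G n →+ KQ (MonoidAlgebra R G) (n + 1) :=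
  (assemblyN R (n + 1) G).coprod (assembly1 R n G)

end

section Sym

variable {k : Type u} [Ring k] {G : Type v} [Group G] {n : ℕ}

/-- The projection. -/
noncomputable def toH1 (k : Type u) [Ring k] (G : Type v) [Group G] (n : ℕ) :
    FreeAbelianGroup (Sym1 k G n) →+ HnK1 k G n := QuotientAddGroup.mk' (SymRel1 k G n)

/-- The symbol `[F, x, z]`. -/
noncomputable def sy1 (F : FamSub G FinSub) (x : K1 (MonoidAlgebra k F.1))
    (z : HG (Subgroup.centralizer (F.1 : Set G)) n) : HnK1 k G n :=
  QuotientAddGroup.mk (FreeAbelianGroup.of ⟨F, x, z⟩)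

theorem toH1_eq_zero {w : FreeAbelianGroup (Sym1 k G n)} (h : w ∈ SymRel1 k G n) :
    toH1 k G n w = 0 := (QuotientAddGroup.eq_zero_iff _).2 h

theorem sy1_add (F : FamSub G FinSub) (x y : K1 (MonoidAlgebra k F.1))
    (z : HG (Subgroup.centralizer (F.1 : Set G)) n) :
    sy1 F (x + y) z = sy1 F x z + sy1 F y z := by
  have h : toH1 k G n (symX1 k G n F x y z) = 0 :=
    toH1_eq_zero (AddSubgroup.subset_closure (Or.inl (Or.inl ⟨F, x, y, z, rfl⟩)))
  rw [symX1, map_sub, map_add, sub_eq_zero] at h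
  exact h

theorem sy1_addz (F : FamSub G FinSub) (x : K1 (MonoidAlgebra k F.1))
    (z z' : HG (Subgroup.centralizer (F.1 : Set G)) n) :
    sy1 F x (z + z') = sy1 F x z + sy1 F x z' := by
  have h : toH1 k G n (symZ1 k G n F x z z') = 0 :=
    toH1_eq_zero (AddSubgroup.subset_closure (Or.inl (Or.inr ⟨F, x, z, z', rfl⟩)))
  rw [symZ1, map_sub, map_add, sub_eq_zero] at h
  exact h

theorem sy1_conj (F F' : FamSub G FinSub) (g : G) (h : ∀ x ∈ F.1, g * x * g⁻¹ ∈ F'.1)
    (x : K1 (MonoidAlgebra k F.1)) (z : HG (Subgroup.centralizer (F'.1 : Set G)) n) :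
    sy1 F' (K1.map (MonoidAlgebra.mapDomainRingHom k (conjHom g F.1 F'.1 h)) x) z =
      sy1 F x (HG.map n (centConj g F.1 F'.1 h) z) := by
  have h' : toH1 k G n (symC1 k G n F F' g h x z) = 0 :=
    toH1_eq_zero (AddSubgroup.subset_closure (Or.inr ⟨F, F', g, h, x, z, rfl⟩))
  rw [symC1, map_sub, sub_eq_zero] at h'
  exact h'

theorem asm1_sy1 (F : FamSub G FinSub) (x : K1 (MonoidAlgebra k F.1))
    (z : HG (Subgroup.centralizer (F.1 : Set G)) n) :
    assembly1 k n G (sy1 F x z) = gasm1 k n F.1.subtype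
      (Subgroup.centralizer (F.1 : Set G)).subtype (cent_comm F.1) x z := by
  have h : FreeAbelianGroup.lift (symVal1 k n) (symOf1 k G n F x z) = symVal1 k n ⟨F, x, z⟩ :=
    FreeAbelianGroup.lift_apply_of _ _
  exact h

/-- the symbol as a biadditive map -/
noncomputable def syB1 (F : FamSub G FinSub) : K1 (MonoidAlgebra k F.1) →+
    HG (Subgroup.centralizer (F.1 : Set G)) n →+ HnK1 k G n :=
  AddMonoidHom.mk' (fun x => AddMonoidHom.mk' (fun z => sy1 F x z) (fun z z' => sy1_addz F x z z'))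
    (by
      intro x y
      ext z
      exact sy1_add F x y z)

theorem syB1_apply (F : FamSub G FinSub) (x : K1 (MonoidAlgebra k F.1))
    (z : HG (Subgroup.centralizer (F.1 : Set G)) n) : syB1 F x z = sy1 F x z := rfl

theorem hnk1_induction {P : HnK1 k G n → Prop} (h0 : P 0)
    (h1 : ∀ (F : FamSub G FinSub) (x : K1 (MonoidAlgebra k F.1))
      (z : HG (Subgroup.centralizer (F.1 : Set G)) n), P (sy1 F x z))
    (h2 : ∀ a b, P a → P b → P (a + b)) (h3 : ∀ a, P a → P (-a)) (w : HnK1 k G n) : P w := by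
  obtain ⟨y, rfl⟩ : ∃ y, toH1 k G n y = w := QuotientAddGroup.mk_surjective w
  induction y using FreeAbelianGroup.induction_on with
  | zero => rw [map_zero]; exact h0
  | of s => exact h1 s.F s.x s.z
  | neg s _ =>
    rw [map_neg]
    exact h3 _ (h1 s.F s.x s.z)
  | add x y hx hy => rw [map_add]; exact h2 _ _ hx hy

/-- homomorphisms out of `HnK1` -/
noncomputable def lift1 {M : Type w} [AddCommGroup M]
    (f : ∀ F : FamSub G FinSub, K1 (MonoidAlgebra k F.1) →+
      HG (Subgroup.centralizer (F.1 : Set G)) n →+ M)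
    (hf : ∀ (F F' : FamSub G FinSub) (g : G) (h : ∀ x ∈ F.1, g * x * g⁻¹ ∈ F'.1)
      (x : K1 (MonoidAlgebra k F.1)) (z : HG (Subgroup.centralizer (F'.1 : Set G)) n),
      f F' (K1.map (MonoidAlgebra.mapDomainRingHom k (conjHom g F.1 F'.1 h)) x) z =
        f F x (HG.map n (centConj g F.1 F'.1 h) z)) : HnK1 k G n →+ M :=
  QuotientAddGroup.lift (SymRel1 k G n) (FreeAbelianGroup.lift fun s : Sym1 k G n => f s.F s.x s.z)
    (by
      rw [SymRel1, AddSubgroup.closure_le]
      rintro w ((⟨F, x, y, z, rfl⟩ | ⟨F, x, z, z', rfl⟩) | ⟨F, F', g, h, x, z, rfl⟩)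
      · change FreeAbelianGroup.lift _ _ = 0
        rw [symX1, symOf1, symOf1, symOf1, map_sub, map_add, FreeAbelianGroup.lift_apply_of,
          FreeAbelianGroup.lift_apply_of, FreeAbelianGroup.lift_apply_of,
          map_add, AddMonoidHom.add_apply, sub_self]
      · change FreeAbelianGroup.lift _ _ = 0
        rw [symZ1, symOf1, symOf1, symOf1, map_sub, map_add, FreeAbelianGroup.lift_apply_of,
          FreeAbelianGroup.lift_apply_of, FreeAbelianGroup.lift_apply_of, map_add, sub_self]
      · change FreeAbelianGroup.lift _ _ = 0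
        rw [symC1, symOf1, symOf1, map_sub, FreeAbelianGroup.lift_apply_of,
          FreeAbelianGroup.lift_apply_of, sub_eq_zero]
        exact hf F F' g h x z)

theorem lift1_sy1 {M : Type w} [AddCommGroup M]
    (f : ∀ F : FamSub G FinSub, K1 (MonoidAlgebra k F.1) →+
      HG (Subgroup.centralizer (F.1 : Set G)) n →+ M)
    (hf : ∀ (F F' : FamSub G FinSub) (g : G) (h : ∀ x ∈ F.1, g * x * g⁻¹ ∈ F'.1)
      (x : K1 (MonoidAlgebra k F.1)) (z : HG (Subgroup.centralizer (F'.1 : Set G)) n),
      f F' (K1.map (MonoidAlgebra.mapDomainRingHom k (conjHom g F.1 F'.1 h)) x) z =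
        f F x (HG.map n (centConj g F.1 F'.1 h) z)) (F : FamSub G FinSub)
    (x : K1 (MonoidAlgebra k F.1)) (z : HG (Subgroup.centralizer (F.1 : Set G)) n) :
    lift1 f hf (sy1 F x z) = f F x z := by
  change FreeAbelianGroup.lift _ _ = _
  rw [FreeAbelianGroup.lift_apply_of]

end Sym

end Pool.Agent.H16.FU
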