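import Pool.Agent.H16.FU.Defs1
import Pool.Agent.H71.FQ.Sy
import Pool.Agent.H71.DB.Bass
import Pool.Agent.H95.WH.Push

/-!
# Project FU: change of coefficients

* `hn1 θ : HnK1 k G n →+ HnK1 k' G n` for a ring homomorphism `θ : k → k'` (`map_assembly1`);
* `hn1_torsion`: for a finite extension of fields the kernel of `hn1` is torsion (transfer);
* `hn01 j u : HnK0 F G n →+ HnK1 k G n` for a homomorphism of commutative rings `j : F → k` and a unit `u` of `k`:
  `[D, [e], z] ↦ [D, [1 + e (u - 1)], z]` (`bass`).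

PROOFS. `hn1_torsion`: the regular representation `ρ : k' → Mat_d(k)` gives `k'[F] → Mat_d(k[F])` and, by `K1.push`, a
homomorphism `HnK1 k' G n → HnK1 k G n` (compatible with conjugations: `K1.map_push`, `K1.push` of a composition); its
composition with `hn1` is `K1.push` of the scalar matrices, i.e. multiplication by `d` (`K1.push_sigma` or directly).
-/

set_option autoImplicit false

open Matrix

universe t u v w

namespace Pool.Agent.H16.FU

open Pool.Agent.H71.FQ
open Pool.Agent.H71.FJ (MatEquiv IdemMat K0 K0.mk K0.lift K0.lift_mk K0.hom_ext K0.map K0.map_map Sat)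
open Pool.Agent.H71.DB (bmat bU bmat_mul bmat_one bass bass_mk bass_mul bass_comp map_bass)
open Pool.Agent.H95.WH (K1 K1.mk K1.lift K1.lift_mk K1.hom_ext K1.map K1.map_mk K1.map_map K1.push
  K1.map_push K1.map_unit stab FamSub conjHom FinSub)

section Hn1

variable {k : Type u} [Ring k] {k' : Type w} [Ring k'] (θ : k →+* k') {G : Type v} [Group G]
  {n : ℕ}

/-- **Change of coefficients.** -/
noncomputable def hn1 : HnK1 k G n →+ HnK1 k' G n :=
  lift1 (fun F => (syB1 F).comp (K1.map (MonoidAlgebra.mapRingHom F.1 θ))) (by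
    intro F F' g h x z
    rw [AddMonoidHom.comp_apply, AddMonoidHom.comp_apply, syB1_apply, syB1_apply, K1.map_map,
      MonoidAlgebra.mapRingHom_comp_mapDomainRingHom, ← K1.map_map, sy1_conj])

theorem hn1_sy1 (F : FamSub G FinSub) (x : K1 (MonoidAlgebra k F.1))
    (z : HG (Subgroup.centralizer (F.1 : Set G)) n) :
    hn1 θ (sy1 F x z) = sy1 F (K1.map (MonoidAlgebra.mapRingHom F.1 θ) x) z :=
  lift1_sy1 _ _ F x z

theorem map_assembly1 (w : HnK1 k G n) :
    KQ.map (MonoidAlgebra.mapRingHom G θ) (assembly1 k n G w) = assembly1 k' n G (hn1 θ w) := by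
  induction w using hnk1_induction with
  | h0 => rw [map_zero, map_zero, map_zero, map_zero]
  | h1 F x z =>
    rw [asm1_sy1, map_gasm1, hn1_sy1, asm1_sy1]
  | h2 a b ha hb => rw [map_add, map_add, map_add, map_add, ha, hb]
  | h3 a ha => rw [map_neg, map_neg, map_neg, map_neg, ha]

theorem hn1_comp {k'' : Type t} [Ring k''] (θ' : k' →+* k'') (w : HnK1 k G n) :
    hn1 θ' (hn1 θ w) = hn1 (θ'.comp θ) w := by
  induction w using hnk1_induction with
  | h0 => rw [map_zero, map_zero, map_zero]
  | h1 F x z =>
    rw [hn1_sy1, hn1_sy1, hn1_sy1, K1.map_map, MonoidAlgebra.mapRingHom_comp]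
  | h2 a b ha hb => rw [map_add, map_add, map_add, ha, hb]
  | h3 a ha => rw [map_neg, map_neg, map_neg, ha]

end Hn1

section Transfer

private theorem tr_push_map {R : Type*} [Ring R] {S : Type*} [Ring S] {T : Type*} [Ring T]
    {J : Type*} [Fintype J] [DecidableEq J] (φ : S →+* Matrix J J T) (f : R →+* S) (x : K1 R) :
    K1.push φ (K1.map f x) = K1.push (φ.comp f) x := by
  have h : (K1.push φ).comp (K1.map f) = K1.push (φ.comp f) := by
    apply K1.hom_ext
    intro n U
    rw [AddMonoidHom.comp_apply, K1.map_mk, Pool.Agent.H95.WH.K1.push_mk,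
      Pool.Agent.H95.WH.K1.push_mk]
    congr 1
  exact DFunLike.congr_fun h x

private theorem tr_push_unit {R : Type*} [Ring R] (x : K1 R) :
    K1.push (Matrix.scalar Unit : R →+* Matrix Unit Unit R) x = x := by
  have h : K1.push (Matrix.scalar Unit : R →+* Matrix Unit Unit R) = AddMonoidHom.id (K1 R) := by
    apply K1.hom_ext
    intro n U
    rw [Pool.Agent.H95.WH.K1.push_mk, AddMonoidHom.id_apply, ← Pool.Agent.H95.WH.K1.cls_mk,
      ← Pool.Agent.H95.WH.K1.cls_reindex (Equiv.prodUnique (Fin n) Unit)]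
    congr 1
  rw [h]
  rfl

private theorem tr_push_scalar {R : Type*} [Ring R] (d : ℕ) (x : K1 R) :
    K1.push (Matrix.scalar (Σ _ : Fin d, Unit) :
      R →+* Matrix (Σ _ : Fin d, Unit) (Σ _ : Fin d, Unit) R) x = d • x := by
  rw [Pool.Agent.H95.WH.K1.push_blk (I := Fin d) (K := fun _ => Unit)
    (fun _ => (Matrix.scalar Unit : R →+* Matrix Unit Unit R))
    (Matrix.scalar (Σ _ : Fin d, Unit)) (fun r => by
      refine Matrix.ext fun i j => ?_
      obtain ⟨i, a⟩ := i
      obtain ⟨j, b⟩ := j
      by_cases h : i = j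
      · subst h
        rw [Matrix.blockDiagonal'_apply_eq]
        simp
      · rw [Matrix.blockDiagonal'_apply_ne _ _ _ h, Matrix.scalar_apply,
          Matrix.diagonal_apply_ne]
        intro e
        exact h (congrArg Sigma.fst e)) x]
  simp only [tr_push_unit]
  rw [Finset.sum_const, Finset.card_univ, Fintype.card_fin]

variable (k : Type u) [Field k] (k' : Type w) [Field k'] [Algebra k k'] [FiniteDimensional k k']

private noncomputable def trB : Module.Basis (Σ _ : Fin (Module.finrank k k'), Unit) k k' :=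
  (Module.finBasis k k').reindex
    (Equiv.sigmaUnique (Fin (Module.finrank k k')) fun _ => Unit).symm

/-- the regular representation -/
private noncomputable def trR : k' →+* Matrix (Σ _ : Fin (Module.finrank k k'), Unit)
    (Σ _ : Fin (Module.finrank k k'), Unit) k :=
  (Algebra.leftMulMatrix (trB k k')).toRingHom

private theorem trR_algebraMap (c : k) :
    trR k k' (algebraMap k k' c) = Matrix.scalar _ c := by
  change Algebra.leftMulMatrix (trB k k') (algebraMap k k' c) = _
  rw [AlgHom.commutes]
  rfl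

/-- the regular representation of the group rings -/
private noncomputable def trH (H : Type*) [Group H] : MonoidAlgebra k' H →+*
    Matrix (Σ _ : Fin (Module.finrank k k'), Unit) (Σ _ : Fin (Module.finrank k k'), Unit)
      (MonoidAlgebra k H) :=
  MonoidAlgebra.liftNCRingHom
    ((MonoidAlgebra.singleOneRingHom : k →+* MonoidAlgebra k H).mapMatrix.comp (trR k k'))
    ((Matrix.scalar (Σ _ : Fin (Module.finrank k k'), Unit) :
      MonoidAlgebra k H →+* _).toMonoidHom.comp (MonoidAlgebra.of k H))
    (by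
      intro x y
      refine Matrix.ext fun i j => ?_
      change ((((trR k k' x).map (MonoidAlgebra.singleOneRingHom : k →+* MonoidAlgebra k H)) *
        (Matrix.diagonal fun _ => MonoidAlgebra.single y (1 : k))) :
          Matrix _ _ (MonoidAlgebra k H)) i j =
        (((Matrix.diagonal fun _ => MonoidAlgebra.single y (1 : k)) *
          ((trR k k' x).map (MonoidAlgebra.singleOneRingHom : k →+* MonoidAlgebra k H))) :
            Matrix _ _ (MonoidAlgebra k H)) i j
      rw [Matrix.mul_diagonal, Matrix.diagonal_mul]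
      change MonoidAlgebra.single 1 (trR k k' x i j) * MonoidAlgebra.single y (1 : k) =
        MonoidAlgebra.single y (1 : k) * MonoidAlgebra.single 1 (trR k k' x i j)
      rw [MonoidAlgebra.single_mul_single, MonoidAlgebra.single_mul_single, one_mul, mul_one,
        mul_one, one_mul])

private theorem trH_single (H : Type*) [Group H] (h : H) (c : k') (i j) :
    trH k k' H (MonoidAlgebra.single h c) i j = MonoidAlgebra.single h (trR k k' c i j) := by
  have h1 : trH k k' H (MonoidAlgebra.single h c) =
      ((trR k k' c).map (MonoidAlgebra.singleOneRingHom : k →+* MonoidAlgebra k H)) *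
        (Matrix.diagonal fun _ => MonoidAlgebra.single h (1 : k)) :=
    MonoidAlgebra.liftNC_single _ _ _ _
  rw [h1, Matrix.mul_diagonal]
  change MonoidAlgebra.single 1 (trR k k' c i j) * MonoidAlgebra.single h (1 : k) = _
  rw [MonoidAlgebra.single_mul_single, one_mul, mul_one]

private theorem trH_natural {H H' : Type*} [Group H] [Group H'] (f : H →* H')
    (x : K1 (MonoidAlgebra k' H)) :
    K1.map (MonoidAlgebra.mapDomainRingHom k f) (K1.push (trH k k' H) x) =
      K1.push (trH k k' H') (K1.map (MonoidAlgebra.mapDomainRingHom k' f) x) := by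
  rw [K1.map_push, tr_push_map]
  congr 2
  refine RingHom.ext fun y => ?_
  rw [RingHom.comp_apply, RingHom.comp_apply]
  induction y using MonoidAlgebra.induction_linear with
  | zero => simp only [map_zero]
  | add a b ha hb => simp only [map_add, ha, hb]
  | single h c =>
    refine Matrix.ext fun i j => ?_
    rw [RingHom.mapMatrix_apply, Matrix.map_apply, trH_single,
      MonoidAlgebra.mapDomainRingHom_apply, MonoidAlgebra.mapDomainRingHom_apply,
      MonoidAlgebra.mapDomain_single, MonoidAlgebra.mapDomain_single, trH_single]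

private theorem trH_map {H : Type*} [Group H] (x : K1 (MonoidAlgebra k H)) :
    K1.push (trH k k' H) (K1.map (MonoidAlgebra.mapRingHom H (algebraMap k k')) x) =
      Module.finrank k k' • x := by
  rw [tr_push_map, ← tr_push_scalar]
  congr 2
  refine RingHom.ext fun y => ?_
  rw [RingHom.comp_apply]
  induction y using MonoidAlgebra.induction_linear with
  | zero => simp only [map_zero]
  | add a b ha hb => simp only [map_add, ha, hb]
  | single h c =>
    refine Matrix.ext fun i j => ?_
    rw [MonoidAlgebra.mapRingHom_single, trH_single, trR_algebraMap, Matrix.scalar_apply,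
      Matrix.scalar_apply, Matrix.diagonal_apply, Matrix.diagonal_apply]
    split_ifs
    · rfl
    · exact MonoidAlgebra.single_zero _

variable {G : Type v} [Group G] {n : ℕ}

private noncomputable def trN : HnK1 k' G n →+ HnK1 k G n :=
  lift1 (fun F => (syB1 F).comp (K1.push (trH k k' F.1))) (by
    intro F F' g h x z
    rw [AddMonoidHom.comp_apply, AddMonoidHom.comp_apply, syB1_apply, syB1_apply, ← trH_natural,
      sy1_conj])

private theorem trN_hn1 (w : HnK1 k G n) :
    trN k k' (hn1 (algebraMap k k') w) = Module.finrank k k' • w := by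
  induction w using hnk1_induction with
  | h0 => rw [map_zero, map_zero, smul_zero]
  | h1 F x z =>
    rw [hn1_sy1]
    have h1 : trN k k' (n := n) (G := G) (sy1 F (K1.map (MonoidAlgebra.mapRingHom F.1
        (algebraMap k k')) x) z) = sy1 F (K1.push (trH k k' F.1) (K1.map
          (MonoidAlgebra.mapRingHom F.1 (algebraMap k k')) x)) z := lift1_sy1 _ _ F _ z
    rw [h1, trH_map, ← syB1_apply, map_nsmul, AddMonoidHom.nsmul_apply, syB1_apply]
  | h2 a b ha hb => rw [map_add, map_add, smul_add, ha, hb]
  | h3 a ha => rw [map_neg, map_neg, smul_neg, ha]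

/-- **Transfer.** -/
theorem hn1_torsion (w : HnK1 k G n) (m : ℤ) (hm : m ≠ 0)
    (h : m • hn1 (algebraMap k k') w = 0) : ∃ m' : ℤ, m' ≠ 0 ∧ m' • w = 0 := by
  refine ⟨m * (Module.finrank k k' : ℤ), mul_ne_zero hm ?_, ?_⟩
  · exact_mod_cast (Module.finrank_pos (R := k) (M := k')).ne'
  · rw [mul_smul, natCast_zsmul, ← trN_hn1 k k' w, ← map_zsmul, h, map_zero]

end Transfer

section Hn01

variable {F : Type t} [CommRing F] {k : Type u} [CommRing k] {k' : Type w} [CommRing k']
  {G : Type v} [Group G] {n : ℕ}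

/-- the scalar unit -/
noncomputable def sU (H : Type*) [Group H] (u : kˣ) : (MonoidAlgebra k H)ˣ :=
  Units.map (MonoidAlgebra.singleOneRingHom : k →+* MonoidAlgebra k H).toMonoidHom u

theorem sU_val (H : Type*) [Group H] (u : kˣ) :
    (sU H u : MonoidAlgebra k H) = MonoidAlgebra.single 1 (u : k) := rfl

theorem sU_mul (H : Type*) [Group H] (u v : kˣ) : sU H (u * v) = sU H u * sU H v := map_mul _ _ _

theorem sU_comm (H : Type*) [Group H] (u : kˣ) (b : MonoidAlgebra k H) :
    b * (sU H u : MonoidAlgebra k H) = sU H u * b := by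
  rw [sU_val, ← MonoidAlgebra.single_one_comm]

/-- the homomorphism `K₀(F[H]) → K₁(k[H])`, `[e] ↦ [1 + e (u - 1)]` -/
noncomputable def sbass (H : Type*) [Group H] (j : F →+* k) (u : kˣ) :
    K0 (MonoidAlgebra F H) →+ K1 (MonoidAlgebra k H) :=
  bass (MonoidAlgebra.mapRingHom H j) (sU H u) fun _ => sU_comm H u _

private theorem bass_congr {A : Type*} [Ring A] {B : Type*} [Ring B] {φ φ' : B →+* A} {z z' : Aˣ}
    (h1 : φ = φ') (h2 : z = z') (hz : ∀ b, φ b * z = z * φ b) (hz' : ∀ b, φ' b * z' = z' * φ' b)
    (x : K0 B) : bass φ z hz x = bass φ' z' hz' x := by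
  subst h1 h2
  rfl

theorem sbass_mul (H : Type*) [Group H] (j : F →+* k) (u v : kˣ) (x : K0 (MonoidAlgebra F H)) :
    sbass H j (u * v) x = sbass H j u x + sbass H j v x := by
  unfold sbass
  have h : ∀ b, MonoidAlgebra.mapRingHom H j b * ((sU H u * sU H v : (MonoidAlgebra k H)ˣ) :
      MonoidAlgebra k H) = ((sU H u * sU H v : (MonoidAlgebra k H)ˣ) : MonoidAlgebra k H) *
        MonoidAlgebra.mapRingHom H j b := by
    intro b
    rw [← sU_mul]
    exact sU_comm H (u * v) _
  rw [← bass_mul _ _ _ (fun _ => sU_comm H u _) (fun _ => sU_comm H v _) h]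
  exact bass_congr rfl (sU_mul H u v) _ _ x

theorem sbass_natural {H H' : Type*} [Group H] [Group H'] (f : H →* H') (j : F →+* k) (u : kˣ)
    (x : K0 (MonoidAlgebra F H)) :
    K1.map (MonoidAlgebra.mapDomainRingHom k f) (sbass H j u x) =
      sbass H' j u (K0.map (MonoidAlgebra.mapDomainRingHom F f) x) := by
  unfold sbass
  have hc : (MonoidAlgebra.mapDomainRingHom k f).comp (MonoidAlgebra.mapRingHom H j) =
      (MonoidAlgebra.mapRingHom H' j).comp (MonoidAlgebra.mapDomainRingHom F f) :=
    (MonoidAlgebra.mapRingHom_comp_mapDomainRingHom _ _).symm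
  have hu : Units.map (MonoidAlgebra.mapDomainRingHom k f :
      MonoidAlgebra k H →* MonoidAlgebra k H') (sU H u) = sU H' u := by
    apply Units.ext
    show MonoidAlgebra.mapDomainRingHom k f (MonoidAlgebra.single 1 (u : k)) =
      MonoidAlgebra.single 1 (u : k)
    have h1 : MonoidAlgebra.mapDomainRingHom k f (MonoidAlgebra.single 1 (u : k)) =
        MonoidAlgebra.single (f 1) (u : k) := MonoidAlgebra.mapDomain_single
    rw [h1, map_one]
  rw [bass_comp, map_bass _ _ _ _ (fun b => by
    rw [hu]
    exact sU_comm H' u _)]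
  exact bass_congr hc hu _ _ x

theorem map_sbass (H : Type*) [Group H] (j : F →+* k) (u : kˣ) (θ : k →+* k')
    (x : K0 (MonoidAlgebra F H)) :
    K1.map (MonoidAlgebra.mapRingHom H θ) (sbass H j u x) =
      sbass H (θ.comp j) (Units.map (θ : k →* k') u) x := by
  unfold sbass
  have hc : (MonoidAlgebra.mapRingHom H θ).comp (MonoidAlgebra.mapRingHom H j) =
      MonoidAlgebra.mapRingHom H (θ.comp j) := by
    refine RingHom.ext fun a => MonoidAlgebra.coeff_injective (Finsupp.ext fun g => ?_)
    rw [RingHom.comp_apply, MonoidAlgebra.coeff_mapRingHom, MonoidAlgebra.coeff_mapRingHom,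
      MonoidAlgebra.coeff_mapRingHom]
    rfl
  have hu : Units.map (MonoidAlgebra.mapRingHom H θ :
      MonoidAlgebra k H →* MonoidAlgebra k' H) (sU H u) = sU H (Units.map (θ : k →* k') u) := by
    apply Units.ext
    show MonoidAlgebra.mapRingHom H θ (MonoidAlgebra.single 1 (u : k)) =
      MonoidAlgebra.single 1 (θ (u : k))
    exact MonoidAlgebra.mapRingHom_single _ _ _
  rw [map_bass _ _ _ _ (fun b => by
    rw [hu]
    exact sU_comm H _ _)]
  exact bass_congr hc hu _ _ x

/-- change of the coefficients of `K₀` -/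
theorem sbass_map (H : Type*) [Group H] {F' : Type*} [CommRing F'] (j : F →+* k) (j' : F' →+* F)
    (u : kˣ) (x : K0 (MonoidAlgebra F' H)) :
    sbass H j u (K0.map (MonoidAlgebra.mapRingHom H j') x) = sbass H (j.comp j') u x := by
  unfold sbass
  have hc : (MonoidAlgebra.mapRingHom H j).comp (MonoidAlgebra.mapRingHom H j') =
      MonoidAlgebra.mapRingHom H (j.comp j') := by
    refine RingHom.ext fun a => MonoidAlgebra.coeff_injective (Finsupp.ext fun g => ?_)
    rw [RingHom.comp_apply, MonoidAlgebra.coeff_mapRingHom, MonoidAlgebra.coeff_mapRingHom,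
      MonoidAlgebra.coeff_mapRingHom]
    rfl
  rw [bass_comp]
  exact bass_congr hc rfl _ _ x

/-- homomorphisms out of `HnK0` -/
noncomputable def lift0 {M : Type*} [AddCommGroup M]
    (f : ∀ D : FamSub G FinSub, K0 (MonoidAlgebra F D.1) →+
      HG (Subgroup.centralizer (D.1 : Set G)) n →+ M)
    (hf : ∀ (D D' : FamSub G FinSub) (g : G) (h : ∀ x ∈ D.1, g * x * g⁻¹ ∈ D'.1)
      (x : K0 (MonoidAlgebra F D.1)) (z : HG (Subgroup.centralizer (D'.1 : Set G)) n),
      f D' (K0.map (MonoidAlgebra.mapDomainRingHom F (conjHom g D.1 D'.1 h)) x) z =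
        f D x (HG.map n (centConj g D.1 D'.1 h) z)) : HnK0 F G n →+ M :=
  QuotientAddGroup.lift (SymRel F G n) (FreeAbelianGroup.lift fun s : Sym F G n => f s.F s.x s.z)
    (by
      rw [SymRel, AddSubgroup.closure_le]
      rintro w ((⟨F, x, y, z, rfl⟩ | ⟨F, x, z, z', rfl⟩) | ⟨F, F', g, h, x, z, rfl⟩)
      · change FreeAbelianGroup.lift _ _ = 0
        rw [symX, symOf, symOf, symOf, map_sub, map_add, FreeAbelianGroup.lift_apply_of,
          FreeAbelianGroup.lift_apply_of, FreeAbelianGroup.lift_apply_of,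
          map_add, AddMonoidHom.add_apply, sub_self]
      · change FreeAbelianGroup.lift _ _ = 0
        rw [symZ, symOf, symOf, symOf, map_sub, map_add, FreeAbelianGroup.lift_apply_of,
          FreeAbelianGroup.lift_apply_of, FreeAbelianGroup.lift_apply_of, map_add, sub_self]
      · change FreeAbelianGroup.lift _ _ = 0
        rw [symC, symOf, symOf, map_sub, FreeAbelianGroup.lift_apply_of,
          FreeAbelianGroup.lift_apply_of, sub_eq_zero]
        exact hf F F' g h x z)

theorem lift0_sy {M : Type*} [AddCommGroup M]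
    (f : ∀ D : FamSub G FinSub, K0 (MonoidAlgebra F D.1) →+
      HG (Subgroup.centralizer (D.1 : Set G)) n →+ M)
    (hf : ∀ (D D' : FamSub G FinSub) (g : G) (h : ∀ x ∈ D.1, g * x * g⁻¹ ∈ D'.1)
      (x : K0 (MonoidAlgebra F D.1)) (z : HG (Subgroup.centralizer (D'.1 : Set G)) n),
      f D' (K0.map (MonoidAlgebra.mapDomainRingHom F (conjHom g D.1 D'.1 h)) x) z =
        f D x (HG.map n (centConj g D.1 D'.1 h) z)) (D : FamSub G FinSub)
    (x : K0 (MonoidAlgebra F D.1)) (z : HG (Subgroup.centralizer (D.1 : Set G)) n) :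
    lift0 f hf (sy D x z) = f D x z := by
  change FreeAbelianGroup.lift _ _ = _
  rw [FreeAbelianGroup.lift_apply_of]

/-- **The product with a unit of the ring.** -/
noncomputable def hn01 (j : F →+* k) (u : kˣ) : HnK0 F G n →+ HnK1 k G n :=
  lift0 (fun D => (syB1 D).comp (sbass D.1 j u)) (by
    intro D D' g h x z
    rw [AddMonoidHom.comp_apply, AddMonoidHom.comp_apply, syB1_apply, syB1_apply, ← sbass_natural,
      sy1_conj])

theorem hn01_sy (j : F →+* k) (u : kˣ) (D : FamSub G FinSub) (x : K0 (MonoidAlgebra F D.1))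
    (z : HG (Subgroup.centralizer (D.1 : Set G)) n) :
    hn01 j u (sy D x z) = sy1 D (sbass D.1 j u x) z := lift0_sy _ _ D x z

theorem hn01_mul (j : F →+* k) (u v : kˣ) (w : HnK0 F G n) :
    hn01 j (u * v) w = hn01 j u w + hn01 j v w := by
  induction w using hnk0_induction with
  | h0 => rw [map_zero, map_zero, map_zero, add_zero]
  | h1 D x z => rw [hn01_sy, hn01_sy, hn01_sy, sbass_mul, sy1_add]
  | h2 a b ha hb =>
    rw [map_add, map_add, map_add, ha, hb]
    abel
  | h3 a ha =>
    rw [map_neg, map_neg, map_neg, ha, neg_add]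

/-- as a biadditive map -/
noncomputable def hn01B (j : F →+* k) : Additive kˣ →+ HnK0 F G n →+ HnK1 k G n :=
  AddMonoidHom.mk' (fun u => hn01 j u.toMul) (by
    intro u v
    ext w
    exact hn01_mul j u.toMul v.toMul w)

theorem hn01B_apply (j : F →+* k) (u : kˣ) (w : HnK0 F G n) :
    hn01B j (Additive.ofMul u) w = hn01 j u w := rfl

theorem hn1_hn01 (j : F →+* k) (u : kˣ) (θ : k →+* k') (w : HnK0 F G n) :
    hn1 θ (hn01 j u w) = hn01 (θ.comp j) (Units.map (θ : k →* k') u) w := by
  induction w using hnk0_induction with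
  | h0 => rw [map_zero, map_zero, map_zero]
  | h1 D x z => rw [hn01_sy, hn01_sy, hn1_sy1, map_sbass]
  | h2 a b ha hb => rw [map_add, map_add, map_add, ha, hb]
  | h3 a ha => rw [map_neg, map_neg, map_neg, ha]

end Hn01

end Pool.Agent.H16.FU
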