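import Pool.Agent.H16.FU.Coef
import Pool.Agent.H71.FQ.LocR
import Pool.Agent.H71.DO.Units

/-!
# Project FU: directed unions of coefficient rings

PROOFS. As in FQ/LocR.lean: `K1_exists_lift` (the entries of an invertible matrix and its inverse; induction over
`K1` is `K1_induction` in DO/Units.lean or `QuotientAddGroup.induction_on`), `HnK1_exists_lift` (as
`HnK0_exists_lift_ring`), `ratInj01_of_local` (as `ratInj_directed_ring`: `KQ.exists_zero`; the subring generated by
the finite set of the lifts maps to `R'` by `exists_factor`).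
-/

set_option autoImplicit false

open Matrix

universe u u' v w

namespace Pool.Agent.H16.FU

open Pool.Agent.H71.FQ
open Pool.Agent.H71.FJ (K0 K0.map K0.map_map)
open Pool.Agent.H95.WH (K1 K1.mk K1.unit K1.map K1.map_mk K1.map_map FamSub conjHom FinSub)

/-- an invertible matrix comes from all rings which contain a finite set -/
private theorem exists_glMat {A : Type u} [Ring A] {m : ℕ} (U : (Matrix (Fin m) (Fin m) A)ˣ) :
    ∃ S : Finset A, ∀ {A' : Type w} [Ring A'] (f : A' →+* A), Function.Injective f →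
      (∀ s ∈ S, s ∈ Set.range f) → ∃ V : (Matrix (Fin m) (Fin m) A')ˣ,
        Pool.Agent.H95.WH.K1.mapU f V = U := by
  classical
  refine ⟨(Finset.univ.image fun p : Fin m × Fin m => (U : Matrix (Fin m) (Fin m) A) p.1 p.2) ∪
    Finset.univ.image fun p : Fin m × Fin m =>
      ((U⁻¹ : (Matrix (Fin m) (Fin m) A)ˣ) : Matrix (Fin m) (Fin m) A) p.1 p.2, ?_⟩
  intro A' _ f hf hS
  have h1 : ∀ i j, ∃ c, f c = (U : Matrix (Fin m) (Fin m) A) i j := fun i j =>
    hS _ (Finset.mem_union_left _ (Finset.mem_image.2 ⟨(i, j), Finset.mem_univ _, rfl⟩))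
  have h2 : ∀ i j, ∃ c, f c =
      ((U⁻¹ : (Matrix (Fin m) (Fin m) A)ˣ) : Matrix (Fin m) (Fin m) A) i j := fun i j =>
    hS _ (Finset.mem_union_right _ (Finset.mem_image.2 ⟨(i, j), Finset.mem_univ _, rfl⟩))
  choose V hV using h1
  choose W hW using h2
  have e1 : (Matrix.of V).map f = (U : Matrix (Fin m) (Fin m) A) := Matrix.ext hV
  have e2 : (Matrix.of W).map f =
      ((U⁻¹ : (Matrix (Fin m) (Fin m) A)ˣ) : Matrix (Fin m) (Fin m) A) := Matrix.ext hW
  have hinj : ∀ X Y : Matrix (Fin m) (Fin m) A', X.map f = Y.map f → X = Y := by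
    intro X Y h
    refine Matrix.ext fun i j => hf ?_
    have h3 := congrFun (congrFun h i) j
    rw [Matrix.map_apply, Matrix.map_apply] at h3
    exact h3
  have hone : (1 : Matrix (Fin m) (Fin m) A').map f = 1 :=
    Matrix.map_one f (map_zero f) (map_one f)
  refine ⟨⟨Matrix.of V, Matrix.of W, hinj _ _ ?_, hinj _ _ ?_⟩, Units.ext e1⟩
  · rw [Matrix.map_mul, e1, e2, hone, Units.mul_inv]
  · rw [Matrix.map_mul, e1, e2, hone, Units.inv_mul]

/-- a class in `K₁` comes from all rings which contain a finite set -/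
theorem K1_exists_lift {A : Type u} [Ring A] (x : K1 A) : ∃ S : Finset A, ∀ {A' : Type w} [Ring A']
    (f : A' →+* A), Function.Injective f → (∀ s ∈ S, s ∈ Set.range f) →
      ∃ y : K1 A', K1.map f y = x := by
  classical
  induction x using Pool.Agent.H71.DO.K1_induction with
  | h0 =>
    refine ⟨∅, ?_⟩
    intro A' _ f hf h
    exact ⟨0, map_zero _⟩
  | h1 m U =>
    obtain ⟨S, hS⟩ := exists_glMat.{u, w} U
    refine ⟨S, ?_⟩
    intro A' _ f hf h
    obtain ⟨V, hV⟩ := hS f hf h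
    exact ⟨K1.mk V, by rw [K1.map_mk, hV]⟩
  | h2 a b ha hb =>
    obtain ⟨S1, h1⟩ := ha
    obtain ⟨S2, h2⟩ := hb
    refine ⟨S1 ∪ S2, ?_⟩
    intro A' _ f hf h
    obtain ⟨y1, e1⟩ := h1 f hf fun s hs => h s (Finset.mem_union_left _ hs)
    obtain ⟨y2, e2⟩ := h2 f hf fun s hs => h s (Finset.mem_union_right _ hs)
    exact ⟨y1 + y2, by rw [map_add, e1, e2]⟩
  | h3 a ha =>
    obtain ⟨S, hS⟩ := ha
    refine ⟨S, ?_⟩
    intro A' _ f hf h
    obtain ⟨y, hy⟩ := hS f hf h
    exact ⟨-y, by rw [map_neg, hy]⟩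

section

variable {R : Type u} [Ring R] {G : Type v} [Group G] {n : ℕ}

private theorem mem_range_mapR {R' : Type u'} [Ring R'] (f : R' →+* R) (M : Type*) [Monoid M]
    (a : MonoidAlgebra R M) (h : ∀ m, a.coeff m ∈ Set.range f) :
    a ∈ Set.range (MonoidAlgebra.mapRingHom M f) := by
  classical
  choose c hc using h
  refine ⟨∑ m ∈ a.coeff.support, MonoidAlgebra.single m (c m), ?_⟩
  rw [map_sum]
  simp only [MonoidAlgebra.mapRingHom_single, hc]
  exact MonoidAlgebra.sum_coeff_single a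

open Classical in
/-- the coefficients of a finite set -/
private noncomputable def cfs (M : Type*) [Monoid M] (S : Finset (MonoidAlgebra R M)) : Finset R :=
  S.biUnion fun a => a.coeff.support.image a.coeff

private theorem mem_cfs {R' : Type u'} [Ring R'] (f : R' →+* R) (M : Type*) [Monoid M]
    (S : Finset (MonoidAlgebra R M)) (h : ∀ s ∈ cfs M S, s ∈ Set.range f) (a : MonoidAlgebra R M)
    (ha : a ∈ S) : a ∈ Set.range (MonoidAlgebra.mapRingHom M f) := by
  classical
  apply mem_range_mapR f M a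
  intro m
  by_cases hm : a.coeff m = 0
  · rw [hm]
    exact ⟨0, map_zero f⟩
  · refine h _ (Finset.mem_biUnion.2 ⟨a, ha, Finset.mem_image.2
      ⟨m, Finsupp.mem_support_iff.2 hm, rfl⟩⟩)

/-- **Every class comes from the rings which contain a finite set.** -/
theorem HnK1_exists_lift (z : HnK1 R G n) : ∃ S : Finset R, ∀ {R' : Type u'} [Ring R']
    (f : R' →+* R), Function.Injective f → (∀ s ∈ S, s ∈ Set.range f) →
      ∃ y : HnK1 R' G n, hn1 f y = z := by
  classical
  induction z using hnk1_induction with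
  | h0 =>
    refine ⟨∅, ?_⟩
    intro R' _ f hf h
    exact ⟨0, map_zero _⟩
  | h1 F x z =>
    obtain ⟨S, hS⟩ := K1_exists_lift.{max u v, max u' v} x
    refine ⟨cfs F.1 S, ?_⟩
    intro R' _ f hf h
    obtain ⟨y, hy⟩ := hS (MonoidAlgebra.mapRingHom F.1 f) (mapRingHom_injective' hf F.1)
      (mem_cfs f F.1 S h)
    exact ⟨sy1 F y z, by rw [hn1_sy1, hy]⟩
  | h2 a b ha hb =>
    obtain ⟨S1, h1⟩ := ha
    obtain ⟨S2, h2⟩ := hb
    refine ⟨S1 ∪ S2, ?_⟩
    intro A' _ f hf h
    obtain ⟨y1, e1⟩ := h1 f hf fun s hs => h s (Finset.mem_union_left _ hs)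
    obtain ⟨y2, e2⟩ := h2 f hf fun s hs => h s (Finset.mem_union_right _ hs)
    exact ⟨y1 + y2, by rw [map_add, e1, e2]⟩
  | h3 a ha =>
    obtain ⟨S, hS⟩ := ha
    refine ⟨S, ?_⟩
    intro A' _ f hf h
    obtain ⟨y, hy⟩ := hS f hf h
    exact ⟨-y, by rw [map_neg, hy]⟩

theorem HnK0_exists_lift (z : HnK0 R G n) : ∃ S : Finset R, ∀ {R' : Type u'} [Ring R']
    (f : R' →+* R), Function.Injective f → (∀ s ∈ S, s ∈ Set.range f) →
      ∃ y : HnK0 R' G n, (NatK0.ofHom G f).src n y = z := by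
  classical
  induction z using hnk0_induction with
  | h0 =>
    refine ⟨∅, ?_⟩
    intro R' _ f hf h
    exact ⟨0, map_zero _⟩
  | h1 F x z =>
    obtain ⟨S, hS⟩ := K0_exists_lift.{max u v, max u' v} x
    refine ⟨cfs F.1 S, ?_⟩
    intro R' _ f hf h
    obtain ⟨y, hy⟩ := hS (MonoidAlgebra.mapRingHom F.1 f) (mapRingHom_injective' hf F.1)
      (mem_cfs f F.1 S h)
    refine ⟨sy F y z, ?_⟩
    rw [NatK0.src_sy, NatK0.ofHom_app, hy]
  | h2 a b ha hb =>
    obtain ⟨S1, h1⟩ := ha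
    obtain ⟨S2, h2⟩ := hb
    refine ⟨S1 ∪ S2, ?_⟩
    intro A' _ f hf h
    obtain ⟨y1, e1⟩ := h1 f hf fun s hs => h s (Finset.mem_union_left _ hs)
    obtain ⟨y2, e2⟩ := h2 f hf fun s hs => h s (Finset.mem_union_right _ hs)
    exact ⟨y1 + y2, by rw [map_add, e1, e2]⟩
  | h3 a ha =>
    obtain ⟨S, hS⟩ := ha
    refine ⟨S, ?_⟩
    intro A' _ f hf h
    obtain ⟨y, hy⟩ := hS f hf h
    exact ⟨-y, by rw [map_neg, hy]⟩

private theorem exists_fac {A : Type*} [Ring A] {R' : Type*} [Ring R'] (f : R' →+* R)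
    (hf : Function.Injective f) (ι : A →+* R) (h : ∀ a, ι a ∈ Set.range f) :
    ∃ φ : A →+* R', f.comp φ = ι := by
  choose c hc using h
  refine ⟨⟨⟨⟨c, hf ?_⟩, fun a b => hf ?_⟩, hf ?_, fun a b => hf ?_⟩, RingHom.ext hc⟩
  · rw [hc, map_one, map_one]
  · rw [hc, map_mul, map_mul, hc, hc]
  · change f (c 0) = f 0
    rw [hc, map_zero, map_zero]
  · change f (c (a + b)) = f (c a + c b)
    rw [hc, map_add, map_add, hc, hc]

private theorem asm01_map {R' : Type u'} [Ring R'] (f : R' →+* R) (y : HnK0 R' G (n + 1))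
    (y' : HnK1 R' G n) :
    assembly01 R n G ((NatK0.ofHom G f).src (n + 1) y, hn1 f y') =
      KQ.map (MonoidAlgebra.mapRingHom G f) (assembly01 R' n G (y, y')) := by
  unfold assembly01
  rw [AddMonoidHom.coprod_apply, AddMonoidHom.coprod_apply, map_add, assemblyN_ofHom,
    map_assembly1]

/-- **Directed unions of coefficient rings.** -/
theorem ratInj01_of_local (h : ∀ S : Finset R, ∃ (R' : Type u) (_ : Ring R') (f : R' →+* R),
      Function.Injective f ∧ (∀ s ∈ S, s ∈ Set.range f) ∧ RatInj (assembly01 R' n G)) :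
    RatInj (assembly01 R n G) := by
  classical
  rw [Pool.Agent.H71.FQ.ratInj_iff]
  rintro ⟨z0, z1⟩ M hM hz
  obtain ⟨S0, hS0⟩ := HnK0_exists_lift.{u, u, v} z0
  obtain ⟨S1, hS1⟩ := HnK1_exists_lift.{u, u, v} z1
  set A : Subring R := Subring.closure ((S0 ∪ S1 : Finset R) : Set R) with hA
  obtain ⟨y0, hy0⟩ := hS0 A.subtype Subtype.val_injective fun s hs =>
    ⟨⟨s, Subring.subset_closure (Finset.mem_coe.2 (Finset.mem_union_left _ hs))⟩, rfl⟩
  obtain ⟨y1, hy1⟩ := hS1 A.subtype Subtype.val_injective fun s hs =>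
    ⟨⟨s, Subring.subset_closure (Finset.mem_coe.2 (Finset.mem_union_right _ hs))⟩, rfl⟩
  have h1 : KQ.map (MonoidAlgebra.mapRingHom G A.subtype) (M • assembly01 A n G (y0, y1)) = 0 := by
    rw [map_zsmul, ← asm01_map, hy0, hy1, hz]
  obtain ⟨T, hT⟩ := KQ.exists_zero.{max u v, max u v, max u v} _ _ h1
  obtain ⟨R', _, f, hf, hS, hR'⟩ := h ((S0 ∪ S1) ∪ cfs G T)
  have hle : ∀ a : A, A.subtype a ∈ Set.range f := by
    intro a
    have h2 : A ≤ f.range := by
      rw [hA, Subring.closure_le]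
      intro s hs
      exact hS s (Finset.mem_union_left _ (Finset.mem_coe.1 hs))
    exact h2 a.2
  obtain ⟨φ, hφ⟩ := exists_fac f hf A.subtype hle
  have h2 : KQ.map (MonoidAlgebra.mapRingHom G φ) (M • assembly01 A n G (y0, y1)) = 0 := by
    refine hT (MonoidAlgebra.mapRingHom G f) _ (mapRingHom_injective' hf G) ?_ ?_
    · rw [← hφ, MonoidAlgebra.mapRingHom_comp]
    · exact mem_cfs f G T fun s hs => hS s (Finset.mem_union_right _ hs)
  rw [map_zsmul, ← asm01_map] at h2
  obtain ⟨m, hm, h3⟩ := (Pool.Agent.H71.FQ.ratInj_iff.1 hR') _ M hM h2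
  refine ⟨m, hm, ?_⟩
  have h4 := congrArg Prod.fst h3
  have h5 := congrArg Prod.snd h3
  change m • (NatK0.ofHom G φ).src (n + 1) y0 = 0 at h4
  change m • hn1 φ y1 = 0 at h5
  have h6 := congrArg ((NatK0.ofHom G f).src (n + 1)) h4
  have h7 := congrArg (hn1 f) h5
  rw [map_zsmul, src_comp, map_zero, hφ, hy0] at h6
  rw [map_zsmul, hn1_comp, map_zero, hφ, hy1] at h7
  exact Prod.ext h6 h7

end

end Pool.Agent.H16.FU
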