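import Mathlib

/-!
# Project FU: fields with enough discrete valuations
-/

set_option autoImplicit false

universe u v w

namespace Pool.Agent.H16.FU

/-- `k` has enough discrete valuations: an element of `k` whose order is nonnegative under all homomorphisms
`k → K((t))`, `K` the algebraic closure of `F_p`, is zero or a root of unity. -/
def EnoughVal (p : ℕ) [Fact p.Prime] (k : Type u) [Field k] : Prop :=
  ∀ a : k, (∀ i : k →+* LaurentSeries (AlgebraicClosure (ZMod p)), 0 ≤ (i a).order) →
    a = 0 ∨ ∃ m : ℕ, 0 < m ∧ a ^ m = 1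

/-- algebraic elements over `F_p` are zero or roots of unity -/
theorem zero_or_root {p : ℕ} [Fact p.Prime] {k : Type u} [Field k] [Algebra (ZMod p) k] (a : k)
    (ha : IsAlgebraic (ZMod p) a) : a = 0 ∨ ∃ m : ℕ, 0 < m ∧ a ^ m = 1 := by
  by_cases h0 : a = 0
  · exact Or.inl h0
  right
  have hfd : FiniteDimensional (ZMod p) (IntermediateField.adjoin (ZMod p) {a}) :=
    IntermediateField.adjoin.finiteDimensional ha.isIntegral
  have hfin : Finite (IntermediateField.adjoin (ZMod p) {a}) := Module.finite_of_finite (ZMod p)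
  let b : IntermediateField.adjoin (ZMod p) {a} := ⟨a, IntermediateField.mem_adjoin_simple_self _ a⟩
  have hb : b ≠ 0 := fun h => h0 (congrArg Subtype.val h)
  obtain ⟨m, hm, h1⟩ := isOfFinOrder_iff_pow_eq_one.1 (isOfFinOrder_of_finite (Units.mk0 b hb))
  refine ⟨m, hm, ?_⟩
  have h2 := congrArg Units.val h1
  rw [Units.val_pow_eq_pow_val, Units.val_mk0, Units.val_one] at h2
  exact congrArg Subtype.val h2

end Pool.Agent.H16.FU
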