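import Pool.Agent.H16.FU.EVbA

/-!
# Project FU: extension of embeddings into Laurent series to finite extensions

`exists_expansion`: if `O` is a subring of `L` which contains the field `K`, and `s ∈ O` is such that every element of
`O` is `c + s y` with `c ∈ K` and `y ∈ O`, then power series expansions in `s` give a homomorphism `L → K((t))`.

PROOF. For `x ∈ O` there is a unique power series `f = ∑ c_n X ^ n` such that `x - ∑_{l < n} c_l s ^ l ∈ s ^ n O` for all
`n` (uniqueness: `h2`, that is, `K ∩ s O = 0`). The set of such pairs `(x, f)` is a subring of `O × K⟦X⟧`; so `x ↦ f`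
is a ring homomorphism `O → K⟦X⟧`, injective by `h3`. It extends to `L` because `L = O[1/s]` by `h4` and `s ↦ X` is a
unit in `K((X))` (for instance `f(x) = X ^ (-n) f(s ^ n x)`).

`exists_ext`: a homomorphism `i : k → K((t))` over the algebraically closed field `K` with `0 < ord (i a)` and a
finite extension `L / k` give a homomorphism `L → K((t))` over `K` for which the order of `a` is positive.

PROOF. (1) `exists_above`: a valuation ring `O` of `L` which dominates the valuation ring `{x | 0 ≤ ord (i x)}` of `k`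
(`LocalSubring.exists_le_valuationSubring`). (2) `exists_pow`: with `d = [L : k]`, among `1, x, …, x ^ d` two have the
same valuation up to an element of `k` (otherwise they are linearly independent over `k`, because in a sum of elements
with pairwise distinct valuations the one with the largest valuation dominates). (3) `exists_residue`: `x ∈ O` is a
root of a polynomial over `k` of degree `≤ d`, not all coefficients zero; dividing by a coefficient of smallest order all
coefficients are in the valuation ring and one is a unit; reduce the coefficients modulo the maximal ideal (constant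
coefficient of `i`); the polynomial over `K` splits: some `x - c` is not a unit of `O`. (4) `exists_unif`: by (2)
`w x := ord (i y)` for `x ^ (d!) = y u`, `y ∈ k`, `u` a unit of `O`, is a homomorphism `Lˣ → ℤ` with
`0 ≤ w x ↔ x ∈ O`, nonzero because of `a`; take `s` with `w s` minimal positive.
-/

set_option autoImplicit false

open Nat

universe u v w

namespace Pool.Agent.H16.FU

section Aux

variable {K : Type u} [Field K] {k : Type v} [Field k] (κ : K →+* k)
  (i : k →+* LaurentSeries K) (hi : ∀ c, i (κ c) = HahnSeries.C c) {L : Type w} [Field L]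
  [Algebra k L]

/-- the power series as a valuation ring of the Laurent series -/
noncomputable def lauO (K : Type u) [Field K] : ValuationSubring (LaurentSeries K) where
  carrier := {f | 0 ≤ f.order}
  mul_mem' := by
    intro f g hf hg
    rw [Set.mem_ofPred_eq] at hf hg ⊢
    by_cases h1 : f = 0
    · rw [h1, zero_mul, HahnSeries.order_zero]
    by_cases h2 : g = 0
    · rw [h2, mul_zero, HahnSeries.order_zero]
    rw [HahnSeries.order_mul h1 h2]
    exact add_nonneg hf hg
  one_mem' := by
    rw [Set.mem_ofPred_eq, HahnSeries.order_one]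
  add_mem' := by
    intro f g hf hg
    rw [Set.mem_ofPred_eq] at hf hg ⊢
    by_cases h1 : f + g = 0
    · rw [h1, HahnSeries.order_zero]
    exact (le_min hf hg).trans (HahnSeries.min_order_le_order_add h1)
  zero_mem' := by
    rw [Set.mem_ofPred_eq, HahnSeries.order_zero]
  neg_mem' := by
    intro f hf
    rw [Set.mem_ofPred_eq] at hf ⊢
    rw [HahnSeries.order_neg]
    exact hf
  mem_or_inv_mem' := by
    intro f
    rw [Set.mem_ofPred_eq, Set.mem_ofPred_eq]
    by_cases h1 : f = 0
    · left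
      rw [h1, HahnSeries.order_zero]
    have h2 : f⁻¹ ≠ 0 := inv_ne_zero h1
    have h3 := HahnSeries.order_mul h1 h2
    rw [mul_inv_cancel₀ h1, HahnSeries.order_one] at h3
    omega

theorem mem_lauO {f : LaurentSeries K} : f ∈ lauO K ↔ 0 ≤ f.order := Iff.rfl

theorem order_inv' {f : LaurentSeries K} : (f⁻¹).order = -f.order := by
  by_cases h1 : f = 0
  · rw [h1, inv_zero, HahnSeries.order_zero, neg_zero]
  have h2 : f⁻¹ ≠ 0 := inv_ne_zero h1
  have h3 := HahnSeries.order_mul h1 h2
  rw [mul_inv_cancel₀ h1, HahnSeries.order_one] at h3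
  omega

/-- the elements of `k` in the maximal ideal -/
theorem val_lt_one_iff (O : ValuationSubring L) (hO : ∀ x : k, algebraMap k L x ∈ O ↔ 0 ≤ (i x).order)
    (x : k) : O.valuation (algebraMap k L x) < 1 ↔ x = 0 ∨ 0 < (i x).order := by
  by_cases hx : x = 0
  · simp [hx]
  have hv : O.valuation (algebraMap k L x) ≠ 0 :=
    (Valuation.ne_zero_iff _).2 ((map_ne_zero _).2 hx)
  rw [← not_le]
  have h1 : 1 ≤ O.valuation (algebraMap k L x) ↔ O.valuation (algebraMap k L x⁻¹) ≤ 1 := by
    rw [map_inv₀, map_inv₀, inv_le_one₀ (zero_lt_iff.2 hv)]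
  rw [h1, ValuationSubring.valuation_le_one_iff, hO, map_inv₀, order_inv']
  constructor
  · intro h
    right
    omega
  · rintro (h | h)
    · exact absurd h hx
    · omega

include hi in
theorem val_const (O : ValuationSubring L) (hO : ∀ x : k, algebraMap k L x ∈ O ↔ 0 ≤ (i x).order)
    (c : K) (hc : c ≠ 0) : O.valuation (algebraMap k L (κ c)) = 1 := by
  have h1 : O.valuation (algebraMap k L (κ c)) ≤ 1 := by
    rw [ValuationSubring.valuation_le_one_iff, hO, hi, HahnSeries.order_C]
  have h2 : ¬ O.valuation (algebraMap k L (κ c)) < 1 := by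
    rw [val_lt_one_iff i O hO, hi, HahnSeries.order_C]
    rintro (h | h)
    · exact hc ((map_eq_zero κ).1 h)
    · exact lt_irrefl _ h
  exact le_antisymm h1 (not_lt.1 h2)

end Aux

section Ext

variable {K : Type u} [Field K] [IsAlgClosed K] {k : Type v} [Field k] (κ : K →+* k)
  (i : k →+* LaurentSeries K) (hi : ∀ c, i (κ c) = HahnSeries.C c) {L : Type w} [Field L]
  [Algebra k L] [FiniteDimensional k L]

theorem exists_above (L : Type w) [Field L] [Algebra k L] : ∃ O : ValuationSubring L,
    ∀ x : k, algebraMap k L x ∈ O ↔ 0 ≤ (i x).order := by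
  obtain ⟨A, hA⟩ : ∃ A : ValuationSubring k, A = (lauO K).comap i := ⟨_, rfl⟩
  have hAm : ∀ x : k, x ∈ A ↔ 0 ≤ (i x).order := by
    intro x
    rw [hA, ValuationSubring.mem_comap, mem_lauO]
  obtain ⟨O, hO⟩ := (A.toLocalSubring.map (algebraMap k L)).exists_le_valuationSubring
  obtain ⟨h1, h2⟩ := hO
  refine ⟨O, fun x => ?_⟩
  have h3 : ∀ x ∈ A, algebraMap k L x ∈ O := fun x hx => h1 ⟨x, hx, rfl⟩
  rw [← hAm]
  refine ⟨fun hx => ?_, fun hx => h3 x hx⟩
  by_contra hxA
  have hx0 : x ≠ 0 := by
    rintro rfl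
    exact hxA A.zero_mem
  have hxi : x⁻¹ ∈ A := (A.mem_or_inv_mem x).resolve_left hxA
  obtain ⟨z, hz⟩ : ∃ z : (A.toLocalSubring.map (algebraMap k L)).toSubring,
      (z : L) = algebraMap k L x⁻¹ := ⟨⟨algebraMap k L x⁻¹, ⟨x⁻¹, hxi, rfl⟩⟩, rfl⟩
  have hu : IsUnit (Subring.inclusion h1 z) := by
    refine IsUnit.of_mul_eq_one ⟨algebraMap k L x, hx⟩ ?_
    apply Subtype.ext
    show (z : L) * algebraMap k L x = 1
    rw [hz, ← map_mul, inv_mul_cancel₀ hx0, map_one]
  obtain ⟨w, hw⟩ := (h2.map_nonunit z hu).exists_right_inv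
  obtain ⟨w', hw', hww⟩ := w.2
  have h4 : x⁻¹ * w' = 1 := by
    apply (algebraMap k L).injective
    rw [map_mul, map_one, hww, ← hz]
    exact congrArg Subtype.val hw
  have h5 : w' = x := by
    rw [inv_mul_eq_iff_eq_mul₀ hx0, mul_one] at h4
    exact h4
  rw [← h5] at hxA
  exact hxA hw'

/-- the valuation of a power comes from `k` -/
theorem exists_pow (O : ValuationSubring L) (hO : ∀ x : k, algebraMap k L x ∈ O ↔ 0 ≤ (i x).order)
    (x : L) (hx : x ≠ 0) : ∃ y : k, y ≠ 0 ∧
      O.valuation (x ^ (Module.finrank k L)!) = O.valuation (algebraMap k L y) := by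
  classical
  obtain ⟨d, hd⟩ : ∃ d : ℕ, d = Module.finrank k L := ⟨_, rfl⟩
  rw [← hd]
  have h1 : ¬ LinearIndependent k fun j : Fin (d + 1) => x ^ (j : ℕ) := by
    intro h
    have h2 := h.fintype_card_le_finrank
    rw [Fintype.card_fin, ← hd] at h2
    omega
  rw [Fintype.not_linearIndependent_iff] at h1
  obtain ⟨c, hc, l, hl⟩ := h1
  obtain ⟨t, ht⟩ : ∃ t : Fin (d + 1) → L, t = fun j => algebraMap k L (c j) * x ^ (j : ℕ) := ⟨_, rfl⟩
  have hsum : ∑ j, t j = 0 := by
    rw [← hc, ht]
    exact Finset.sum_congr rfl fun j _ => (Algebra.smul_def _ _).symm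
  have htl : t l ≠ 0 := by
    rw [ht]
    exact mul_ne_zero ((map_ne_zero _).2 hl) (pow_ne_zero _ hx)
  obtain ⟨j, -, hj⟩ := Finset.exists_max_image Finset.univ (fun j => O.valuation (t j)) ⟨l, Finset.mem_univ l⟩
  have htj : O.valuation (t j) ≠ 0 := by
    have h3 : 0 < O.valuation (t l) := zero_lt_iff.2 ((Valuation.ne_zero_iff _).2 htl)
    exact (lt_of_lt_of_le h3 (hj l (Finset.mem_univ l))).ne'
  obtain ⟨m, hmj, hm⟩ : ∃ m, m ≠ j ∧ O.valuation (t m) = O.valuation (t j) := by
    by_contra hcon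
    push Not at hcon
    have h4 := Valuation.map_sum_eq_of_lt O.valuation (s := Finset.univ) (f := t) (j := j)
      (Finset.mem_univ j) (fun m hm => by
        rw [Finset.mem_sdiff, Finset.mem_singleton] at hm
        exact lt_of_le_of_ne (hj m (Finset.mem_univ m)) (hcon m hm.2))
    rw [hsum, map_zero] at h4
    exact htj h4.symm
  -- the two terms
  have key : ∀ a b : Fin (d + 1), a < b → O.valuation (t a) = O.valuation (t b) →
      O.valuation (t a) ≠ 0 → ∃ y : k, y ≠ 0 ∧ O.valuation (x ^ (d)!) = O.valuation (algebraMap k L y) := by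
    intro a b hab hv h0
    have hta : t a ≠ 0 := (Valuation.ne_zero_iff _).1 h0
    have htb : t b ≠ 0 := (Valuation.ne_zero_iff _).1 (hv ▸ h0)
    have hca : c a ≠ 0 := by
      intro h
      apply hta
      rw [ht]
      simp [h]
    have hcb : c b ≠ 0 := by
      intro h
      apply htb
      rw [ht]
      simp [h]
    have hab' : (a : ℕ) < b := hab
    obtain ⟨e, he⟩ : ∃ e : ℕ, (b : ℕ) = a + e := ⟨b - a, by omega⟩
    have he0 : 0 < e := by omega
    have hed : e ≤ d := by
      have := b.2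
      omega
    obtain ⟨f, hf⟩ := Nat.dvd_factorial he0 hed
    have h5 : O.valuation (x ^ e) = O.valuation (algebraMap k L (c a / c b)) := by
      rw [ht] at hv
      simp only at hv
      rw [he, pow_add, map_mul, map_mul, map_mul] at hv
      have hxa : O.valuation (x ^ (a : ℕ)) ≠ 0 := (Valuation.ne_zero_iff _).2 (pow_ne_zero _ hx)
      have hb0 : O.valuation (algebraMap k L (c b)) ≠ 0 :=
        (Valuation.ne_zero_iff _).2 ((map_ne_zero _).2 hcb)
      rw [map_div₀, map_div₀, eq_div_iff hb0]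
      apply mul_right_cancel₀ hxa
      rw [hv]
      ac_rfl
    refine ⟨(c a / c b) ^ f, pow_ne_zero _ (div_ne_zero hca hcb), ?_⟩
    rw [hf, pow_mul, map_pow, h5, map_pow, map_pow]
  rcases lt_or_gt_of_ne hmj with h | h
  · exact key m j h hm (by rw [hm]; exact htj)
  · exact key j m h hm.symm htj

include hi in
/-- the residue field is `K` -/
theorem exists_residue (O : ValuationSubring L)
    (hO : ∀ x : k, algebraMap k L x ∈ O ↔ 0 ≤ (i x).order) (x : L) (hx : x ∈ O) :
    ∃ c : K, O.valuation (x - algebraMap k L (κ c)) < 1 := by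
  classical
  have hint : IsIntegral k x := Algebra.IsIntegral.isIntegral x
  obtain ⟨P, hP⟩ : ∃ P : Polynomial k, P = minpoly k x := ⟨_, rfl⟩
  have hP0 : P ≠ 0 := by
    rw [hP]
    exact minpoly.ne_zero hint
  have hPx : Polynomial.aeval x P = 0 := by
    rw [hP]
    exact minpoly.aeval k x
  -- the coefficient of the smallest order
  obtain ⟨j₀, hj₀, hmin⟩ := Finset.exists_min_image P.support (fun j => (i (P.coeff j)).order)
    (Polynomial.support_nonempty.2 hP0)
  have hc₀ : P.coeff j₀ ≠ 0 := Polynomial.mem_support_iff.1 hj₀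
  obtain ⟨b, hb⟩ : ∃ b : ℕ → k, b = fun j => P.coeff j / P.coeff j₀ := ⟨_, rfl⟩
  have hb0 : ∀ j, 0 ≤ (i (b j)).order := by
    intro j
    rw [hb]
    simp only
    by_cases hj : P.coeff j = 0
    · rw [hj, zero_div, map_zero, HahnSeries.order_zero]
    · have h1 := hmin j (Polynomial.mem_support_iff.2 hj)
      have hij : i (P.coeff j) ≠ 0 := (map_ne_zero i).2 hj
      have hij₀ : (i (P.coeff j₀))⁻¹ ≠ 0 := inv_ne_zero ((map_ne_zero i).2 hc₀)
      rw [map_div₀, div_eq_mul_inv, HahnSeries.order_mul hij hij₀, order_inv']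
      omega
  have hbj₀ : b j₀ = 1 := by
    rw [hb]
    exact div_self hc₀
  -- the reduction
  obtain ⟨Q, hQ⟩ : ∃ Q : Polynomial K,
      Q = ∑ j ∈ Finset.range (P.natDegree + 1), Polynomial.monomial j ((i (b j)).coeff 0) := ⟨_, rfl⟩
  have hj₀r : j₀ ∈ Finset.range (P.natDegree + 1) := by
    rw [Finset.mem_range]
    exact Nat.lt_succ_of_le (Polynomial.le_natDegree_of_mem_supp _ hj₀)
  have hQ0 : Q ≠ 0 := by
    intro h
    have h1 : Q.coeff j₀ = 1 := by
      rw [hQ, Polynomial.finsetSum_coeff, Finset.sum_eq_single j₀]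
      · rw [Polynomial.coeff_monomial, if_pos rfl, hbj₀, map_one, HahnSeries.coeff_one, if_pos rfl]
      · intro j _ hj
        rw [Polynomial.coeff_monomial, if_neg hj]
      · intro h
        exact absurd hj₀r h
    rw [h, Polynomial.coeff_zero] at h1
    exact zero_ne_one h1
  have hQx : O.valuation (Polynomial.eval₂ ((algebraMap k L).comp κ) x Q) < 1 := by
    have h1 : Polynomial.eval₂ ((algebraMap k L).comp κ) x Q =
        ∑ j ∈ Finset.range (P.natDegree + 1),
          algebraMap k L (κ ((i (b j)).coeff 0)) * x ^ j := by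
      rw [hQ, Polynomial.eval₂_finsetSum]
      refine Finset.sum_congr rfl fun j _ => ?_
      rw [Polynomial.eval₂_monomial]
      rfl
    have h2 : ∑ j ∈ Finset.range (P.natDegree + 1), algebraMap k L (b j) * x ^ j = 0 := by
      have h3 : ∑ j ∈ Finset.range (P.natDegree + 1), algebraMap k L (b j) * x ^ j =
          algebraMap k L (P.coeff j₀)⁻¹ * Polynomial.aeval x P := by
        rw [Polynomial.aeval_eq_sum_range, Finset.mul_sum]
        refine Finset.sum_congr rfl fun j _ => ?_
        have hbj : b j = P.coeff j / P.coeff j₀ := by rw [hb]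
        rw [hbj, Algebra.smul_def, ← mul_assoc, ← map_mul, div_eq_inv_mul]
      rw [h3, hPx, mul_zero]
    have h4 : Polynomial.eval₂ ((algebraMap k L).comp κ) x Q =
        ∑ j ∈ Finset.range (P.natDegree + 1),
          algebraMap k L (κ ((i (b j)).coeff 0) - b j) * x ^ j := by
      rw [h1, ← sub_zero (∑ j ∈ Finset.range (P.natDegree + 1),
        algebraMap k L (κ ((i (b j)).coeff 0)) * x ^ j), ← h2, ← Finset.sum_sub_distrib]
      refine Finset.sum_congr rfl fun j _ => ?_
      rw [map_sub, sub_mul]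
    rw [h4]
    refine Valuation.map_sum_lt _ one_ne_zero fun j _ => ?_
    rw [map_mul, map_pow]
    have h5 : O.valuation x ^ j ≤ 1 := pow_le_one' ((O.valuation_le_one_iff x).2 hx) j
    have h6 : O.valuation (algebraMap k L (κ ((i (b j)).coeff 0) - b j)) < 1 := by
      rw [val_lt_one_iff i O hO]
      by_cases h7 : κ ((i (b j)).coeff 0) - b j = 0
      · left
        exact h7
      right
      have h8 : i (κ ((i (b j)).coeff 0) - b j) ≠ 0 := (map_ne_zero i).2 h7
      have h9 : (0 : ℤ) ≤ (i (κ ((i (b j)).coeff 0) - b j)).order := by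
        have h10 : i (κ ((i (b j)).coeff 0) - b j) ∈ lauO K := by
          rw [map_sub]
          refine sub_mem ?_ ?_
          · rw [mem_lauO, hi, HahnSeries.order_C]
          · exact mem_lauO.2 (hb0 j)
        exact mem_lauO.1 h10
      refine lt_of_le_of_ne h9 fun h11 => ?_
      have h12 := HahnSeries.coeff_order_eq_zero.not.2 h8
      rw [← h11] at h12
      apply h12
      rw [map_sub, hi, HahnSeries.coeff_sub, HahnSeries.C_apply, HahnSeries.coeff_single_same, sub_self]
    calc O.valuation (algebraMap k L (κ ((i (b j)).coeff 0) - b j)) * O.valuation x ^ j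
        ≤ O.valuation (algebraMap k L (κ ((i (b j)).coeff 0) - b j)) * 1 := by gcongr
      _ < 1 := by rw [mul_one]; exact h6
  -- a root
  by_contra hcon
  push Not at hcon
  have hprod : ∀ s : Multiset K, 1 ≤ O.valuation
      (Polynomial.eval₂ ((algebraMap k L).comp κ) x (s.map (Polynomial.X - Polynomial.C ·)).prod) := by
    intro s
    induction s using Multiset.induction_on with
    | empty => simp
    | cons a s ih =>
      rw [Multiset.map_cons, Multiset.prod_cons, Polynomial.eval₂_mul, map_mul,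
        Polynomial.eval₂_sub, Polynomial.eval₂_X, Polynomial.eval₂_C]
      exact one_le_mul (hcon a) ih
  have h13 := (IsAlgClosed.splits Q).eq_prod_roots
  rw [h13, Polynomial.eval₂_mul, Polynomial.eval₂_C, map_mul] at hQx
  have h14 : O.valuation (((algebraMap k L).comp κ) Q.leadingCoeff) = 1 :=
    val_const κ i hi O hO _ (Polynomial.leadingCoeff_ne_zero.2 hQ0)
  rw [h14, one_mul] at hQx
  exact absurd (hprod Q.roots) (not_le.2 hQx)

omit [IsAlgClosed K] [FiniteDimensional k L] in
/-- the valuation of an element of `k` determines the order -/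
theorem order_eq_of_valuation (O : ValuationSubring L)
    (hO : ∀ x : k, algebraMap k L x ∈ O ↔ 0 ≤ (i x).order) (y z : k) (hy : y ≠ 0) (hz : z ≠ 0)
    (h : O.valuation (algebraMap k L y) = O.valuation (algebraMap k L z)) :
    (i y).order = (i z).order := by
  have key : ∀ y z : k, y ≠ 0 → z ≠ 0 →
      O.valuation (algebraMap k L y) = O.valuation (algebraMap k L z) →
      (i z).order ≤ (i y).order := by
    intro y z hy hz h
    have h0 : algebraMap k L z ≠ 0 := fun h1 => hz ((map_eq_zero (algebraMap k L)).1 h1)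
    have h1 : algebraMap k L (y * z⁻¹) ∈ O := by
      rw [← O.valuation_le_one_iff, map_mul, map_mul, h, map_inv₀, map_inv₀,
        mul_inv_cancel₀ ((map_ne_zero _).2 h0)]
    rw [hO, map_mul] at h1
    have h2 : i y = i (y * z⁻¹) * i z := by
      rw [← map_mul, inv_mul_cancel_right₀ hz]
    have h3 : i (y * z⁻¹) ≠ 0 := (map_ne_zero i).2 (mul_ne_zero hy (inv_ne_zero hz))
    rw [h2, HahnSeries.order_mul h3 ((map_ne_zero i).2 hz)]
    rw [← map_mul] at h1
    linarith
  exact le_antisymm (key z y hz hy h.symm) (key y z hy hz h)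

/-- the discrete valuation of `L` -/
theorem exists_dval (O : ValuationSubring L)
    (hO : ∀ x : k, algebraMap k L x ∈ O ↔ 0 ≤ (i x).order) :
    ∃ w : L → ℤ, (∀ x y, x ≠ 0 → y ≠ 0 → w (x * y) = w x + w y) ∧
      ∀ x, x ≠ 0 → (x ∈ O ↔ 0 ≤ w x) := by
  classical
  have h1 : ∀ x : L, ∃ y : k, x ≠ 0 → y ≠ 0 ∧
      O.valuation (x ^ (Module.finrank k L)!) = O.valuation (algebraMap k L y) := by
    intro x
    by_cases hx : x = 0
    · exact ⟨0, fun h => absurd hx h⟩
    · obtain ⟨y, hy⟩ := exists_pow i O hO x hx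
      exact ⟨y, fun _ => hy⟩
  choose y hy using h1
  refine ⟨fun x => (i (y x)).order, fun x z hx hz => ?_, fun x hx => ?_⟩
  · obtain ⟨h2, h3⟩ := hy x hx
    obtain ⟨h4, h5⟩ := hy z hz
    obtain ⟨h6, h7⟩ := hy (x * z) (mul_ne_zero hx hz)
    rw [← HahnSeries.order_mul ((map_ne_zero i).2 h2) ((map_ne_zero i).2 h4), ← map_mul]
    refine order_eq_of_valuation i O hO _ _ h6 (mul_ne_zero h2 h4) ?_
    rw [← h7, mul_pow, map_mul, h3, h5, ← map_mul, ← map_mul]
  · obtain ⟨h2, h3⟩ := hy x hx
    rw [← hO, ← O.valuation_le_one_iff, ← O.valuation_le_one_iff, ← h3, map_pow]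
    exact (pow_le_one_iff (Nat.factorial_ne_zero _)).symm

include hi in
theorem exists_unif (O : ValuationSubring L)
    (hO : ∀ x : k, algebraMap k L x ∈ O ↔ 0 ≤ (i x).order) (a : k) (ha : 0 < (i a).order) :
    ∃ s ∈ O, s⁻¹ ∉ O ∧ (∀ x : L, O.valuation x < 1 → ∃ y ∈ O, x = s * y) ∧
      (∀ x : L, (∀ n : ℕ, ∃ y ∈ O, x = s ^ n * y) → x = 0) ∧ (∀ x : L, ∃ n : ℕ, s ^ n * x ∈ O) := by
  classical
  obtain ⟨w, hw1, hw2⟩ := exists_dval i O hO
  have hone : w 1 = 0 := by
    have h := hw1 1 1 one_ne_zero one_ne_zero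
    rw [one_mul] at h
    linarith
  have hinv : ∀ x, x ≠ 0 → w x⁻¹ = - w x := by
    intro x hx
    have h := hw1 x x⁻¹ hx (inv_ne_zero hx)
    rw [mul_inv_cancel₀ hx, hone] at h
    linarith
  have hpow : ∀ x, x ≠ 0 → ∀ n : ℕ, w (x ^ n) = n * w x := by
    intro x hx n
    induction n with
    | zero => rw [pow_zero, hone, Nat.cast_zero, zero_mul]
    | succ n ih =>
      rw [pow_succ, hw1 _ _ (pow_ne_zero n hx) hx, ih]
      push_cast
      ring
  have hlt : ∀ x, x ≠ 0 → (O.valuation x < 1 ↔ 0 < w x) := by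
    intro x hx
    have h1 : O.valuation x < 1 ↔ ¬ x⁻¹ ∈ O := by
      rw [← O.valuation_le_one_iff, map_inv₀, not_le, one_lt_inv₀]
      exact zero_lt_iff.2 ((map_ne_zero _).2 hx)
    rw [h1, hw2 _ (inv_ne_zero hx), hinv x hx]
    rw [not_le, neg_lt_zero]
  have ha0 : a ≠ 0 := by
    rintro rfl
    rw [map_zero, HahnSeries.order_zero] at ha
    exact lt_irrefl _ ha
  have ha1 : algebraMap k L a ≠ 0 := (map_ne_zero _).2 ha0
  have ha2 : 0 < w (algebraMap k L a) := by
    by_contra h
    have h1 : (algebraMap k L a)⁻¹ ∈ O := by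
      rw [hw2 _ (inv_ne_zero ha1), hinv _ ha1]
      linarith [not_lt.1 h]
    rw [← map_inv₀, hO, map_inv₀] at h1
    have h2 : (i a)⁻¹.order + (i a).order = 0 := by
      rw [← HahnSeries.order_mul (inv_ne_zero ((map_ne_zero i).2 ha0)) ((map_ne_zero i).2 ha0),
        inv_mul_cancel₀ ((map_ne_zero i).2 ha0), HahnSeries.order_one]
    linarith
  -- an element of minimal positive value
  have hex : ∃ n : ℕ, ∃ x : L, x ≠ 0 ∧ 0 < w x ∧ w x = n :=
    ⟨(w (algebraMap k L a)).toNat, algebraMap k L a, ha1, ha2, (Int.toNat_of_nonneg ha2.le).symm⟩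
  obtain ⟨s, hs0, hs1, hs2⟩ := Nat.find_spec hex
  have hmin : ∀ x, x ≠ 0 → 0 < w x → w s ≤ w x := by
    intro x hx h
    rw [hs2]
    have h1 : Nat.find hex ≤ (w x).toNat :=
      Nat.find_min' hex ⟨x, hx, h, (Int.toNat_of_nonneg h.le).symm⟩
    have h2 := Int.ofNat_le.2 h1
    rwa [Int.toNat_of_nonneg h.le] at h2
  refine ⟨s, (hw2 s hs0).2 hs1.le, ?_, ?_, ?_, ?_⟩
  · rw [hw2 _ (inv_ne_zero hs0), hinv _ hs0]
    intro h
    linarith
  · intro x hx
    by_cases h0 : x = 0
    · exact ⟨0, O.zero_mem, by rw [h0, mul_zero]⟩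
    · refine ⟨s⁻¹ * x, ?_, (mul_inv_cancel_left₀ hs0 x).symm⟩
      rw [hw2 _ (mul_ne_zero (inv_ne_zero hs0) h0), hw1 _ _ (inv_ne_zero hs0) h0, hinv _ hs0]
      have h1 := hmin x h0 ((hlt x h0).1 hx)
      linarith
  · intro x hx
    by_contra h0
    obtain ⟨y, hy, hxy⟩ := hx ((w x).toNat + 1)
    have hy0 : y ≠ 0 := by
      rintro rfl
      exact h0 (by rw [hxy, mul_zero])
    have h1 : w x = ((w x).toNat + 1 : ℕ) * w s + w y := by
      conv_lhs => rw [hxy]
      rw [hw1 _ _ (pow_ne_zero _ hs0) hy0, hpow _ hs0]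
    have h2 := (hw2 y hy0).1 hy
    have h3 := Int.self_le_toNat (w x)
    have h4 : (((w x).toNat + 1 : ℕ) : ℤ) * 1 ≤ (((w x).toNat + 1 : ℕ) : ℤ) * w s :=
      mul_le_mul_of_nonneg_left hs1 (Int.natCast_nonneg _)
    push_cast at h1 h4
    linarith
  · intro x
    by_cases h0 : x = 0
    · exact ⟨0, by rw [h0, mul_zero]; exact O.zero_mem⟩
    · refine ⟨(- w x).toNat, ?_⟩
      rw [hw2 _ (mul_ne_zero (pow_ne_zero _ hs0) h0), hw1 _ _ (pow_ne_zero _ hs0) h0, hpow _ hs0]
      have h3 := Int.self_le_toNat (- w x)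
      have h4 : ((- w x).toNat : ℤ) * 1 ≤ ((- w x).toNat : ℤ) * w s :=
        mul_le_mul_of_nonneg_left hs1 (Int.natCast_nonneg _)
      linarith

include hi in
/-- **Extension to finite extensions.** -/
theorem exists_ext (a : k) (ha : 0 < (i a).order) :
    ∃ f : L →+* LaurentSeries K, (∀ c, f (algebraMap k L (κ c)) = HahnSeries.C c) ∧
      0 < (f (algebraMap k L a)).order := by
  obtain ⟨O, hO⟩ := exists_above i L
  obtain ⟨s, hs, hs1, hs2, hs3, hs4⟩ := exists_unif κ i hi O hO a ha
  have ha0 : a ≠ 0 := by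
    rintro rfl
    rw [map_zero, HahnSeries.order_zero] at ha
    exact lt_irrefl _ ha
  obtain ⟨f, hf1, hf2, hf3⟩ := exists_expansion ((algebraMap k L).comp κ) O.toSubring s hs
    (fun c => by
      change algebraMap k L (κ c) ∈ O
      rw [hO, hi, HahnSeries.order_C])
    (fun x hx => by
      obtain ⟨c, hc⟩ := exists_residue κ i hi O hO x hx
      obtain ⟨y, hy, hxy⟩ := hs2 _ hc
      refine ⟨c, y, hy, ?_⟩
      rw [← hxy]
      exact (add_sub_cancel _ _).symm) hs1 hs3 hs4
  refine ⟨f, hf1, ?_⟩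
  have h1 : O.valuation (algebraMap k L a) < 1 := by
    by_contra h
    have h2 : (algebraMap k L a)⁻¹ ∈ O := by
      rw [← O.valuation_le_one_iff, map_inv₀]
      exact inv_le_one_of_one_le₀ (not_lt.1 h)
    rw [← map_inv₀, hO, map_inv₀] at h2
    have h3 : (i a)⁻¹.order + (i a).order = 0 := by
      rw [← HahnSeries.order_mul (inv_ne_zero ((map_ne_zero i).2 ha0)) ((map_ne_zero i).2 ha0),
        inv_mul_cancel₀ ((map_ne_zero i).2 ha0), HahnSeries.order_one]
    linarith
  obtain ⟨y, hy, hxy⟩ := hs2 _ h1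
  have ha1 : algebraMap k L a ≠ 0 := (map_ne_zero _).2 ha0
  have hs0 : s ≠ 0 := by
    rintro rfl
    exact ha1 (by rw [hxy, zero_mul])
  have hy0 : y ≠ 0 := by
    rintro rfl
    exact ha1 (by rw [hxy, mul_zero])
  rw [hxy, map_mul, HahnSeries.order_mul ((map_ne_zero f).2 hs0) ((map_ne_zero f).2 hy0)]
  have h4 := hf3 y hy
  linarith

end Ext

end Pool.Agent.H16.FU
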