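import Mathlib

/-!
# Project FU: power series expansions (the theorem `exists_expansion` of EVb)
-/

set_option autoImplicit false

open Polynomial

universe u v w

namespace Pool.Agent.H16.FU

section Expansion

variable {K : Type u} [Field K] {L : Type v} [Field L] (κ : K →+* L) (O : Subring L) (s : L)

/-- `f` is the expansion of `x` -/
def ExpRel (x : L) (f : PowerSeries K) : Prop :=
  ∀ n : ℕ, ∃ (P : K[X]) (y : L), y ∈ O ∧ (∀ m < n, P.coeff m = PowerSeries.coeff m f) ∧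
    x = P.eval₂ κ s + s ^ n * y

variable {κ O s}

theorem evalmem (hs : s ∈ O) (hK : ∀ c, κ c ∈ O) (P : K[X]) : P.eval₂ κ s ∈ O := by
  rw [eval₂_eq_sum_range]
  exact Subring.sum_mem _ fun i _ => O.mul_mem (hK _) (Subring.pow_mem _ hs _)

theorem ExpRel.add {x x' : L} {f f' : PowerSeries K} (h : ExpRel κ O s x f)
    (h' : ExpRel κ O s x' f') : ExpRel κ O s (x + x') (f + f') := by
  intro n
  obtain ⟨P, y, hy, hP, hx⟩ := h n
  obtain ⟨P', y', hy', hP', hx'⟩ := h' n
  refine ⟨P + P', y + y', O.add_mem hy hy', fun m hm => ?_, ?_⟩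
  · rw [coeff_add, hP m hm, hP' m hm, map_add]
  · rw [hx, hx', eval₂_add]
    ring

theorem ExpRel.mul (hs : s ∈ O) (hK : ∀ c, κ c ∈ O) {x x' : L} {f f' : PowerSeries K}
    (h : ExpRel κ O s x f) (h' : ExpRel κ O s x' f') : ExpRel κ O s (x * x') (f * f') := by
  intro n
  obtain ⟨P, y, hy, hP, hx⟩ := h n
  obtain ⟨P', y', hy', hP', hx'⟩ := h' n
  refine ⟨P * P', P.eval₂ κ s * y' + P'.eval₂ κ s * y + s ^ n * y * y', ?_, fun m hm => ?_, ?_⟩
  · exact O.add_mem (O.add_mem (O.mul_mem (evalmem hs hK P) hy')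
      (O.mul_mem (evalmem hs hK P') hy)) (O.mul_mem (O.mul_mem (Subring.pow_mem _ hs _) hy) hy')
  · rw [coeff_mul, PowerSeries.coeff_mul]
    refine Finset.sum_congr rfl fun p hp => ?_
    have h1 := Finset.HasAntidiagonal.mem_antidiagonal.1 hp
    rw [hP p.1 (by omega), hP' p.2 (by omega)]
  · rw [hx, hx', eval₂_mul]
    ring

theorem ExpRel.unique (hs : s ∈ O) (hK : ∀ c, κ c ∈ O) (h2 : s⁻¹ ∉ O) {x : L}
    {f f' : PowerSeries K} (h : ExpRel κ O s x f) (h' : ExpRel κ O s x f') : f = f' := by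
  have hs0 : s ≠ 0 := by
    rintro rfl
    exact h2 (by rw [inv_zero]; exact O.zero_mem)
  apply PowerSeries.ext
  intro n
  induction n using Nat.strong_induction_on with
  | _ n ih =>
    by_contra hne
    obtain ⟨P, y, hy, hP, hx⟩ := h (n + 1)
    obtain ⟨P', y', hy', hP', hx'⟩ := h' (n + 1)
    have h3 : X ^ n ∣ P - P' := by
      rw [X_pow_dvd_iff]
      intro d hd
      rw [coeff_sub, hP d (by omega), hP' d (by omega), ih d hd, sub_self]
    obtain ⟨Q, hQ⟩ := h3
    have h4 : Q.coeff 0 = PowerSeries.coeff n f - PowerSeries.coeff n f' := by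
      have h5 := congrArg (fun q : K[X] => q.coeff n) hQ
      simp only [coeff_sub] at h5
      rw [hP n (by omega), hP' n (by omega)] at h5
      rw [h5]
      have h6 := coeff_X_pow_mul Q n 0
      rw [zero_add] at h6
      exact h6.symm
    have hc : Q.coeff 0 ≠ 0 := by
      rw [h4]
      exact sub_ne_zero.2 hne
    have h7 : (P - P').eval₂ κ s = s ^ (n + 1) * (y' - y) := by
      rw [eval₂_sub]
      have h8 := hx.symm.trans hx'
      rw [← sub_eq_zero] at h8 ⊢
      rw [← h8]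
      ring
    have h9 : Q.eval₂ κ s = s * (y' - y) := by
      rw [hQ, eval₂_mul, eval₂_pow, eval₂_X, pow_succ, mul_assoc] at h7
      exact mul_left_cancel₀ (pow_ne_zero n hs0) h7
    have h10 : Q.eval₂ κ s = Q.divX.eval₂ κ s * s + κ (Q.coeff 0) := by
      conv_lhs => rw [← divX_mul_X_add Q]
      rw [eval₂_add, eval₂_mul, eval₂_X, eval₂_C]
    have h11 : κ (Q.coeff 0) = s * (y' - y - Q.divX.eval₂ κ s) := by
      rw [mul_sub, ← h9, h10]
      ring
    apply h2
    have h12 : s⁻¹ = (y' - y - Q.divX.eval₂ κ s) * κ (Q.coeff 0)⁻¹ := by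
      rw [map_inv₀, h11, mul_inv, ← mul_assoc, mul_comm _ s⁻¹, mul_assoc, mul_inv_cancel₀, mul_one]
      intro h13
      rw [h13, mul_zero] at h11
      exact hc (κ.injective (by rw [h11, map_zero]))
    rw [h12]
    exact O.mul_mem (O.sub_mem (O.sub_mem hy' hy) (evalmem hs hK _)) (hK _)

theorem ExpRel.exists (h1 : ∀ x ∈ O, ∃ c : K, ∃ y ∈ O, x = κ c + s * y) {x : L} (hx : x ∈ O) :
    ∃ f : PowerSeries K, ExpRel κ O s x f := by
  choose c y hy hc using h1
  let d : O → O := fun z => ⟨y z z.2, hy z z.2⟩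
  have hd : ∀ z : O, (z : L) = κ (c z z.2) + s * (d z : L) := fun z => hc z z.2
  refine ⟨PowerSeries.mk fun n => c (d^[n] ⟨x, hx⟩ : O) (d^[n] ⟨x, hx⟩ : O).2, fun n => ?_⟩
  refine ⟨∑ m ∈ Finset.range n, Polynomial.C (c (d^[m] ⟨x, hx⟩ : O) (d^[m] ⟨x, hx⟩ : O).2) * X ^ m,
    (d^[n] ⟨x, hx⟩ : O), (d^[n] ⟨x, hx⟩ : O).2, fun m hm => ?_, ?_⟩
  · rw [finset_sum_coeff, PowerSeries.coeff_mk]
    simp only [coeff_C_mul, coeff_X_pow, mul_ite, mul_one, mul_zero]
    rw [Finset.sum_ite_eq, if_pos (Finset.mem_range.2 hm)]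
  · induction n with
    | zero => simp
    | succ n ih =>
      rw [Finset.sum_range_succ, eval₂_add, eval₂_mul, eval₂_pow, eval₂_X, eval₂_C,
        Function.iterate_succ_apply', pow_succ]
      have h3 := hd (d^[n] ⟨x, hx⟩)
      rw [h3] at ih
      refine ih.trans ?_
      ring

theorem ExpRel.C (c : K) : ExpRel κ O s (κ c) (PowerSeries.C c) := by
  intro n
  refine ⟨Polynomial.C c, 0, O.zero_mem, fun m _ => ?_, ?_⟩
  · rw [PowerSeries.coeff_C, Polynomial.coeff_C]
  · rw [eval₂_C, mul_zero, add_zero]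

theorem ExpRel.X : ExpRel κ O s s PowerSeries.X := by
  intro n
  refine ⟨Polynomial.X, 0, O.zero_mem, fun m _ => ?_, ?_⟩
  · rw [PowerSeries.coeff_X, Polynomial.coeff_X]
    simp only [eq_comm]
  · rw [eval₂_X, mul_zero, add_zero]

theorem ExpRel.zero_of (h3 : ∀ x, (∀ n : ℕ, ∃ y ∈ O, x = s ^ n * y) → x = 0) {x : L}
    (hs : s ∈ O) (hK : ∀ c, κ c ∈ O) (h : ExpRel κ O s x 0) : x = 0 := by
  apply h3
  intro n
  obtain ⟨P, y, hy, hP, hx⟩ := h n
  have h4 : Polynomial.X ^ n ∣ P := by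
    rw [X_pow_dvd_iff]
    intro d hd
    rw [hP d hd, map_zero]
  obtain ⟨Q, rfl⟩ := h4
  refine ⟨Q.eval₂ κ s + y, O.add_mem (evalmem hs hK Q) hy, ?_⟩
  rw [hx, eval₂_mul, eval₂_pow, eval₂_X]
  ring

theorem order_coe_nonneg (f : PowerSeries K) : 0 ≤ (f : LaurentSeries K).order := by
  by_contra h
  rw [not_le] at h
  have h1 : (f : LaurentSeries K).coeff (f : LaurentSeries K).order = 0 := by
    rw [PowerSeries.coeff_coe, if_pos h]
  rw [HahnSeries.coeff_order_eq_zero] at h1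
  rw [h1, HahnSeries.order_zero] at h
  exact lt_irrefl _ h

variable (κ O s)

/-- **Power series expansions.** -/
theorem exists_expansion (hs : s ∈ O) (hK : ∀ c, κ c ∈ O)
    (h1 : ∀ x ∈ O, ∃ c : K, ∃ y ∈ O, x = κ c + s * y) (h2 : s⁻¹ ∉ O)
    (h3 : ∀ x, (∀ n : ℕ, ∃ y ∈ O, x = s ^ n * y) → x = 0) (h4 : ∀ x, ∃ n : ℕ, s ^ n * x ∈ O) :
    ∃ f : L →+* LaurentSeries K, (∀ c, f (κ c) = HahnSeries.C c) ∧ 0 < (f s).order ∧
      ∀ x ∈ O, 0 ≤ (f x).order := by
  have hs0 : s ≠ 0 := by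
    rintro rfl
    exact h2 (by rw [inv_zero]; exact O.zero_mem)
  choose F hF using fun x : O => ExpRel.exists (κ := κ) h1 x.2
  have hu : ∀ (x : O) (f : PowerSeries K), ExpRel κ O s x f → F x = f := fun x f hf =>
    ExpRel.unique hs hK h2 (hF x) hf
  let g0 : O →+* PowerSeries K :=
    { toFun := F
      map_one' := hu 1 1 (by
        have h := ExpRel.C (κ := κ) (O := O) (s := s) 1
        rw [map_one, map_one] at h
        exact h)
      map_mul' := fun x y => hu _ _ ((hF x).mul hs hK (hF y))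
      map_zero' := hu 0 0 (by
        have h := ExpRel.C (κ := κ) (O := O) (s := s) 0
        rw [map_zero, map_zero] at h
        exact h)
      map_add' := fun x y => hu _ _ ((hF x).add (hF y)) }
  let g : O →+* LaurentSeries K := (HahnSeries.ofPowerSeries ℤ K).comp g0
  have hg : Function.Injective g := by
    rw [injective_iff_map_eq_zero]
    intro x hx
    have h5 : F x = 0 := HahnSeries.ofPowerSeries_injective (hx.trans (map_zero _).symm)
    have h6 := hF x
    rw [h5] at h6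
    exact Subtype.ext (ExpRel.zero_of h3 hs hK h6)
  have hfrac : IsFractionRing O L := by
    apply IsFractionRing.of_field
    intro z
    obtain ⟨n, hn⟩ := h4 z
    refine ⟨⟨s ^ n * z, hn⟩, ⟨s ^ n, Subring.pow_mem _ hs _⟩, ?_⟩
    change z = s ^ n * z / s ^ n
    rw [mul_div_cancel_left₀ _ (pow_ne_zero n hs0)]
  have hl : ∀ x (hx : x ∈ O), IsFractionRing.lift (K := L) hg x = g ⟨x, hx⟩ := fun x hx =>
    IsFractionRing.lift_algebraMap hg ⟨x, hx⟩
  refine ⟨IsFractionRing.lift hg, fun c => ?_, ?_, fun x hx => ?_⟩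
  · rw [hl _ (hK c)]
    change HahnSeries.ofPowerSeries ℤ K (F _) = _
    rw [hu ⟨κ c, hK c⟩ _ (ExpRel.C c), HahnSeries.ofPowerSeries_C]
  · rw [hl _ hs]
    change 0 < (HahnSeries.ofPowerSeries ℤ K (F _)).order
    rw [hu ⟨s, hs⟩ _ ExpRel.X, HahnSeries.ofPowerSeries_X, HahnSeries.order_single one_ne_zero]
    exact one_pos
  · rw [hl _ hx]
    exact order_coe_nonneg _

end Expansion

end Pool.Agent.H16.FU
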