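import Pool.Agent.H16.FU.EV
import Pool.Agent.H16.FU.EVb

/-!
# Project FU: finitely generated fields have enough discrete valuations

PROOFS. `exists_algInd`: `K` countable, `K((t))` uncountable; a transcendence basis of `K((t))` over `K` containing
`t` is uncountable (an algebraic extension of a countable field is countable).

`enoughVal_fg`: let `a ∈ k` be transcendental over `F_p` and `b = a⁻¹`. Choose a transcendence basis `X` of `k` over
`F_p` with `b ∈ X`; it is finite. Work in `Ω = AlgebraicClosure k`, `K → Ω` (`IsAlgClosed.lift`). `X` is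
algebraically independent over `K` (`K` is algebraic over `F_p`), so by `exists_algInd` there is a homomorphism
`K(X) → K((t))` over `K` with `b ↦ t` (`K(X) ⊆ Ω`). The subfield `L = K(X)(S) ⊆ Ω` is finite over `K(X)` because `S` is
finite and `k` is algebraic over `F_p(X)`; `exists_ext` gives `L → K((t))` with `0 < ord b`, so `ord a < 0`; restrict to
`k ⊆ L`.
-/

set_option autoImplicit false

universe u v w

namespace Pool.Agent.H16.FU

/-- the homomorphism `K[X] → K((t))` -/
private theorem aeval_single (K : Type u) [Field K] (P : Polynomial K) :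
    Polynomial.aeval (HahnSeries.single 1 1 : LaurentSeries K) P =
      HahnSeries.ofPowerSeries ℤ K (P : PowerSeries K) := by
  have h : (Polynomial.aeval (HahnSeries.single 1 1 : LaurentSeries K)).toRingHom =
      (HahnSeries.ofPowerSeries ℤ K).comp Polynomial.coeToPowerSeries.ringHom := by
    refine Polynomial.ringHom_ext (fun a => ?_) ?_
    · show Polynomial.aeval (HahnSeries.single 1 1 : LaurentSeries K) (Polynomial.C a) =
        HahnSeries.ofPowerSeries ℤ K ((Polynomial.C a : Polynomial K) : PowerSeries K)
      rw [Polynomial.aeval_C, Polynomial.coe_C, HahnSeries.algebraMap_apply']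
      rfl
    · show Polynomial.aeval (HahnSeries.single 1 1 : LaurentSeries K) Polynomial.X =
        HahnSeries.ofPowerSeries ℤ K ((Polynomial.X : Polynomial K) : PowerSeries K)
      rw [Polynomial.aeval_X, Polynomial.coe_X, HahnSeries.ofPowerSeries_X]
  exact RingHom.congr_fun h P

private theorem transcendental_single (K : Type u) [Field K] :
    Transcendental K (HahnSeries.single 1 1 : LaurentSeries K) := by
  rw [transcendental_iff_injective]
  intro P Q h
  rw [aeval_single, aeval_single] at h
  exact Polynomial.coe_injective K (HahnSeries.ofPowerSeries_injective h)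

private theorem uncountable_laurent (K : Type u) [Field K] : Uncountable (LaurentSeries K) := by
  have hinj : Function.Injective fun S : Set ℕ =>
      HahnSeries.ofPowerSeries ℤ K (PowerSeries.mk (Set.indicator S fun _ => (1 : K))) := by
    intro S T h
    have h1 := HahnSeries.ofPowerSeries_injective h
    ext n
    have h2 := congrArg (PowerSeries.coeff n) h1
    rw [PowerSeries.coeff_mk, PowerSeries.coeff_mk] at h2
    by_cases hS : n ∈ S <;> by_cases hT : n ∈ T
    · exact iff_of_true hS hT
    · rw [Set.indicator_of_mem hS, Set.indicator_of_notMem hT] at h2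
      exact absurd h2 one_ne_zero
    · rw [Set.indicator_of_notMem hS, Set.indicator_of_mem hT] at h2
      exact absurd h2.symm one_ne_zero
    · exact iff_of_false hS hT
  have hunc : Uncountable (Set ℕ) := by
    rw [← not_countable_iff]
    intro hc
    obtain ⟨f, hf⟩ := exists_injective_nat (Set ℕ)
    exact Function.cantor_injective f hf
  exact hinj.uncountable

theorem exists_algInd (K : Type u) [Field K] [Countable K] (ι : Type v) [Finite ι] (l : ι) :
    ∃ s : ι → LaurentSeries K, AlgebraicIndependent K s ∧ s l = HahnSeries.single 1 1 := by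
  have htr : AlgebraicIndepOn K id ({HahnSeries.single 1 1} : Set (LaurentSeries K)) := by
    exact algebraicIndependent_unique_type_iff.2 (transcendental_single K)
  obtain ⟨B, hB1, hB2⟩ := exists_isTranscendenceBasis_superset htr
  have hBinf : Infinite B := by
    by_contra hfin
    rw [not_infinite_iff_finite] at hfin
    have := uncountable_laurent K
    rw [← not_countable_iff] at this
    apply this
    have h1 := hB2.isAlgebraic
    have h0 : Countable (MvPolynomial B K) := by
      rw [← Cardinal.mk_le_aleph0_iff]
      refine MvPolynomial.cardinalMk_le_max.trans ?_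
      simp
    have h2 : Countable (Algebra.adjoin K (Set.range ((↑) : B → LaurentSeries K))) :=
      (hB2.1.aevalEquiv.toEquiv.countable_iff).1 h0
    have h3 := Algebraic.countable (Algebra.adjoin K (Set.range ((↑) : B → LaurentSeries K)))
      (LaurentSeries K)
    rw [← Set.countable_univ_iff]
    refine h3.mono fun x _ => ?_
    exact h1.isAlgebraic x
  obtain ⟨e⟩ : Nonempty (ι ↪ B) := by
    obtain ⟨n, ⟨f⟩⟩ := Finite.exists_equiv_fin ι
    exact ⟨f.toEmbedding.trans (Fin.valEmbedding.trans (Infinite.natEmbedding B))⟩
  classical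
  let t : B := ⟨HahnSeries.single 1 1, hB1 rfl⟩
  refine ⟨fun i => (Equiv.swap (e l) t (e i) : B), ?_, ?_⟩
  · exact hB2.1.comp (fun i => Equiv.swap (e l) t (e i))
      ((Equiv.swap (e l) t).injective.comp e.injective)
  · show ((Equiv.swap (e l) t (e l) : B) : LaurentSeries K) = HahnSeries.single 1 1
    rw [Equiv.swap_apply_left]

/-- Homomorphisms from a finite extension of the field generated by algebraically independent elements. -/
theorem exists_hom_ext {K : Type v} [Field K] [IsAlgClosed K] [Countable K] {Ω : Type u} [Field Ω]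
    [Algebra K Ω] {X : Type w} [Finite X] (x : X → Ω) (hx : AlgebraicIndependent K x) (l : X)
    (T : Set Ω) [Finite T]
    (hT : ∀ y ∈ T, IsAlgebraic (IntermediateField.adjoin K (Set.range x)) y) :
    ∃ (L : Subfield Ω) (f : L →+* LaurentSeries K), T ⊆ L ∧
      ∃ h : x l ∈ L, 0 < (f ⟨x l, h⟩).order := by
  obtain ⟨s, hs, hsl⟩ := exists_algInd K X l
  let E := IntermediateField.adjoin K (Set.range x)
  let E' := IntermediateField.adjoin K (Set.range s)
  let e₀ : E ≃ₐ[K] E' := hx.aevalEquivField.symm.trans hs.aevalEquivField
  let i : E →ₐ[K] LaurentSeries K := E'.val.comp e₀.toAlgHom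
  have hi : ∀ c : K, (i : E →+* LaurentSeries K) (algebraMap K E c) = HahnSeries.C c := by
    intro c
    show i (algebraMap K E c) = _
    rw [AlgHom.commutes, HahnSeries.algebraMap_apply']
    exact HahnSeries.ofPowerSeries_C c
  have hxl : x l ∈ E := IntermediateField.subset_adjoin K _ ⟨l, rfl⟩
  have h1 : hx.aevalEquivField (algebraMap (MvPolynomial X K) (FractionRing (MvPolynomial X K))
      (MvPolynomial.X l)) = (⟨x l, hxl⟩ : E) := by
    apply Subtype.ext
    rw [hx.aevalEquivField_algebraMap_apply_coe, MvPolynomial.aeval_X]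
  have h2 : i ⟨x l, hxl⟩ = HahnSeries.single 1 1 := by
    show ((hs.aevalEquivField (hx.aevalEquivField.symm ⟨x l, hxl⟩) : E') : LaurentSeries K) = _
    rw [← h1, AlgEquiv.symm_apply_apply, hs.aevalEquivField_algebraMap_apply_coe,
      MvPolynomial.aeval_X, hsl]
  have hfin : FiniteDimensional E (IntermediateField.adjoin E T) :=
    IntermediateField.finiteDimensional_adjoin fun y hy => (hT y hy).isIntegral
  obtain ⟨f, -, hf⟩ := exists_ext (K := K) (k := E) (algebraMap K E) (i : E →+* LaurentSeries K) hi
    (L := IntermediateField.adjoin E T) ⟨x l, hxl⟩ (by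
      show 0 < (i ⟨x l, hxl⟩).order
      rw [h2, HahnSeries.order_single one_ne_zero]
      exact one_pos)
  refine ⟨(IntermediateField.adjoin E T).toSubfield, f, IntermediateField.subset_adjoin E T,
    (IntermediateField.adjoin E T).algebraMap_mem ⟨x l, hxl⟩, hf⟩

/-- **Finitely generated fields.** -/
theorem enoughVal_fg (p : ℕ) [Fact p.Prime] (k : Type u) [Field k] [CharP k p] (S : Finset k)
    (hS : Subfield.closure (S : Set k) = ⊤) : EnoughVal p k := by
  classical
  intro a ha
  letI : Algebra (ZMod p) k := ZMod.algebra k p
  by_cases halg : IsAlgebraic (ZMod p) a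
  · exact zero_or_root a halg
  exfalso
  have ha0 : a ≠ 0 := by
    rintro rfl
    exact halg isAlgebraic_zero
  -- the inverse is transcendental
  have hb : Transcendental (ZMod p) a⁻¹ := fun h => halg (by
    have := h.inv
    rwa [inv_inv] at this)
  -- a transcendence basis
  have hind : AlgebraicIndepOn (ZMod p) id ({a⁻¹} : Set k) :=
    (algebraicIndependent_singleton_iff (⟨a⁻¹, rfl⟩ : ({a⁻¹} : Set k))).2 hb
  have hsub : ({a⁻¹} : Set k) ⊆ insert a⁻¹ (S : Set k) :=
    Set.singleton_subset_iff.2 (Set.mem_insert _ _)
  have hgen : Algebra.IsAlgebraic (Algebra.adjoin (ZMod p) (insert a⁻¹ (S : Set k))) k := by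
    refine ⟨fun y => ?_⟩
    have hy : y ∈ Subfield.closure (S : Set k) := by
      rw [hS]
      trivial
    induction hy using Subfield.closure_induction with
    | mem x hx =>
      exact isAlgebraic_algebraMap (⟨x, Algebra.subset_adjoin (Set.mem_insert_of_mem _ hx)⟩ :
        Algebra.adjoin (ZMod p) (insert a⁻¹ (S : Set k)))
    | one => exact isAlgebraic_one
    | add x y _ _ hx hy => exact hx.add hy
    | neg x _ hx => exact hx.neg
    | inv x _ hx => exact hx.inv
    | mul x y _ _ hx hy => exact hx.mul hy
  obtain ⟨u, hu1, hu2, hu⟩ := exists_isTranscendenceBasis_between ({a⁻¹} : Set k)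
    (insert a⁻¹ (S : Set k)) hsub hind
  have hufin : Finite u := (Set.Finite.subset ((S : Set k).toFinite.insert a⁻¹) hu2).to_subtype
  have hau : a⁻¹ ∈ u := hu1 rfl
  -- the embedding of the closure of the prime field
  let e : AlgebraicClosure (ZMod p) →ₐ[ZMod p] AlgebraicClosure k := IsAlgClosed.lift
  letI : Algebra (AlgebraicClosure (ZMod p)) (AlgebraicClosure k) := e.toRingHom.toAlgebra
  haveI : IsScalarTower (ZMod p) (AlgebraicClosure (ZMod p)) (AlgebraicClosure k) :=
    IsScalarTower.of_algebraMap_eq fun x => (e.commutes x).symm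
  have hcount : Countable (AlgebraicClosure (ZMod p)) := by
    rw [← Cardinal.mk_le_aleph0_iff]
    refine (Algebra.IsAlgebraic.cardinalMk_le_max (ZMod p) _).trans ?_
    exact max_le (Cardinal.mk_le_aleph0) le_rfl
  let x : u → AlgebraicClosure k := fun y => algebraMap k (AlgebraicClosure k) y
  have hx₀ : AlgebraicIndependent (ZMod p) x :=
    hu.1.map' (f := IsScalarTower.toAlgHom (ZMod p) k (AlgebraicClosure k))
      (algebraMap k (AlgebraicClosure k)).injective
  have hx : AlgebraicIndependent (AlgebraicClosure (ZMod p)) x :=
    hx₀.extendScalars (AlgebraicClosure (ZMod p))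
  -- the finite set of generators
  have hT : ∀ y ∈ (algebraMap k (AlgebraicClosure k)) '' (S : Set k), IsAlgebraic
      (IntermediateField.adjoin (AlgebraicClosure (ZMod p)) (Set.range x)) y := by
    rintro _ ⟨y, -, rfl⟩
    have h1 : IsAlgebraic (Algebra.adjoin (ZMod p) (Set.range ((↑) : u → k))) y :=
      hu.isAlgebraic.1 y
    have hmem : ∀ z ∈ Algebra.adjoin (ZMod p) (Set.range ((↑) : u → k)),
        algebraMap k (AlgebraicClosure k) z ∈
          IntermediateField.adjoin (AlgebraicClosure (ZMod p)) (Set.range x) := by
      intro z hz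
      induction hz using Algebra.adjoin_induction with
      | mem z hz =>
        obtain ⟨w, rfl⟩ := hz
        exact IntermediateField.subset_adjoin _ _ ⟨w, rfl⟩
      | algebraMap r =>
        rw [← IsScalarTower.algebraMap_apply (ZMod p) k (AlgebraicClosure k),
          IsScalarTower.algebraMap_apply (ZMod p) (AlgebraicClosure (ZMod p)) (AlgebraicClosure k)]
        exact IntermediateField.algebraMap_mem _ _
      | add z w _ _ hz hw => rw [map_add]; exact add_mem hz hw
      | mul z w _ _ hz hw => rw [map_mul]; exact mul_mem hz hw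
    let g : Algebra.adjoin (ZMod p) (Set.range ((↑) : u → k)) →+*
        IntermediateField.adjoin (AlgebraicClosure (ZMod p)) (Set.range x) :=
      ((algebraMap k (AlgebraicClosure k)).comp
        (Algebra.adjoin (ZMod p) (Set.range ((↑) : u → k))).val.toRingHom).codRestrict _
          fun z => hmem z z.2
    have hg : Function.Injective g := by
      intro z w hzw
      apply Subtype.ext
      exact (algebraMap k (AlgebraicClosure k)).injective (congrArg Subtype.val hzw)
    exact h1.ringHom_of_comp_eq g (algebraMap k (AlgebraicClosure k)) hg rfl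
  have hTfin : Finite ((algebraMap k (AlgebraicClosure k)) '' (S : Set k)) :=
    ((S : Set k).toFinite.image _).to_subtype
  obtain ⟨L, f, hTL, hL, hf⟩ := exists_hom_ext x hx ⟨a⁻¹, hau⟩ _ hT
  -- the restriction to `k`
  have hkL : ∀ y : k, algebraMap k (AlgebraicClosure k) y ∈ L := by
    have h1 : Subfield.closure (S : Set k) ≤ L.comap (algebraMap k (AlgebraicClosure k)) := by
      rw [Subfield.closure_le]
      intro y hy
      exact hTL ⟨y, hy, rfl⟩
    rw [hS] at h1
    exact fun y => h1 (Subfield.mem_top y)
  let j : k →+* LaurentSeries (AlgebraicClosure (ZMod p)) :=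
    f.comp ((algebraMap k (AlgebraicClosure k)).codRestrict L hkL)
  have h1 : 0 < (j a⁻¹).order := hf
  have h2 : 0 ≤ (j a).order := ha j
  have h3 : (j a * j a⁻¹).order = (j a).order + (j a⁻¹).order :=
    HahnSeries.order_mul ((map_ne_zero j).2 ha0) ((map_ne_zero j).2 (inv_ne_zero ha0))
  rw [← map_mul, mul_inv_cancel₀ ha0, map_one, HahnSeries.order_one] at h3
  omega

end Pool.Agent.H16.FU
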