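import Pool.Agent.H16.FU.Gen1
import Pool.Agent.H71.FQ.Tors

/-!
# Project FU: the functionals `dtr` vanish on the `K₁`-part

PROOFS. `exists_pow_unit`: `Frobenius: ∑ a_d d ↦ ∑ a_d ^ p d ^ p` is a ring automorphism of `K[D]` because `K` is
perfect and `d ↦ d ^ p` is bijective on `D`. `dtr_unit`: over `K` the class of the unit is `p ^ m` times the class of
a unit (`map_gasm1`, `K1_unit_pow`), and `p ^ m = 0` in `B m` (`(X.ld m).hB`; look up the exact exponent, adapt).
`vanOn_assembly1`: `mem_sat1`, `VanOn.of_smul`, closure induction (`M = 1` for the elements of `USet`).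
-/

set_option autoImplicit false

open Matrix

universe t u v w

namespace Pool.Agent.H16.FU

open Pool.Agent.H71.FQ
open Pool.Agent.H71.FJ (K0 Sat Sat_of_smul mem_Sat)
open Pool.Agent.H71.DO (K1_unit_pow K1_unit_inv K1_unit_one)
open Pool.Agent.H95.WH (K1 K1.mk K1.unit K1.map K1.map_mk K1.map_map FamSub conjHom FinSub)

/-- units of `K[D]` are `p ^ m`-th powers -/
theorem exists_pow_unit {K : Type u} [Field K] (p : ℕ) [Fact p.Prime] [CharP K p] [PerfectRing K p]
    {D : Type v} [Group D] [Finite D] [IsCyclic D] (hD : ¬ p ∣ Nat.card D) (m : ℕ)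
    (x : (MonoidAlgebra K D)ˣ) : ∃ y : (MonoidAlgebra K D)ˣ, y ^ p ^ m = x := by
  let _ : CommGroup D := IsCyclic.commGroup
  have hp : p.Prime := Fact.out
  have : CharP (MonoidAlgebra K D) p := charP_group_ring K p D
  have hco : (Nat.card D).Coprime (p ^ m) :=
    (Nat.Coprime.pow_left m ((Nat.Prime.coprime_iff_not_dvd hp).2 hD)).symm
  have key : ∀ z : MonoidAlgebra K D, ∃ y, y ^ p ^ m = z := by
    intro z
    induction z using MonoidAlgebra.induction_linear with
    | zero => exact ⟨0, zero_pow (pow_pos hp.pos m).ne'⟩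
    | add z w hz hw =>
      obtain ⟨y, rfl⟩ := hz
      obtain ⟨y', rfl⟩ := hw
      exact ⟨y + y', add_pow_char_pow _ _ _ _⟩
    | single d c =>
      obtain ⟨e, rfl⟩ := (powCoprime hco).surjective d
      obtain ⟨b, rfl⟩ := (iterateFrobeniusEquiv K p m).surjective c
      refine ⟨MonoidAlgebra.single e b, ?_⟩
      rw [MonoidAlgebra.single_pow]
      rfl
  obtain ⟨y, hy⟩ := key x
  have hu : IsUnit y := by
    have h1 : IsUnit (y ^ p ^ m) := by rw [hy]; exact x.isUnit
    exact (isUnit_pow_iff (pow_pos hp.pos m).ne').1 h1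
  obtain ⟨y', rfl⟩ := hu
  exact ⟨y', Units.ext (by rw [Units.val_pow_eq_pow_val, hy])⟩

section

variable {k : Type u} [Field k] {K : Type t} [Field K] [IsAlgClosed K] {G : Type v} [Group G]
  (X : Ctx k K G) {n : ℕ}

theorem dtr_unit (D : FamSub G FinSub) [IsCyclic D.1] (ho : ∀ h : D.1, (orderOf h : k) ≠ 0)
    (x : (MonoidAlgebra k D.1)ˣ) (z : HG (Subgroup.centralizer (D.1 : Set G)) n) (c : G)
    (hc : IsOfFinOrder c) {φ : (Fin (n + 1 + 2) → Subgroup.centralizer ({c} : Set G)) → X.L.Lam}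
    (hφ : IsCoc (Subgroup.centralizer ({c} : Set G)) (n + 1) φ) (m : ℕ) :
    X.dtr c hc hφ m (assembly1 k n G (sy1 D (K1.unit x) z)) = 0 := by
  have hfin : Finite D.1 := D.2
  have hft : Fintype D.1 := Fintype.ofFinite D.1
  have : Fact X.p.Prime := ⟨X.hp⟩
  have : CharP K X.p := (CharP.charP_iff_prime_eq_zero X.hp).2 (by
    have h := congrArg X.i X.hk
    rwa [map_natCast, map_zero] at h)
  have : PerfectRing K X.p := inferInstance
  have hD : ¬ X.p ∣ Nat.card D.1 := by
    rw [Nat.card_eq_fintype_card]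
    exact X.not_dvd D ho
  obtain ⟨y, hy⟩ := exists_pow_unit X.p hD (m + 1)
    (Units.map (MonoidAlgebra.mapRingHom D.1 X.i).toMonoidHom x)
  have h1 : K1.map (MonoidAlgebra.mapRingHom D.1 X.i) (K1.unit x) =
      X.p ^ (m + 1) • K1.unit y := by
    have h2 : K1.map (MonoidAlgebra.mapRingHom D.1 X.i) (K1.unit x) =
        K1.unit (Units.map (MonoidAlgebra.mapRingHom D.1 X.i).toMonoidHom x) := K1.map_unit _ _
    rw [h2, ← hy, K1_unit_pow]
  have h2 : KQ.map (MonoidAlgebra.mapRingHom G X.i) (assembly1 k n G (sy1 D (K1.unit x) z)) =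
      X.p ^ (m + 1) • gasm1 K n D.1.subtype (Subgroup.centralizer (D.1 : Set G)).subtype
        (cent_comm D.1) (K1.unit y) z := by
    rw [asm1_sy1, map_gasm1, h1, map_nsmul]
    rfl
  have h3 : X.dtr c hc hφ m (assembly1 k n G (sy1 D (K1.unit x) z)) =
      trT (X.ld m) (X.isPhi m c hc hφ) (KQ.map (MonoidAlgebra.mapRingHom G X.i)
        (assembly1 k n G (sy1 D (K1.unit x) z))) := rfl
  rw [h3, h2, map_nsmul]
  have h4 := (X.ld m).hB
  have h5 : ∀ b : (X.ld m).B, X.p ^ (m + 1) • b = 0 := by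
    intro b
    rw [nsmul_eq_mul, Nat.cast_pow, h4, zero_mul]
  exact h5 _

/-- **The functionals vanish on the `K₁`-part up to a uniform multiple.** -/
theorem vanOn_assembly1 (w : HnK1 k G n) : VanOn X (fun _ => True) (assembly1 k n G w) := by
  have : Fact X.p.Prime := ⟨X.hp⟩
  have : CharP k X.p := (CharP.charP_iff_prime_eq_zero X.hp).2 X.hk
  obtain ⟨m, hm, hw⟩ := mem_sat1 X.p w
  apply VanOn.of_smul hm
  rw [← map_zsmul]
  generalize m • w = v at hw
  induction hw using AddSubgroup.closure_induction with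
  | mem v hv =>
    obtain ⟨D, hD, ho, x, z, rfl⟩ := hv
    refine ⟨1, one_ne_zero, fun c _ hc φ hφ m => ?_⟩
    rw [dtr_unit X D ho x z c hc hφ m, mul_zero]
  | zero =>
    rw [map_zero]
    exact VanOn.zero
  | add a b _ _ ha hb =>
    rw [map_add]
    exact ha.add hb
  | neg a _ ha =>
    rw [map_neg]
    exact ha.neg

end

end Pool.Agent.H16.FU
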