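import Pool.Agent.H16.FU.Gen2
import Pool.Agent.H16.FU.Kill
import Pool.Agent.H16.FU.Val2
import Pool.Agent.H16.FU.EV
import Pool.Agent.H71.FQ.Main
import Pool.Agent.H71.DB.Elim

/-!
# Project FU: detection of the `K₁`-part by the embeddings into Laurent series

PROOFS. `exists_const`: if `a ^ m = 1` then `X ^ m - 1` splits over `K`, so `i a` is one of its roots `C c`.
`hsep_of_psep`: as in the proof of `FQ.main`. `vanOn_sum`: by `dtl_hn01` and additivity
`dtl (KQ.map i (assembly1 (∑ hn01 (u_l) (b_l)))) = (-1) ^ (n + 1) d(c) dtr (assemblyN (∑ ord(i u_l) b_l))`; multiply by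
`M`. Uniform multiple: if `c` is not conjugate to an element of some `D_l` then `dtr` vanishes (`dtr_sy`, `vl_zero`);
otherwise `d(c) = orderOf c * p ^ r` divides `(∏ |D_l|) * p ^ r`.
`torsion_closure`: `w = ∑_l hn01 (u_l) (b_l)`, `b_l = [D_l, y_l, z_l]` (`-[D, y, z] = [D, -y, z]`); `DB.elim'` for
`hn01B j`: let `μ : HnK0 F G n → ℚ`, `m μ(b_l) = a_l`, `U = ∏ u_l ^ (a_l)`. For every `i : k' → K((t))`,
`K = AlgebraicClosure (ZMod p)`, `∑ ord(i u_l) b_l` is torsion by `vanOn_sum`, `hsep_of_psep` and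
`torsion_of_vanOn` for the context `ctxC` of `exists_const`; so `0 = m μ(∑ ord(i u_l) b_l) = ∑ a_l ord(i u_l) =
ord(i U)`. By `EnoughVal`, `U` is a root of unity.
-/

set_option autoImplicit false

open Matrix

universe t u v w

namespace Pool.Agent.H16.FU

open Pool.Agent.H71.FQ
open Pool.Agent.H71.FJ (K0 K0.mk Sat Sat_of_smul mem_Sat)
open Pool.Agent.H71.DB (BLift bLiftP)
open Pool.Agent.H95.WH (K1 K1.mk K1.unit K1.map K1.map_mk K1.map_map FamSub conjHom FinSub)

/-- the images of roots of unity are constants -/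
theorem exists_const {F : Type u} [Field F] (hF : ∀ a : F, a = 0 ∨ ∃ m : ℕ, 0 < m ∧ a ^ m = 1)
    {K : Type t} [Field K] [IsAlgClosed K] (i : F →+* LaurentSeries K) :
    ∃ j' : F →+* K, i = (HahnSeries.C : K →+* LaurentSeries K).comp j' := by
  have h1 : ∀ a : F, i a ∈ (HahnSeries.C : K →+* LaurentSeries K).range := by
    intro a
    rcases hF a with h | ⟨m, hm, h⟩
    · exact ⟨0, by rw [h, map_zero, map_zero]⟩
    · have h2 : (Polynomial.X ^ m - 1 : Polynomial K).Splits := IsAlgClosed.splits _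
      have h3 : Polynomial.eval₂ (HahnSeries.C : K →+* LaurentSeries K) (i a)
          (Polynomial.X ^ m - 1 : Polynomial K) = 0 := by
        rw [Polynomial.eval₂_sub, Polynomial.eval₂_pow, Polynomial.eval₂_X, Polynomial.eval₂_one,
          ← map_pow, h, map_one, sub_self]
      have h4 : (Polynomial.X ^ m - 1 : Polynomial K) ≠ 0 := by
        have := Polynomial.monic_X_pow_sub_C (1 : K) hm.ne'
        rw [Polynomial.C_1] at this
        exact this.ne_zero
      rw [h2.eq_prod_roots, Polynomial.eval₂_mul, Polynomial.eval₂_C] at h3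
      have h5 : (HahnSeries.C : K →+* LaurentSeries K)
          (Polynomial.X ^ m - 1 : Polynomial K).leadingCoeff ≠ 0 :=
        (map_ne_zero _).2 (Polynomial.leadingCoeff_ne_zero.2 h4)
      have h6 := (mul_eq_zero.1 h3).resolve_left h5
      rw [← Polynomial.coe_eval₂RingHom, map_multiset_prod, Multiset.map_map,
        Multiset.prod_eq_zero_iff, Multiset.mem_map] at h6
      obtain ⟨c, -, hc⟩ := h6
      rw [Function.comp_apply, Polynomial.coe_eval₂RingHom, Polynomial.eval₂_sub,
        Polynomial.eval₂_X, Polynomial.eval₂_C, sub_eq_zero] at hc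
      exact ⟨c, hc.symm⟩
  have hinj : Function.Injective (HahnSeries.C : K →+* LaurentSeries K) := RingHom.injective _
  have hsurj : Function.Bijective (HahnSeries.C : K →+* LaurentSeries K).rangeRestrict :=
    ⟨fun a b hab => hinj (congrArg Subtype.val hab), RingHom.rangeRestrict_surjective _⟩
  refine ⟨((RingEquiv.ofBijective _ hsurj).symm :
    (HahnSeries.C : K →+* LaurentSeries K).range →+* K).comp (i.codRestrict _ h1), ?_⟩
  apply RingHom.ext
  intro a
  have h2 := (RingEquiv.ofBijective _ hsurj).apply_symm_apply (i.codRestrict _ h1 a)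
  exact (congrArg Subtype.val h2).symm

section

variable (p : ℕ) [Fact p.Prime] {F : Type u} [Field F] [CharP F p] {K : Type t} [Field K]
  [CharP K p] [PerfectRing K p] {G : Type v} [Group G] (r : ℕ)
  (hG : ∀ g : G, (∃ j : ℕ, g ^ p ^ j = 1) → g ^ p ^ r = 1)

/-- the context of a homomorphism of fields -/
noncomputable def ctxC (i : F →+* K) : Ctx F K G where
  L := bLiftP p K
  i := i
  p := p
  hp := Fact.out
  hk := CharP.cast_eq_zero F p
  hq := rfl
  r := r
  hG := hG

theorem hsep_of_psep (i : F →+* K) {n : ℕ}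
    (hsep : ∀ C : Subgroup G, Finite C → IsCyclic C → ¬ p ∣ Nat.card C →
      PSep p (Subgroup.centralizer (C : Set G)) n) (D : FamSub G FinSub) (hD : IsCyclic D.1)
    (ho : ∀ h : D.1, (orderOf h : F) ≠ 0) (b : HG (Subgroup.centralizer (D.1 : Set G)) n)
    (hb : ∀ (φ : (Fin (n + 2) → Subgroup.centralizer (D.1 : Set G)) → (ctxC p r hG i).L.Lam)
      (hφ : IsCoc (Subgroup.centralizer (D.1 : Set G)) n φ), HG.ev hφ b = 0) :
    ∃ m : ℤ, m ≠ 0 ∧ m • b = 0 := by
  have hfin : Finite D.1 := D.2
  have hcard : ¬ p ∣ Nat.card D.1 := by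
    intro hdvd
    obtain ⟨g, hg⟩ := IsCyclic.exists_generator (α := D.1)
    have h1 : orderOf g = Nat.card D.1 := orderOf_eq_card_of_forall_mem_zpowers hg
    apply ho g
    rw [h1]
    exact (CharP.cast_eq_zero_iff F p _).2 hdvd
  obtain ⟨ψ, hψ⟩ := Pool.Agent.H71.DB.padic_to_witt p K
  refine hsep D.1 hfin hD hcard b fun f => ?_
  obtain ⟨φ, hφ, hf⟩ := exists_cocycle p f
  have hφ' : IsCoc (Subgroup.centralizer (D.1 : Set G)) n fun x => ψ (φ x) :=
    ⟨fun g x => by rw [hφ.inv], fun x => by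
      have h1 := congrArg ψ (hφ.coc x)
      rw [map_zero, map_sum] at h1
      rw [← h1]
      exact Finset.sum_congr rfl fun i _ => (map_zsmul ψ _ _).symm⟩
  have h2 : HG.ev hφ' b = 0 := hb _ hφ'
  have h3 : HG.ev hφ' b = ψ (HG.ev hφ b) := HG.ev_comp hφ ψ.toAddMonoidHom hφ' b
  rw [hf] at h3
  exact hψ (by rw [map_zero, ← h3]; exact h2)

end

section

variable {F : Type u} [Field F] {K : Type t} [Field K] {G : Type v} [Group G] (X : Ctx F K G)
  {n : ℕ}

theorem dtr_sy_zero (D : FamSub G FinSub) [IsCyclic D.1]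
    (ho : ∀ h : D.1, (orderOf h : F) ≠ 0) (y : K0 (MonoidAlgebra F D.1))
    (z : HG (Subgroup.centralizer (D.1 : Set G)) n) (c : G) (hc : IsOfFinOrder c)
    {φ : (Fin (n + 2) → Subgroup.centralizer ({c} : Set G)) → X.L.Lam}
    (hφ : IsCoc (Subgroup.centralizer ({c} : Set G)) n φ) (m : ℕ)
    (h : ∀ a : D.1, ¬ IsConj c (a : G)) : X.dtr c hc hφ m (assemblyN F n G (sy D y z)) = 0 := by
  have : Finite D.1 := D.2
  have : Fintype D.1 := Fintype.ofFinite D.1
  rw [dtr_sy X D ho z c hc hφ m y, Finset.sum_eq_zero, mul_zero]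
  intro a _
  rw [vl_zero hφ D.1 a (h a), map_zero, zero_mul]

theorem vanOn_sum {k' : Type w} [Field k'] (i : k' →+* LaurentSeries K) (j : F →+* k')
    (hij : i.comp j = (HahnSeries.C : K →+* LaurentSeries K).comp X.i) {N : ℕ}
    (D : Fin N → FamSub G FinSub) (hD : ∀ l, IsCyclic (D l).1)
    (ho : ∀ l, ∀ h : (D l).1, (orderOf h : F) ≠ 0) (u : Fin N → k'ˣ)
    (y : ∀ l, K0 (MonoidAlgebra F (D l).1))
    (z : ∀ l, HG (Subgroup.centralizer ((D l).1 : Set G)) n) (M : ℤ) (hM : M ≠ 0)
    (h : M • assembly1 k' n G (∑ l, hn01 j (u l) (sy (D l) (y l) (z l))) = 0) :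
    VanOn X (fun _ => True)
      (assemblyN F n G (∑ l, (i (u l : k')).order • sy (D l) (y l) (z l))) := by
  have hfin : ∀ l, Finite (D l).1 := fun l => (D l).2
  have hfin' : ∀ l, Nat.card (D l).1 ≠ 0 := fun l => Nat.card_pos.ne'
  obtain ⟨P, hP⟩ : ∃ P : ℕ, P = (∏ l, Nat.card (D l).1) * X.p ^ X.r := ⟨_, rfl⟩
  have hP0 : (P : ℤ) ≠ 0 := by
    rw [hP]
    exact_mod_cast mul_ne_zero (Finset.prod_ne_zero_iff.2 fun l _ => hfin' l)
      (pow_ne_zero _ X.hp.ne_zero)
  refine ⟨M * P, mul_ne_zero hM hP0, fun c _ hc φ hφ m => ?_⟩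
  -- the sum
  have hs : X.dtr c hc hφ m (assemblyN F n G (∑ l, (i (u l : k')).order • sy (D l) (y l) (z l))) =
      ∑ l, ((i (u l : k')).order : X.L.sys.B m) *
        X.dtr c hc hφ m (assemblyN F n G (sy (D l) (y l) (z l))) := by
    rw [map_sum, map_sum]
    refine Finset.sum_congr rfl fun l _ => ?_
    rw [map_zsmul, map_zsmul, zsmul_eq_mul]
  by_cases hcon : ∃ l, ∃ a : (D l).1, IsConj c (a : G)
  · obtain ⟨l, a, ha⟩ := hcon
    -- the divisibility
    have hd : X.d c ∣ (P : ℤ) := by
      rw [hP, Ctx.d]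
      have h1 : orderOf c ∣ Nat.card (D l).1 := by
        obtain ⟨g, hg⟩ := isConj_iff.1 ha
        have h2 : orderOf (a : G) = orderOf c := by
          rw [← hg]
          exact orderOf_injective (MulAut.conj g).toMonoidHom (MulAut.conj g).injective c
        rw [← h2, Subgroup.orderOf_coe]
        exact orderOf_dvd_natCard a
      have h3 : Nat.card (D l).1 ∣ ∏ l, Nat.card (D l).1 :=
        Finset.dvd_prod_of_mem _ (Finset.mem_univ l)
      exact_mod_cast Nat.mul_dvd_mul (h1.trans h3) (dvd_refl _)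
    obtain ⟨e, he⟩ := hd
    have h1 : dtl X c hc hφ m (KQ.map (MonoidAlgebra.mapRingHom G i)
        (assembly1 k' n G (∑ l, hn01 j (u l) (sy (D l) (y l) (z l))))) =
        (((-1) ^ (n + 1) * X.d c : ℤ) : X.L.sys.B m) *
          X.dtr c hc hφ m (assemblyN F n G
            (∑ l, (i (u l : k')).order • sy (D l) (y l) (z l))) := by
      rw [hs, Finset.mul_sum, map_sum, map_sum, map_sum]
      refine Finset.sum_congr rfl fun l _ => ?_
      have := Fintype.ofFinite (D l).1
      have := hD l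
      rw [dtl_hn01 X i j hij (D l) (ho l) (u l) (y l) (z l) c hc hφ m]
      push_cast
      ring
    have h2 : (M : X.L.sys.B m) * ((((-1) ^ (n + 1) * X.d c : ℤ) : X.L.sys.B m) *
          X.dtr c hc hφ m (assemblyN F n G
            (∑ l, (i (u l : k')).order • sy (D l) (y l) (z l)))) = 0 := by
      rw [← h1, ← zsmul_eq_mul, ← map_zsmul, ← map_zsmul, h, map_zero, map_zero]
    have h3 : ((-1 : X.L.sys.B m) ^ (n + 1)) * ((-1 : X.L.sys.B m) ^ (n + 1)) = 1 := by
      rw [← mul_pow, neg_mul_neg, one_mul, one_pow]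
    rw [he]
    push_cast at h2 ⊢
    set T := X.dtr c hc hφ m (assemblyN F n G
      (∑ l, (i (u l : k')).order • sy (D l) (y l) (z l)))
    calc (M : X.L.sys.B m) * ((X.d c : X.L.sys.B m) * (e : X.L.sys.B m)) * T
        = (((-1 : X.L.sys.B m) ^ (n + 1)) * ((-1 : X.L.sys.B m) ^ (n + 1))) * (e : X.L.sys.B m) *
            ((M : X.L.sys.B m) * ((X.d c : X.L.sys.B m) * T)) := by
          rw [h3]
          ring
      _ = ((-1 : X.L.sys.B m) ^ (n + 1)) * (e : X.L.sys.B m) *
            ((M : X.L.sys.B m) * (((-1 : X.L.sys.B m) ^ (n + 1) * (X.d c : X.L.sys.B m)) * T)) := by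
          ring
      _ = 0 := by rw [h2, mul_zero]
  · push Not at hcon
    rw [hs, Finset.sum_eq_zero, mul_zero]
    intro l _
    have := hD l
    rw [dtr_sy_zero X (D l) (ho l) (y l) (z l) c hc hφ m (hcon l), mul_zero]

end

section

/-- the data of an element of `VSet` -/
private structure VD {F : Type t} [CommRing F] {k : Type u} [CommRing k] (j : F →+* k)
    (G : Type v) [Group G] (n : ℕ) where
  D : FamSub G FinSub
  hD : IsCyclic D.1
  ho : ∀ h : D.1, (orderOf h : F) ≠ 0
  u : kˣ
  y : K0 (MonoidAlgebra F D.1)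
  z : HG (Subgroup.centralizer (D.1 : Set G)) n

/-- its value -/
private noncomputable def VD.val {F : Type t} [CommRing F] {k : Type u} [CommRing k]
    {j : F →+* k} {G : Type v} [Group G] {n : ℕ} (d : VD j G n) : HnK1 k G n :=
  hn01 j d.u (sy d.D d.y d.z)

private theorem exists_vd_list {F : Type t} [CommRing F] {k : Type u} [CommRing k]
    {j : F →+* k} {G : Type v} [Group G] {n : ℕ} (w : HnK1 k G n)
    (hw : w ∈ AddSubgroup.closure (VSet j G n)) :
    ∃ l : List (VD j G n), w = (l.map VD.val).sum := by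
  induction hw using AddSubgroup.closure_induction with
  | mem w hw =>
    obtain ⟨D, hD, ho, u, y, z, rfl⟩ := hw
    refine ⟨[⟨D, hD, ho, u, y, z⟩], ?_⟩
    rw [List.map_singleton, List.sum_singleton]
    rfl
  | zero => exact ⟨[], rfl⟩
  | add a b _ _ ha hb =>
    obtain ⟨l, rfl⟩ := ha
    obtain ⟨l', rfl⟩ := hb
    exact ⟨l ++ l', by rw [List.map_append, List.sum_append]⟩
  | neg a hx ha =>
    obtain ⟨l, rfl⟩ := ha
    refine ⟨l.map fun d => ⟨d.D, d.hD, d.ho, d.u⁻¹, d.y, d.z⟩, ?_⟩
    clear hx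
    induction l with
    | nil =>
      change -(0 : HnK1 k G n) = 0
      exact neg_zero
    | cons d l ih =>
      have h1 : hn01 j d.u⁻¹ (sy d.D d.y d.z) = -hn01 j d.u (sy d.D d.y d.z) :=
        DFunLike.congr_fun (map_neg (hn01B (n := n) (G := G) j) (Additive.ofMul d.u))
          (sy d.D d.y d.z)
      rw [List.map_cons, List.sum_cons, List.map_cons, List.map_cons, List.sum_cons, neg_add, ih]
      exact congrArg (· + _) h1.symm

/-- the order of the images of units -/
private noncomputable def ordH {k' : Type w} [Field k'] {K : Type t} [Field K]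
    (i : k' →+* LaurentSeries K) : Additive k'ˣ →+ ℤ :=
  AddMonoidHom.mk' (fun u => (i (u.toMul : k')).order) (by
    intro u v
    have hi : ∀ u : k'ˣ, i (u : k') ≠ 0 := fun u => (map_ne_zero i).2 u.ne_zero
    change (i ((u.toMul * v.toMul : k'ˣ) : k')).order = _
    rw [Units.val_mul, map_mul, HahnSeries.order_mul (hi _) (hi _)])

end

/-- **Detection of the `K₁`-part.** -/
theorem torsion_closure (p : ℕ) [Fact p.Prime] {F : Type u} [Field F] [CharP F p]
    (hF : ∀ a : F, a = 0 ∨ ∃ m : ℕ, 0 < m ∧ a ^ m = 1) {k' : Type w} [Field k'] (j : F →+* k')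
    (hk : EnoughVal p k') {G : Type v} [Group G] (r : ℕ)
    (hG : ∀ g : G, (∃ j : ℕ, g ^ p ^ j = 1) → g ^ p ^ r = 1) {n : ℕ}
    (hsep : ∀ C : Subgroup G, Finite C → IsCyclic C → ¬ p ∣ Nat.card C →
      PSep p (Subgroup.centralizer (C : Set G)) n)
    (w : HnK1 k' G n) (hw : w ∈ AddSubgroup.closure (VSet j G n)) (M : ℤ) (hM : M ≠ 0)
    (h : M • assembly1 k' n G w = 0) : ∃ m : ℤ, m ≠ 0 ∧ m • w = 0 := by
  obtain ⟨L, hL⟩ := exists_vd_list w hw
  have hw1 : w = ∑ l : Fin L.length, hn01 j (L.get l).u (sy (L.get l).D (L.get l).y (L.get l).z) := by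
    rw [hL, ← List.sum_ofFn]
    congr 1
    apply List.ext_get
    · rw [List.length_map, List.length_ofFn]
    · intro a h1 h2
      rw [List.get_eq_getElem, List.get_eq_getElem, List.getElem_map, List.getElem_ofFn]
      rfl
  clear hL
  have key := Pool.Agent.H71.DB.elim' (hn01B (n := n) (G := G) j)
    (fun l : Fin L.length => Additive.ofMul (L.get l).u)
    (fun l : Fin L.length => sy (L.get l).D (L.get l).y (L.get l).z) (by
      intro μ m a hm ha
      have h1 : ∀ i : k' →+* LaurentSeries (AlgebraicClosure (ZMod p)),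
          ordH i (∑ l, a l • Additive.ofMul (L.get l).u) = 0 := by
        intro i
        obtain ⟨j', hj'⟩ := exists_const hF (i.comp j)
        have : CharP (AlgebraicClosure (ZMod p)) p :=
          charP_of_injective_algebraMap (algebraMap (ZMod p) (AlgebraicClosure (ZMod p))).injective p
        have : PerfectRing (AlgebraicClosure (ZMod p)) p := PerfectField.toPerfectRing p
        have hv := vanOn_sum (ctxC p r hG j') (n := n) i j hj' (fun l : Fin L.length => (L.get l).D)
          (fun l => (L.get l).hD) (fun l => (L.get l).ho) (fun l => (L.get l).u)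
          (fun l => (L.get l).y) (fun l => (L.get l).z) M hM (by rw [← hw1, h])
        obtain ⟨m', hm', h2⟩ := torsion_of_vanOn (ctxC p r hG j')
          (hsep_of_psep p r hG j' hsep) _ hv
        have h3 := congrArg μ h2
        rw [map_zsmul, map_zero, zsmul_eq_mul] at h3
        have h4 : μ (∑ l : Fin L.length, (i ((L.get l).u : k')).order •
            sy (L.get l).D (L.get l).y (L.get l).z) = 0 := by
          rcases mul_eq_zero.1 h3 with h5 | h5
          · exact absurd (by exact_mod_cast h5) hm'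
          · exact h5
        have h5 : ((ordH i (∑ l, a l • Additive.ofMul (L.get l).u) : ℤ) : ℚ) = 0 := by
          rw [map_sum, Int.cast_sum]
          have h6 : ∑ l : Fin L.length, ((ordH i (a l • Additive.ofMul (L.get l).u) : ℤ) : ℚ) =
              (m : ℚ) * μ (∑ l : Fin L.length, (i ((L.get l).u : k')).order •
                sy (L.get l).D (L.get l).y (L.get l).z) := by
            rw [map_sum, Finset.mul_sum]
            refine Finset.sum_congr rfl fun l _ => ?_
            rw [map_zsmul, map_zsmul, smul_eq_mul, Int.cast_mul, ← ha l, zsmul_eq_mul]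
            change _ * (((i ((L.get l).u : k')).order : ℤ) : ℚ) = _
            ring
          rw [h6, h4, mul_zero]
        exact_mod_cast h5
      obtain h2 | ⟨m', hm', h2⟩ := hk (((∑ l, a l • Additive.ofMul (L.get l).u).toMul : k'ˣ) : k')
        (fun i => (h1 i).ge)
      · exact absurd h2 (Units.ne_zero _)
      · refine ⟨m', by exact_mod_cast hm'.ne', ?_⟩
        rw [natCast_zsmul]
        apply Additive.toMul.injective
        apply Units.ext
        rw [toMul_nsmul, Units.val_pow_eq_pow_val, h2]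
        rfl)
  obtain ⟨m, hm, h1⟩ := key
  refine ⟨m, hm, ?_⟩
  rw [hw1]
  exact h1

end Pool.Agent.H16.FU
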