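import Pool.Agent.H16.FU.Coef
import Pool.Agent.H71.DO.Semi

/-!
# Project FU: generation of the `K₁`-part by units of group rings of cyclic groups

Every element of `HnK1 k G n`, `k` a field of characteristic `p`, has a nonzero multiple which is a combination of symbols
`[D, [x], z]` with `D` finite cyclic of order prime to `p` and `x` a unit of `k[D]`.

PROOF. For a symbol `[F, x, z]`: `hArt_field` (all `x ∈ K₁(k[F])` up to a multiple induced from cyclic subgroups `D`),
`hUnit_field` (`m y = [u]` for `y ∈ K₁(k[D])`), `sy1_conj` with `g = 1` for the image of `D ≤ F` in `G` (as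
`syh_map`, `mem_sat` in FQ/Sy.lean: `sy1h` below). Finally for `D` cyclic let `σ : k[D] → k[D'] → k[D]` for
the part `D'` of order prime to `p` (`D = P × D'`); `u σ(u)⁻¹` is `1 +` an element of the kernel of
`k[D] → k[D']`, which is nilpotent (`x ^ (p ^ a) = 0` for `x` in the kernel, `|P| = p ^ a`: the ring is commutative of
characteristic `p` and `g ^ (p ^ a) = 1` for `g ∈ P`); so `p ^ a [u] = p ^ a [σ(u)]` in `K₁(k[D])`.
-/

set_option autoImplicit false

open Matrix

universe t u v w

namespace Pool.Agent.H16.FU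

open Pool.Agent.H71.FQ
open Pool.Agent.H71.FJ (K0 Sat Sat_of_smul mem_Sat)
open Pool.Agent.H71.DO (HArt HUnit hArt_field hUnit_field K1_unit_pow K1_unit_inv K1_unit_one ind)
open Pool.Agent.H95.WH (K1 K1.mk K1.unit K1.map K1.map_mk K1.map_map FamSub conjHom FinSub)

section

variable {k : Type u} [CommRing k] {G : Type v} [Group G] {n : ℕ}

/-- The symbols with units of group rings of finite cyclic subgroups of order invertible in `k`. -/
def USet (k : Type u) [CommRing k] (G : Type v) [Group G] (n : ℕ) : Set (HnK1 k G n) :=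
  {w | ∃ (D : FamSub G FinSub) (_ : IsCyclic D.1), (∀ h : D.1, (orderOf h : k) ≠ 0) ∧
    ∃ (x : (MonoidAlgebra k D.1)ˣ) (z : HG (Subgroup.centralizer (D.1 : Set G)) n),
      w = sy1 D (K1.unit x) z}

/-- The symbol for a homomorphism from a finite group. -/
noncomputable def sy1h {H : Type v} [Group H] [Finite H] {Γ : Type v} [Group Γ] (f : H →* G)
    (κ : Γ →* G) (h : ∀ γ a, f a * κ γ = κ γ * f a)
    (x : K1 (MonoidAlgebra k H)) (z : HG Γ n) : HnK1 k G n :=
  sy1 (rangeSub f) (K1.map (MonoidAlgebra.mapDomainRingHom k (toRange f)) x)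
    (HG.map n (toCent f κ h) z)

theorem sy1h_map {H H' : Type v} [Group H] [Finite H] [Group H'] [Finite H'] {Γ : Type v}
    [Group Γ] (f : H →* G) (f' : H' →* G) (φ : H →* H') (g : G)
    (h : ∀ a, f' (φ a) = g * f a * g⁻¹) (κ κ' : Γ →* G) (hκ : ∀ γ a, f a * κ γ = κ γ * f a)
    (hκ' : ∀ γ a, f' a * κ' γ = κ' γ * f' a) (hh : ∀ γ, κ γ = g⁻¹ * κ' γ * g)
    (x : K1 (MonoidAlgebra k H)) (z : HG Γ n) :
    sy1h f' κ' hκ' (K1.map (MonoidAlgebra.mapDomainRingHom k φ) x) z = sy1h f κ hκ x z := by
  have hr : ∀ y ∈ (rangeSub f).1, g * y * g⁻¹ ∈ (rangeSub f').1 := by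
    rintro y ⟨a, rfl⟩
    exact ⟨φ a, h a⟩
  have h1 := sy1_conj (rangeSub f) (rangeSub f') g hr
    (K1.map (MonoidAlgebra.mapDomainRingHom k (toRange f)) x) (HG.map n (toCent f' κ' hκ') z)
  have h4 : (centConj g (rangeSub f).1 (rangeSub f').1 hr).comp (toCent f' κ' hκ') =
      toCent f κ hκ := by
    apply MonoidHom.ext
    intro γ
    exact Subtype.ext (hh γ).symm
  rw [HG.map_map, h4] at h1
  refine Eq.trans ?_ h1
  have h2 : (toRange f').comp φ =
      (conjHom g (rangeSub f).1 (rangeSub f').1 hr).comp (toRange f) := by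
    apply MonoidHom.ext
    intro a
    exact Subtype.ext (h a)
  have h3 : K1.map (MonoidAlgebra.mapDomainRingHom k (toRange f'))
      (K1.map (MonoidAlgebra.mapDomainRingHom k φ) x) =
      K1.map (MonoidAlgebra.mapDomainRingHom k (conjHom g (rangeSub f).1 (rangeSub f').1 hr))
        (K1.map (MonoidAlgebra.mapDomainRingHom k (toRange f)) x) := by
    rw [K1.map_map, K1.map_map, ← MonoidAlgebra.mapDomainRingHom_comp, h2,
      ← MonoidAlgebra.mapDomainRingHom_comp]
  exact congrArg (fun y => sy1 (rangeSub f') y (HG.map n (toCent f' κ' hκ') z)) h3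

/-- `sy1h` as a homomorphism in the `K₁`-variable -/
noncomputable def sy1hH {H : Type v} [Group H] [Finite H] {Γ : Type v} [Group Γ] (f : H →* G)
    (κ : Γ →* G) (h : ∀ γ a, f a * κ γ = κ γ * f a) (z : HG Γ n) :
    K1 (MonoidAlgebra k H) →+ HnK1 k G n :=
  ((syB1 (rangeSub f)).flip (HG.map n (toCent f κ h) z)).comp
    (K1.map (MonoidAlgebra.mapDomainRingHom k (toRange f)))

theorem sy1hH_apply {H : Type v} [Group H] [Finite H] {Γ : Type v} [Group Γ] (f : H →* G)
    (κ : Γ →* G) (h : ∀ γ a, f a * κ γ = κ γ * f a) (x : K1 (MonoidAlgebra k H)) (z : HG Γ n) :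
    sy1hH f κ h z x = sy1h f κ h x z := rfl


theorem sy1h_subtype (F : FamSub G FinSub) [Finite F.1] (x : K1 (MonoidAlgebra k F.1))
    (z : HG (Subgroup.centralizer (F.1 : Set G)) n) :
    sy1h F.1.subtype (Subgroup.centralizer (F.1 : Set G)).subtype (cent_comm F.1) x z =
      sy1 F x z := by
  have hr : ∀ y ∈ F.1, (1 : G) * y * 1⁻¹ ∈ (rangeSub F.1.subtype).1 := by
    intro y hy
    refine ⟨⟨y, hy⟩, ?_⟩
    rw [one_mul, inv_one, mul_one]
    rfl
  have h2 : toRange F.1.subtype = conjHom 1 F.1 (rangeSub F.1.subtype).1 hr := by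
    apply MonoidHom.ext
    intro a
    apply Subtype.ext
    change (a : G) = 1 * (a : G) * 1⁻¹
    rw [one_mul, inv_one, mul_one]
  have h3 := sy1_conj (k := k) F (rangeSub F.1.subtype) 1 hr x
    (HG.map n (toCent F.1.subtype (Subgroup.centralizer (F.1 : Set G)).subtype
      (cent_comm F.1)) z)
  rw [← h2, HG.map_map] at h3
  have h4 : (centConj 1 F.1 (rangeSub F.1.subtype).1 hr).comp
      (toCent F.1.subtype (Subgroup.centralizer (F.1 : Set G)).subtype (cent_comm F.1)) =
      MonoidHom.id _ := by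
    apply MonoidHom.ext
    intro γ
    apply Subtype.ext
    change (1 : G)⁻¹ * (γ : G) * 1 = γ
    rw [inv_one, one_mul, mul_one]
  rw [h4, HG.map_id] at h3
  exact h3

end

section

theorem charP_group_ring (k : Type u) [Field k] (p : ℕ) [CharP k p] (D : Type v) [Group D] :
    CharP (MonoidAlgebra k D) p :=
  charP_of_injective_algebraMap (algebraMap k (MonoidAlgebra k D)).injective p

/-- `x ^ (p ^ a)` in the group ring of a commutative group of characteristic `p` -/
theorem pow_char_mapDomain {k : Type u} [Field k] (p : ℕ) [Fact p.Prime] [CharP k p] {D : Type v}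
    [CommGroup D] (a : ℕ) (f : D →* D) (hf : ∀ d, f d ^ p ^ a = d ^ p ^ a) (x : MonoidAlgebra k D) :
    (MonoidAlgebra.mapDomainRingHom k f x) ^ p ^ a = x ^ p ^ a := by
  have : CharP (MonoidAlgebra k D) p := charP_group_ring k p D
  induction x using MonoidAlgebra.induction_linear with
  | zero => rw [map_zero]
  | add x y hx hy => rw [map_add, add_pow_char_pow, add_pow_char_pow, hx, hy]
  | single d c =>
    rw [MonoidAlgebra.mapDomainRingHom_apply, MonoidAlgebra.mapDomain_single, MonoidAlgebra.single_pow,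
      MonoidAlgebra.single_pow, hf]

/-- the `p`-part of a cyclic group does not matter up to torsion -/
theorem exists_prime_part {k : Type u} [Field k] (p : ℕ) [Fact p.Prime] [CharP k p] {D : Type v}
    [Group D] [Finite D] [IsCyclic D] (u : (MonoidAlgebra k D)ˣ) :
    ∃ (E : Subgroup D) (x : (MonoidAlgebra k E)ˣ) (a : ℕ), (∀ h : E, (orderOf h : k) ≠ 0) ∧
      p ^ a • K1.unit u =
        p ^ a • K1.map (MonoidAlgebra.mapDomainRingHom k E.subtype) (K1.unit x) := by
  let _ : CommGroup D := IsCyclic.commGroup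
  have hp : p.Prime := Fact.out
  obtain ⟨a, N, hN, hcard⟩ := Nat.exists_eq_pow_mul_and_not_dvd (Nat.card_pos (α := D)).ne' p hp.ne_one
  have hco : Nat.Coprime (p ^ a) N := Nat.Coprime.pow_left a ((Nat.Prime.coprime_iff_not_dvd hp).2 hN)
  obtain ⟨e, he1, he2⟩ := Nat.chineseRemainder hco 0 1
  let f : D →* D := powMonoidHom e
  have hf : ∀ d, f d ^ p ^ a = d ^ p ^ a := by
    intro d
    show (d ^ e) ^ p ^ a = d ^ p ^ a
    rw [← pow_mul]
    have h1 : e * p ^ a ≡ p ^ a [MOD Nat.card D] := by
      rw [hcard]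
      have h2 := he2.mul_right' (p ^ a)
      rw [one_mul] at h2
      rw [mul_comm N] at h2
      exact h2
    have h3 : orderOf d ∣ Nat.card D := orderOf_dvd_natCard d
    exact pow_eq_pow_iff_modEq.2 (h1.of_dvd h3)
  refine ⟨f.range, Units.map (MonoidAlgebra.mapDomainRingHom k f.rangeRestrict).toMonoidHom u, a, ?_, ?_⟩
  · intro h h0
    obtain ⟨d, hd⟩ := h.2
    rw [← Subgroup.orderOf_coe, ← hd] at h0
    have h1 : orderOf (f d) ∣ N := by
      apply orderOf_dvd_of_pow_eq_one
      show (d ^ e) ^ N = 1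
      rw [← pow_mul]
      have h2 : Nat.card D ∣ e * N := by
        rw [hcard]
        exact Nat.mul_dvd_mul_right ((Nat.modEq_zero_iff_dvd).1 he1) N
      obtain ⟨c, hc⟩ := h2
      rw [hc, pow_mul, pow_card_eq_one', one_pow]
    exact hN (((CharP.cast_eq_zero_iff k p _).1 h0).trans h1)
  · have hmu := K1.map_unit (MonoidAlgebra.mapDomainRingHom k f.range.subtype)
      (Units.map (MonoidAlgebra.mapDomainRingHom k f.rangeRestrict).toMonoidHom u)
    rw [hmu, ← K1_unit_pow, ← K1_unit_pow]
    congr 1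
    apply Units.ext
    rw [Units.val_pow_eq_pow_val, Units.val_pow_eq_pow_val]
    have h4 : ((Units.map (MonoidAlgebra.mapDomainRingHom k f.range.subtype).toMonoidHom
        (Units.map (MonoidAlgebra.mapDomainRingHom k f.rangeRestrict).toMonoidHom u) : (MonoidAlgebra k D)ˣ) :
          MonoidAlgebra k D) = MonoidAlgebra.mapDomainRingHom k f (u : MonoidAlgebra k D) := by
      show MonoidAlgebra.mapDomainRingHom k f.range.subtype
        (MonoidAlgebra.mapDomainRingHom k f.rangeRestrict (u : MonoidAlgebra k D)) = _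
      have h5 : ∀ z : MonoidAlgebra k D, MonoidAlgebra.mapDomainRingHom k f.range.subtype
          (MonoidAlgebra.mapDomainRingHom k f.rangeRestrict z) = MonoidAlgebra.mapDomainRingHom k f z := by
        intro z
        induction z using MonoidAlgebra.induction_linear with
        | zero => rw [map_zero, map_zero, map_zero]
        | add x y hx hy => rw [map_add, map_add, map_add, hx, hy]
        | single d c =>
          simp only [MonoidAlgebra.mapDomainRingHom_apply, MonoidAlgebra.mapDomain_single]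
          rfl
      exact h5 _
    rw [h4]
    exact (pow_char_mapDomain p a f hf (u : MonoidAlgebra k D)).symm

variable {k : Type u} [Field k] {G : Type v} [Group G] {n : ℕ}

/-- Every element has a nonzero multiple which is a combination of symbols of `USet`. -/
theorem mem_sat1 (p : ℕ) [Fact p.Prime] [CharP k p] (w : HnK1 k G n) :
    w ∈ Sat (AddSubgroup.closure (USet k G n)) := by
  have : NeZero p := ⟨(Fact.out : p.Prime).ne_zero⟩
  -- the units of cyclic groups
  have key : ∀ {H : Type v} [Group H] [Finite H] [IsCyclic H] {Γ : Type v} [Group Γ] (f : H →* G)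
      (_ : Function.Injective f) (κ : Γ →* G) (h : ∀ γ a, f a * κ γ = κ γ * f a)
      (u : (MonoidAlgebra k H)ˣ) (z : HG Γ n),
      sy1h f κ h (K1.unit u) z ∈ Sat (AddSubgroup.closure (USet k G n)) := by
    intro H _ _ _ Γ _ f hf κ h u z
    obtain ⟨E, x, a, hE, hx⟩ := exists_prime_part p u
    have hpa : ((p ^ a : ℕ) : ℤ) ≠ 0 := by
      exact_mod_cast pow_ne_zero a (Fact.out : p.Prime).ne_zero
    refine Sat_of_smul hpa ?_
    have e1 : ((p ^ a : ℕ) : ℤ) • sy1h f κ h (K1.unit u) z = ((p ^ a : ℕ) : ℤ) •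
        sy1h f κ h (K1.map (MonoidAlgebra.mapDomainRingHom k E.subtype) (K1.unit x)) z := by
      rw [← sy1hH_apply, ← sy1hH_apply, ← map_zsmul, ← map_zsmul, natCast_zsmul, natCast_zsmul, hx]
    rw [e1, sy1h_map (f.comp E.subtype) f E.subtype 1 (by intro a; simp) κ κ
      (fun γ a => h γ _) h (by intro γ; simp)]
    refine AddSubgroup.zsmul_mem _ (mem_Sat (AddSubgroup.subset_closure ?_)) _
    have hinj : Function.Injective (f.comp E.subtype) := hf.comp E.subtype_injective
    let e : E ≃* (rangeSub (f.comp E.subtype)).1 := MonoidHom.ofInjective hinj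
    have hcyc : IsCyclic (rangeSub (f.comp E.subtype)).1 := isCyclic_of_surjective e e.surjective
    refine ⟨rangeSub (f.comp E.subtype), hcyc, ?_, Units.map (MonoidAlgebra.mapDomainRingHom k
      (toRange (f.comp E.subtype))).toMonoidHom x,
      HG.map n (toCent (f.comp E.subtype) κ (fun γ a => h γ _)) z, ?_⟩
    · intro d
      obtain ⟨b, rfl⟩ := e.surjective d
      rw [MulEquiv.orderOf_eq]
      exact hE b
    · rw [sy1h, K1.map_unit]
  induction w using hnk1_induction with
  | h0 => exact AddSubgroup.zero_mem _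
  | h2 a b ha hb => exact AddSubgroup.add_mem _ ha hb
  | h3 a ha => exact AddSubgroup.neg_mem _ ha
  | h1 F x z =>
    have : Finite F.1 := F.2
    obtain ⟨m, r, D, y, hm, hcyc, hx⟩ := hArt_field.{u, v} k F.1 x
    refine Sat_of_smul (Int.natCast_ne_zero.2 hm.ne') ?_
    rw [← sy1h_subtype, ← sy1hH_apply, ← map_zsmul, natCast_zsmul, hx, map_sum]
    refine AddSubgroup.sum_mem _ fun i _ => ?_
    have := hcyc i
    obtain ⟨m', u, hm', hu⟩ := hUnit_field.{u, v} k (D i) (y i)
    refine Sat_of_smul (Int.natCast_ne_zero.2 hm'.ne') ?_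
    have e1 : sy1hH F.1.subtype (Subgroup.centralizer (F.1 : Set G)).subtype (cent_comm F.1) z
        (ind k (D i).subtype (y i)) = sy1h (F.1.subtype.comp (D i).subtype)
          (Subgroup.centralizer (F.1 : Set G)).subtype (fun γ a => cent_comm F.1 γ _) (y i) z := by
      rw [sy1hH_apply, ind]
      exact sy1h_map (F.1.subtype.comp (D i).subtype) F.1.subtype (D i).subtype 1
        (by intro a; simp) _ _ (fun γ a => cent_comm F.1 γ _) (cent_comm F.1) (by intro γ; simp) _ _
    rw [e1, ← sy1hH_apply, ← map_zsmul, natCast_zsmul, hu, sy1hH_apply]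
    exact key (F.1.subtype.comp (D i).subtype)
      (F.1.subtype_injective.comp (D i).subtype_injective) _ _ _ _

end

end Pool.Agent.H16.FU
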