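import Pool.Agent.H16.FU.Gen1

/-!
# Project FU: the `K₁`-part over a field with enough roots of unity

PROOFS. `exists_decomp`: `D` cyclic of order `N` with generator `g`, `ζ ∈ F` a primitive `N`-th root of unity
(so `N ≠ 0` in `F`), `χ_l(g) = ζ ^ l`, `ε_l = N⁻¹ ∑_a χ_l(a⁻¹) a ∈ F[D]`: orthogonal idempotents with sum `1`, and
`x ε_l = χ_l(x) ε_l` for `x ∈ k'[D]`; so `x = ∏_l (1 + ε_l (χ_l(x) - 1))` and `K₁.unit` of the factor is
`sbass D j (χ_l(x)) [ε_l]` (`bass_mk` with a `1 × 1` matrix).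

`exists_gen01`: `mem_sat1`; `e` is the product of the orders of the groups `D` which occur (closure induction;
`IsPrimitiveRoot.pow`), `hn1 (sy1 D (K1.unit x) z) = sy1 D (K1.unit x') z` and `exists_decomp`.
-/

set_option autoImplicit false

open Matrix

universe t u v w

namespace Pool.Agent.H16.FU

open Pool.Agent.H71.FQ
open Pool.Agent.H71.FJ (K0 K0.mk Sat Sat_of_smul mem_Sat)
open Pool.Agent.H71.DB (bmat bU bmat_mul bmat_one bass bass_mk bass_mul bass_comp map_bass)
open Pool.Agent.H95.WH (K1 K1.mk K1.unit K1.map K1.map_mk K1.map_map FamSub conjHom FinSub)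

section

/-- the product with a unit for a class of an idempotent of the ring -/
theorem sbass_one {F : Type t} [CommRing F] {k : Type u} [CommRing k] (H : Type v) [Group H]
    (j : F →+* k) (u : kˣ) (ε : MonoidAlgebra F H) (hε : ε * ε = ε) (x : (MonoidAlgebra k H)ˣ)
    (hx : (x : MonoidAlgebra k H) = 1 + MonoidAlgebra.mapRingHom H j ε * (sU H u - 1)) :
    ∃ y : K0 (MonoidAlgebra F H), sbass H j u y = K1.unit x := by
  refine ⟨K0.mk ⟨1, Matrix.of fun _ _ => ε, ?_⟩, ?_⟩
  · refine Matrix.ext fun i j => ?_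
    rw [Matrix.mul_apply, Fin.sum_univ_one]
    exact hε
  · unfold sbass
    rw [bass_mk, K1.unit]
    congr 1
    refine Units.ext (Matrix.ext fun i l => ?_)
    obtain rfl : i = l := Subsingleton.elim _ _
    show bmat _ _ _ i i = Matrix.scalar (Fin 1) (x : MonoidAlgebra k H) i i
    rw [Matrix.scalar_apply, Matrix.diagonal_apply_eq, hx, bmat, Matrix.add_apply,
      Matrix.map_apply, Matrix.one_apply_eq]
    rfl

section Dec

set_option linter.unusedSectionVars false

variable {F : Type t} [Field F] {k : Type u} [Field k] {D : Type v} [Group D] [Fintype D]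

/-- the idempotent of a character -/
private noncomputable def chE (ψ : D →* Fˣ) (l : ℕ) : MonoidAlgebra F D :=
  ∑ d : D, MonoidAlgebra.single d ((Nat.card D : F)⁻¹ * ((ψ d⁻¹ : Fˣ) : F) ^ l)

/-- the homomorphism of a character -/
private noncomputable def chR (j : F →+* k) (ψ : D →* Fˣ) (l : ℕ) : MonoidAlgebra k D →+* k :=
  MonoidAlgebra.liftNCRingHom (RingHom.id k)
    ((j : F →* k).comp ((powMonoidHom l).comp ((Units.coeHom F).comp ψ)))
    fun _ _ => Commute.all _ _

private theorem chR_single (j : F →+* k) (ψ : D →* Fˣ) (l : ℕ) (h : D) (c : k) :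
    chR j ψ l (MonoidAlgebra.single h c) = c * j (((ψ h : Fˣ) : F) ^ l) :=
  MonoidAlgebra.liftNC_single _ _ _ _

private theorem map_chE (j : F →+* k) (ψ : D →* Fˣ) (l : ℕ) :
    MonoidAlgebra.mapRingHom D j (chE ψ l) =
      ∑ d : D, MonoidAlgebra.single d (j ((Nat.card D : F)⁻¹ * ((ψ d⁻¹ : Fˣ) : F) ^ l)) := by
  unfold chE
  rw [map_sum]
  exact Finset.sum_congr rfl fun d _ => MonoidAlgebra.mapRingHom_single _ _ _

private theorem mul_chE (j : F →+* k) (ψ : D →* Fˣ) (l : ℕ) (x : MonoidAlgebra k D) :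
    x * MonoidAlgebra.mapRingHom D j (chE ψ l) =
      MonoidAlgebra.single 1 (chR j ψ l x) * MonoidAlgebra.mapRingHom D j (chE ψ l) := by
  induction x using MonoidAlgebra.induction_linear with
  | zero => rw [zero_mul, map_zero, MonoidAlgebra.single_zero, zero_mul]
  | add a b ha hb => rw [add_mul, ha, hb, map_add, MonoidAlgebra.single_add, add_mul]
  | single h c =>
    rw [chR_single, map_chE, Finset.mul_sum, Finset.mul_sum]
    refine Fintype.sum_equiv (Equiv.mulLeft h) _ _ fun d => ?_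
    rw [MonoidAlgebra.single_mul_single, MonoidAlgebra.single_mul_single, one_mul,
      Equiv.coe_mulLeft]
    congr 1
    rw [mul_assoc, ← map_mul]
    congr 2
    have h1 : ((ψ d⁻¹ : Fˣ) : F) = (ψ h : Fˣ) * (ψ (h * d)⁻¹ : Fˣ) := by
      rw [← Units.val_mul, ← map_mul, _root_.mul_inv_rev]
      rw [map_mul, map_mul, mul_left_comm, ← map_mul ψ h, mul_inv_cancel, map_one, mul_one]
    rw [h1, mul_pow]
    ring

private theorem sum_single' (d : D) (c : F) (f : ℕ → F) (s : Finset ℕ) :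
    ∑ l ∈ s, MonoidAlgebra.single d (c * f l) = MonoidAlgebra.single d (c * ∑ l ∈ s, f l) := by
  classical
  induction s using Finset.induction_on with
  | empty => rw [Finset.sum_empty, Finset.sum_empty, mul_zero, MonoidAlgebra.single_zero]
  | insert a s ha ih =>
    rw [Finset.sum_insert ha, Finset.sum_insert ha, ih, mul_add, MonoidAlgebra.single_add]

private theorem sum_chE (ψ : D →* Fˣ) (hψ : Function.Injective ψ) (hN : (Nat.card D : F) ≠ 0) :
    ∑ l ∈ Finset.range (Nat.card D), chE ψ l = 1 := by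
  unfold chE
  rw [Finset.sum_comm, Finset.sum_eq_single 1]
  · rw [sum_single' 1 ((Nat.card D : F)⁻¹) fun l => ((ψ (1 : D)⁻¹ : Fˣ) : F) ^ l, inv_one, map_one,
      Units.val_one]
    simp only [one_pow]
    rw [Finset.sum_const, Finset.card_range, nsmul_eq_mul, mul_one, inv_mul_cancel₀ hN]
    rfl
  · intro d _ hd
    have h1 : ((ψ d⁻¹ : Fˣ) : F) ≠ 1 := by
      intro h
      have h2 : ψ d⁻¹ = 1 := Units.ext h
      rw [← map_one ψ] at h2
      exact hd (inv_eq_one.1 (hψ h2))
    have h2 : ((ψ d⁻¹ : Fˣ) : F) ^ Nat.card D = 1 := by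
      rw [← Units.val_pow_eq_pow_val, ← map_pow, pow_card_eq_one', map_one, Units.val_one]
    have h3 : ∑ l ∈ Finset.range (Nat.card D), ((ψ d⁻¹ : Fˣ) : F) ^ l = 0 := by
      have h4 := geom_sum_mul ((ψ d⁻¹ : Fˣ) : F) (Nat.card D)
      rw [h2, sub_self] at h4
      exact (mul_eq_zero.1 h4).resolve_right (sub_ne_zero.2 h1)
    rw [sum_single' d ((Nat.card D : F)⁻¹) fun l => ((ψ d⁻¹ : Fˣ) : F) ^ l, h3, mul_zero,
      MonoidAlgebra.single_zero]
  · intro h
    exact absurd (Finset.mem_univ _) h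

private theorem chR_chE (ψ : D →* Fˣ) (l m : ℕ) :
    chR (RingHom.id F) ψ m (chE ψ l) =
      ∑ d : D, (Nat.card D : F)⁻¹ * ((ψ d⁻¹ : Fˣ) : F) ^ l * ((ψ d : Fˣ) : F) ^ m := by
  unfold chE
  rw [map_sum]
  exact Finset.sum_congr rfl fun d _ => chR_single _ _ _ _ _

private theorem chE_mul_self (ψ : D →* Fˣ) (l : ℕ) (hN : (Nat.card D : F) ≠ 0) :
    chE ψ l * chE ψ l = chE ψ l := by
  have h := mul_chE (RingHom.id F) ψ l (chE ψ l)
  rw [MonoidAlgebra.mapRingHom_id, RingHom.id_apply, chR_chE] at h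
  rw [h]
  have h1 : ∀ d ∈ (Finset.univ : Finset D), (Nat.card D : F)⁻¹ * ((ψ d⁻¹ : Fˣ) : F) ^ l *
      ((ψ d : Fˣ) : F) ^ l = (Nat.card D : F)⁻¹ := by
    intro d _
    rw [mul_assoc, ← mul_pow, ← Units.val_mul, ← map_mul, inv_mul_cancel, map_one, Units.val_one,
      one_pow, mul_one]
  rw [Finset.sum_congr rfl h1, Finset.sum_const, Finset.card_univ, ← Nat.card_eq_fintype_card,
    nsmul_eq_mul, mul_inv_cancel₀ hN]
  exact one_mul _

private theorem chE_mul_of_ne (ψ : D →* Fˣ) (l m : ℕ) (g : D)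
    (h : ((ψ g : Fˣ) : F) ^ l ≠ ((ψ g : Fˣ) : F) ^ m) : chE ψ l * chE ψ m = 0 := by
  have h0 := mul_chE (RingHom.id F) ψ m (chE ψ l)
  rw [MonoidAlgebra.mapRingHom_id, RingHom.id_apply, chR_chE] at h0
  rw [h0]
  have h1 : (∑ d : D, (Nat.card D : F)⁻¹ * ((ψ d⁻¹ : Fˣ) : F) ^ l * ((ψ d : Fˣ) : F) ^ m) *
      ((ψ g : Fˣ) : F) ^ l = (∑ d : D, (Nat.card D : F)⁻¹ * ((ψ d⁻¹ : Fˣ) : F) ^ l *
        ((ψ d : Fˣ) : F) ^ m) * ((ψ g : Fˣ) : F) ^ m := by
    rw [Finset.sum_mul, Finset.sum_mul]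
    symm
    refine Fintype.sum_equiv (Equiv.mulLeft g) _ _ fun d => ?_
    rw [Equiv.coe_mulLeft]
    have h2 : ((ψ d⁻¹ : Fˣ) : F) = (ψ g : Fˣ) * (ψ (g * d)⁻¹ : Fˣ) := by
      rw [← Units.val_mul, ← map_mul, _root_.mul_inv_rev]
      rw [map_mul, map_mul, mul_left_comm, ← map_mul ψ g, mul_inv_cancel, map_one, mul_one]
    rw [h2, mul_pow, map_mul ψ g d, Units.val_mul, mul_pow]
    ring
  have h3 : (∑ d : D, (Nat.card D : F)⁻¹ * ((ψ d⁻¹ : Fˣ) : F) ^ l * ((ψ d : Fˣ) : F) ^ m) = 0 := by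
    by_contra h4
    exact h (mul_left_cancel₀ h4 h1)
  rw [h3, MonoidAlgebra.single_zero, zero_mul]

end Dec

/-- **Decomposition by characters.** -/
theorem exists_decomp {F : Type t} [Field F] {k : Type u} [Field k] (j : F →+* k) {D : Type v}
    [Group D] [Finite D] [IsCyclic D] (ζ : F) (hζ : IsPrimitiveRoot ζ (Nat.card D))
    (x : (MonoidAlgebra k D)ˣ) :
    ∃ (r : ℕ) (u : Fin r → kˣ) (y : Fin r → K0 (MonoidAlgebra F D)),
      K1.unit x = ∑ i, sbass D j (u i) (y i) := by
  classical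
  have : Fintype D := Fintype.ofFinite D
  obtain ⟨g, hg⟩ := IsCyclic.exists_generator (α := D)
  have hpos : 0 < Nat.card D := Nat.card_pos
  have : NeZero (Nat.card D) := ⟨hpos.ne'⟩
  have hN : (Nat.card D : F) ≠ 0 := by
    have := hζ.neZero'
    exact NeZero.ne _
  have hord : orderOf g = Nat.card D := orderOf_eq_card_of_forall_mem_zpowers hg
  set Z : Fˣ := hζ.toRootsOfUnity.1 with hZ
  have hZv : (Z : F) = ζ := rfl
  have hZord : orderOf Z = Nat.card D := by
    rw [← orderOf_units, hZv]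
    exact hζ.eq_orderOf.symm
  have hdvd : orderOf Z ∣ orderOf g := by rw [hZord, hord]
  set ψ : D →* Fˣ := monoidHomOfForallMemZpowers hg hdvd with hψdef
  have hψg : ψ g = Z := monoidHomOfForallMemZpowers_apply_gen hg hdvd
  have hψ : Function.Injective ψ := by
    rw [injective_iff_map_eq_one]
    intro d hd
    obtain ⟨a, rfl⟩ := hg d
    simp only at hd ⊢
    rw [map_zpow, hψg, ← orderOf_dvd_iff_zpow_eq_one, hZord, ← hord,
      orderOf_dvd_iff_zpow_eq_one] at hd
    exact hd
  set u : ℕ → kˣ := fun l => Units.map (chR j ψ l : MonoidAlgebra k D →* k) x with hu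
  set E : ℕ → MonoidAlgebra k D := fun l => MonoidAlgebra.mapRingHom D j (chE ψ l) with hE
  have hEE : ∀ l, E l * E l = E l := by
    intro l
    simp only [hE]
    rw [← map_mul, chE_mul_self ψ l hN]
  have hne : ∀ l m, l < Nat.card D → m < Nat.card D → l ≠ m → E l * E m = 0 := by
    intro l m hl hm hlm
    simp only [hE]
    rw [← map_mul, chE_mul_of_ne ψ l m g, map_zero]
    rw [hψg, hZv]
    intro h
    exact hlm (hζ.pow_inj hl hm h)
  have hcs : ∀ (c : kˣ) (b : MonoidAlgebra k D), b * (sU D c - 1) = (sU D c - 1) * b := by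
    intro c b
    rw [mul_sub, sub_mul, sU_comm, mul_one, one_mul]
  have hv : ∀ l, ∃ y : (MonoidAlgebra k D)ˣ, (y : MonoidAlgebra k D) = 1 + E l * (sU D (u l) - 1) := by
    intro l
    have key : ∀ c c' : kˣ, c * c' = 1 →
        (1 + E l * (sU D c - 1)) * (1 + E l * (sU D c' - 1)) = 1 := by
      intro c c' hc
      have h1 : (sU D c : MonoidAlgebra k D) * sU D c' = 1 := by
        rw [← Units.val_mul, ← sU_mul, hc]
        rfl
      have h2 : (1 + E l * (sU D c - 1)) * (1 + E l * (sU D c' - 1)) =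
          1 + E l * ((sU D c - 1) + (sU D c' - 1)) +
            (E l * (sU D c - 1)) * (E l * (sU D c' - 1)) := by
        noncomm_ring
      have h3 : (E l * (sU D c - 1)) * (E l * (sU D c' - 1)) =
          E l * ((sU D c - 1) * (sU D c' - 1)) := by
        rw [mul_assoc, ← mul_assoc (_ - _) (E l), ← hcs, mul_assoc, ← mul_assoc (E l), hEE]
      have h4 : ((sU D c : MonoidAlgebra k D) - 1) * (sU D c' - 1) =
          1 - sU D c - sU D c' + 1 := by
        rw [mul_sub, sub_mul, h1]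
        noncomm_ring
      rw [h2, h3, h4, add_assoc, ← mul_add]
      have h5 : ((sU D c : MonoidAlgebra k D) - 1 + (sU D c' - 1)) +
          (1 - sU D c - sU D c' + 1) = 0 := by abel
      rw [h5, mul_zero, add_zero]
    exact ⟨⟨1 + E l * (sU D (u l) - 1), 1 + E l * (sU D (u l)⁻¹ - 1), key _ _ (mul_inv_cancel _),
      key _ _ (inv_mul_cancel _)⟩, rfl⟩
  choose v hv using hv
  have hX : ∀ s ≤ Nat.card D, ∃ X : (MonoidAlgebra k D)ˣ,
      (X : MonoidAlgebra k D) = 1 + ∑ l ∈ Finset.range s, E l * (sU D (u l) - 1) ∧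
      K1.unit X = ∑ l ∈ Finset.range s, K1.unit (v l) := by
    intro s
    induction s with
    | zero =>
      intro _
      refine ⟨1, ?_, ?_⟩
      · rw [Finset.range_zero, Finset.sum_empty, add_zero]
        rfl
      · rw [Finset.range_zero, Finset.sum_empty, Pool.Agent.H71.DO.K1_unit_one]
    | succ s ih =>
      intro hs
      obtain ⟨X, hX1, hX2⟩ := ih (by omega)
      refine ⟨X * v s, ?_, ?_⟩
      · rw [Units.val_mul, hX1, hv, Finset.sum_range_succ, add_mul, one_mul, mul_add, mul_one,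
          Finset.sum_mul]
        have h1 : ∀ l ∈ Finset.range s, E l * (sU D (u l) - 1) * (E s * (sU D (u s) - 1)) = 0 := by
          intro l hl
          rw [Finset.mem_range] at hl
          rw [mul_assoc, ← mul_assoc (_ - _) (E s), ← hcs, mul_assoc, ← mul_assoc (E l),
            hne l s (by omega) (by omega) (by omega), zero_mul]
        rw [Finset.sum_eq_zero h1, add_zero]
        abel
      · rw [Pool.Agent.H95.WH.K1.unit_mul, hX2, Finset.sum_range_succ]
  obtain ⟨X, hX1, hX2⟩ := hX (Nat.card D) le_rfl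
  have hsum : ∑ l ∈ Finset.range (Nat.card D), E l = 1 := by
    simp only [hE]
    rw [← map_sum, sum_chE ψ hψ hN, map_one]
  have hXx : X = x := by
    refine Units.ext ?_
    rw [hX1]
    have h1 : ∀ l ∈ Finset.range (Nat.card D), E l * ((sU D (u l) : MonoidAlgebra k D) - 1) =
        (x : MonoidAlgebra k D) * E l - E l := by
      intro l _
      rw [mul_sub, mul_one, sU_comm]
      congr 1
      exact (mul_chE j ψ l x).symm
    rw [Finset.sum_congr rfl h1, Finset.sum_sub_distrib, ← Finset.mul_sum, hsum, mul_one]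
    abel
  have hy : ∀ l, ∃ y : K0 (MonoidAlgebra F D), sbass D j (u l) y = K1.unit (v l) := fun l =>
    sbass_one D j (u l) (chE ψ l) (chE_mul_self ψ l hN) (v l) (hv l)
  choose y hy using hy
  refine ⟨Nat.card D, fun i => u i, fun i => y i, ?_⟩
  rw [← hXx, hX2, Finset.sum_range]
  exact Finset.sum_congr rfl fun i _ => (hy i).symm

/-- The elements `hn01 u [D, y, z]` with `D` finite cyclic of order invertible in `F`. -/
def VSet {F : Type t} [CommRing F] {k : Type u} [CommRing k] (j : F →+* k) (G : Type v) [Group G]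
    (n : ℕ) : Set (HnK1 k G n) :=
  {w | ∃ (D : FamSub G FinSub) (_ : IsCyclic D.1), (∀ h : D.1, (orderOf h : F) ≠ 0) ∧
    ∃ (u : kˣ) (y : K0 (MonoidAlgebra F D.1)) (z : HG (Subgroup.centralizer (D.1 : Set G)) n),
      w = hn01 j u (sy D y z)}

/-- **Generation over fields with enough roots of unity.** -/
theorem exists_gen01 {k : Type u} [Field k] (p : ℕ) [Fact p.Prime] [CharP k p] {G : Type v}
    [Group G] {n : ℕ} (w : HnK1 k G n) : ∃ e : ℕ, ¬ p ∣ e ∧ ∃ m : ℤ, m ≠ 0 ∧
      ∀ {k' : Type w} [Field k'] (θ : k →+* k') {F : Type t} [Field F] (j : F →+* k') (ζ : F),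
        IsPrimitiveRoot ζ e → m • hn1 θ w ∈ AddSubgroup.closure (VSet j G n) := by
  obtain ⟨m, hm, hw⟩ := mem_sat1 p w
  have key : ∀ v ∈ AddSubgroup.closure (USet k G n), ∃ e : ℕ, ¬ p ∣ e ∧
      ∀ (k' : Type w) [Field k'] (θ : k →+* k') (F : Type t) [Field F] (j : F →+* k') (ζ : F),
        IsPrimitiveRoot ζ e → hn1 θ v ∈ AddSubgroup.closure (VSet j G n) := by
    intro v hv
    induction hv using AddSubgroup.closure_induction with
    | mem v hv =>
      obtain ⟨D, hD, ho, x, z, rfl⟩ := hv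
      have hfin : Finite D.1 := D.2
      refine ⟨Nat.card D.1, ?_, ?_⟩
      · intro h
        obtain ⟨g, hg⟩ := IsCyclic.exists_generator (α := D.1)
        have h1 : orderOf g = Nat.card D.1 := orderOf_eq_card_of_forall_mem_zpowers hg
        obtain ⟨a, ha⟩ := h
        apply ho g
        rw [h1, ha, Nat.cast_mul, CharP.cast_eq_zero, zero_mul]
      · intro k' _ θ F _ j ζ hζ
        obtain ⟨r, u, y, h1⟩ := exists_decomp j ζ hζ
          (Units.map (MonoidAlgebra.mapRingHom D.1 θ).toMonoidHom x)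
        have h2 : K1.map (MonoidAlgebra.mapRingHom D.1 θ) (K1.unit x) =
            K1.unit (Units.map (MonoidAlgebra.mapRingHom D.1 θ).toMonoidHom x) :=
          K1.map_unit _ _
        rw [hn1_sy1, h2, h1, ← syB1_apply, map_sum, AddMonoidHom.finsetSum_apply]
        refine AddSubgroup.sum_mem _ fun i _ => AddSubgroup.subset_closure
          ⟨D, hD, ?_, u i, y i, z, ?_⟩
        · intro h h3
          apply ho h
          have h4 : ((orderOf h : ℕ) : k') = 0 := by
            rw [← map_natCast j, h3, map_zero]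
          rw [← map_natCast θ] at h4
          exact (map_eq_zero θ).1 h4
        · rw [hn01_sy, syB1_apply]
    | zero =>
      refine ⟨1, ?_, ?_⟩
      · intro h
        exact (Fact.out : p.Prime).one_lt.ne' (Nat.dvd_one.1 h)
      · intro k' _ θ F _ j ζ _
        rw [map_zero]
        exact AddSubgroup.zero_mem _
    | add a b _ _ ha hb =>
      obtain ⟨e, he, h1⟩ := ha
      obtain ⟨e', he', h2⟩ := hb
      have h0 : ∀ e : ℕ, ¬ p ∣ e → 0 < e := fun e he => Nat.pos_of_ne_zero (by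
        rintro rfl
        exact he (dvd_zero p))
      refine ⟨e * e', ?_, ?_⟩
      · intro h
        rcases (Fact.out : p.Prime).dvd_mul.1 h with h | h
        · exact he h
        · exact he' h
      · intro k' _ θ F _ j ζ hζ
        rw [map_add]
        refine AddSubgroup.add_mem _ (h1 k' θ F j (ζ ^ e') ?_) (h2 k' θ F j (ζ ^ e) ?_)
        · exact hζ.pow (Nat.mul_pos (h0 e he) (h0 e' he')) (mul_comm e e')
        · exact hζ.pow (Nat.mul_pos (h0 e he) (h0 e' he')) rfl
    | neg a _ ha =>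
      obtain ⟨e, he, h1⟩ := ha
      refine ⟨e, he, ?_⟩
      intro k' _ θ F _ j ζ hζ
      rw [map_neg]
      exact AddSubgroup.neg_mem _ (h1 k' θ F j ζ hζ)
  obtain ⟨e, he, h⟩ := key _ hw
  refine ⟨e, he, m, hm, ?_⟩
  intro k' _ θ F _ j ζ hζ
  rw [← map_zsmul]
  exact h k' θ F j ζ hζ

end

end Pool.Agent.H16.FU
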