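import Pool.Agent.H16.FU.Lau

/-!
# Project FU: the functionals of the K-groups of `K((t))[G]`

A function `Φ` of tuples in `G' = G × ℤ` (`IsPhi (c, 0) Φ`) defines `trL : KQ (K((t))[G]) n → B`. It extends the
functional `trT` of `K[G']` (`trL_lp`), and on `K[[t]][G]` it is the functional `trT` of the restriction of `Φ` to the
tuples of degree zero, applied to the constant terms (`trL_ps`).

PROOFS. `TKL_face`: as `TK_face`, with `TL_merge_zero`, `TL_merge_succ`. `trL`: as `trT` (`HG.ev_add`, `TL_blk`).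
`trL_lp`: `TL_eq` with the lift of the matrix over `K[G']`, which is a good approximation (`R` larger than all the degrees
and than `k q M`), and `TK_eq`. `trL_ps`: a lift of the constant term, in degree zero, is a good approximation with
`M = 0`, `R = 1`; `TB_inl`.
-/

set_option autoImplicit false

open Matrix

universe u v w

namespace Pool.Agent.H16.FU

open Pool.Agent.H71.FQ

section

variable {K : Type u} [Field K] {p m : ℕ} (L : LD K p m) {G : Type v} [Group G]

/-- The cochain of `GL(K((t))[G])` defined by `Φ`. -/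
noncomputable def TKL {ι : Type*} [Fintype ι] [DecidableEq ι] {k : ℕ} (c : G)
    (Φ : (Fin (k + 1) → Fin (p ^ m) → G × Multiplicative ℤ) → L.B)
    (h : Fin (k + 1) → (Matrix ι ι (MonoidAlgebra (LaurentSeries K) G))ˣ) : L.B :=
  TL L c Φ fun j => ((h j)⁻¹ * h (j + 1)).val

theorem TKL_inv {ι : Type*} [Fintype ι] [DecidableEq ι] {k : ℕ} (c : G)
    (Φ : (Fin (k + 1) → Fin (p ^ m) → G × Multiplicative ℤ) → L.B)
    (g : (Matrix ι ι (MonoidAlgebra (LaurentSeries K) G))ˣ)
    (h : Fin (k + 1) → (Matrix ι ι (MonoidAlgebra (LaurentSeries K) G))ˣ) :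
    TKL L c Φ (fun j => g * h j) = TKL L c Φ h := by
  unfold TKL
  congr 1
  funext j
  rw [_root_.mul_inv_rev, mul_assoc, inv_mul_cancel_left]

theorem TKL_face {ι : Type*} [Fintype ι] [DecidableEq ι] {k : ℕ} {c : G}
    {Φ : (Fin (k + 1) → Fin (p ^ m) → G × Multiplicative ℤ) → L.B}
    (hΦ : IsInv (c, (1 : Multiplicative ℤ)) Φ)
    (h : Fin (k + 2) → (Matrix ι ι (MonoidAlgebra (LaurentSeries K) G))ˣ) (i : Fin (k + 2)) :
    TKL L c (fun v : Fin (k + 2) → Fin (p ^ m) → G × Multiplicative ℤ =>
        Φ fun j => v (i.succAbove j)) h = TKL L c Φ fun j => h (i.succAbove j) := by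
  induction i using Fin.cases with
  | zero =>
    simp only [Fin.zero_succAbove]
    refine (TL_merge_zero L hΦ _).trans ?_
    unfold TKL
    congr 1
    funext j
    beta_reduce
    by_cases hj : j = Fin.last k
    · rw [if_pos hj, ← Units.val_mul, hj, Fin.last_add_one, Fin.last_add_one, Fin.succ_last,
        zero_add, mul_assoc, mul_inv_cancel_left]
      rfl
    · have h1 : (j + 1).succ = j.succ + 1 := by
        apply Fin.ext
        rw [Fin.val_succ, Fin.val_add_one, if_neg hj, Fin.val_add_one,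
          if_neg (fun hc => hj (Fin.succ_injective _ (by rw [hc, Fin.succ_last]))), Fin.val_succ]
      rw [if_neg hj, h1]
  | succ i =>
    refine (TL_merge_succ L hΦ _ i).trans ?_
    unfold TKL
    congr 1
    funext j
    beta_reduce
    rcases lt_trichotomy j i with hj | hj | hj
    · rw [if_pos hj, succAbove_add_one_of_lt hj, Fin.succAbove_of_castSucc_lt _ _ (by
        rw [Fin.lt_def, Fin.val_castSucc, Fin.val_succ]
        have := Fin.lt_def.mp hj
        omega)]
    · subst hj
      rw [if_neg (lt_irrefl _), if_pos rfl, ← Units.val_mul,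
        succAbove_add_one_of_le le_rfl, Fin.coeSucc_eq_succ, mul_assoc, mul_inv_cancel_left,
        Fin.succAbove_of_castSucc_lt _ _ Fin.castSucc_lt_succ]
    · rw [if_neg (not_lt.mpr hj.le), if_neg hj.ne', succAbove_add_one_of_le hj.le,
        Fin.succAbove_of_le_castSucc _ _ (by
          rw [Fin.le_def, Fin.val_castSucc, Fin.val_succ]
          have := Fin.lt_def.mp hj
          omega)]

theorem TKL_sum {κ : Type*} (s : Finset κ) (a : κ → ℤ) {ι : Type*} [Fintype ι] [DecidableEq ι]
    {k : ℕ} (c : G) (Φ : κ → (Fin (k + 1) → Fin (p ^ m) → G × Multiplicative ℤ) → L.B)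
    (h : Fin (k + 1) → (Matrix ι ι (MonoidAlgebra (LaurentSeries K) G))ˣ) :
    TKL L c (fun v => ∑ i ∈ s, a i • Φ i v) h = ∑ i ∈ s, a i • TKL L c (Φ i) h :=
  TL_sum L s a c Φ _

theorem TKL_zero {ι : Type*} [Fintype ι] [DecidableEq ι] {k : ℕ} (c : G)
    (h : Fin (k + 1) → (Matrix ι ι (MonoidAlgebra (LaurentSeries K) G))ˣ) :
    TKL L c (fun _ : Fin (k + 1) → Fin (p ^ m) → G × Multiplicative ℤ => 0) h = 0 := by
  have h1 := TKL_sum L (∅ : Finset Unit) (fun _ => 0) c
    (fun _ (_ : Fin (k + 1) → Fin (p ^ m) → G × Multiplicative ℤ) => (0 : L.B)) h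
  simpa only [Finset.sum_empty] using h1

theorem TKL_blk {N M k : ℕ} {c : G} {Φ : (Fin (k + 1) → Fin (p ^ m) → G × Multiplicative ℤ) → L.B}
    (hΦ : IsInv (c, (1 : Multiplicative ℤ)) Φ)
    (h : Fin (k + 1) → GLm N (MonoidAlgebra (LaurentSeries K) G) ×
      GLm M (MonoidAlgebra (LaurentSeries K) G)) :
    TKL L c Φ (fun j => blk N M (MonoidAlgebra (LaurentSeries K) G) (h j)) =
      TKL L c Φ (fun j => (h j).1) + TKL L c Φ (fun j => (h j).2) := by
  unfold TKL
  rw [← TL_blk L (Nat.succ_pos k) hΦ]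
  congr 1
  funext j
  rw [← map_inv, ← map_mul, blk_val]
  rfl

variable {n : ℕ} {c : G}

theorem isCoc_TKL (N : ℕ) {Φ : (Fin (n + 2) → Fin (p ^ m) → G × Multiplicative ℤ) → L.B}
    (hΦ : IsPhi (c, (1 : Multiplicative ℤ)) Φ) :
    IsCoc (GLm N (MonoidAlgebra (LaurentSeries K) G)) n fun h => TKL L c Φ h := by
  refine ⟨fun g x => TKL_inv L c Φ g x, fun x => ?_⟩
  have h1 : ∀ i : Fin (n + 3), TKL L c Φ (fun j => x (i.succAbove j)) =
      TKL L c (fun v : Fin (n + 3) → Fin (p ^ m) → G × Multiplicative ℤ =>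
        Φ fun j => v (i.succAbove j)) x :=
    fun i => (TKL_face L hΦ.toIsInv x i).symm
  simp only [h1]
  rw [← TKL_sum L Finset.univ (fun i : Fin (n + 3) => (-1 : ℤ) ^ (i : ℕ)) c
    (fun i (v : Fin (n + 3) → Fin (p ^ m) → G × Multiplicative ℤ) =>
      Φ fun j => v (i.succAbove j)) x]
  have h2 : (fun v : Fin (n + 3) → Fin (p ^ m) → G × Multiplicative ℤ =>
      ∑ i : Fin (n + 3), (-1 : ℤ) ^ (i : ℕ) • Φ fun j => v (i.succAbove j)) = fun _ => 0 :=
    funext hΦ.coc
  rw [h2]
  exact TKL_zero L c x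

/-- **The functional defined by `Φ`.** -/
noncomputable def trL {Φ : (Fin (n + 2) → Fin (p ^ m) → G × Multiplicative ℤ) → L.B}
    (hΦ : IsPhi (c, (1 : Multiplicative ℤ)) Φ) :
    KQ (MonoidAlgebra (LaurentSeries K) G) n →+ L.B :=
  KQ.lift (fun N => HG.ev (isCoc_TKL L N hΦ)) (by
    intro N M w
    rw [HG.ev_map, HG.ev_map, HG.ev_map]
    exact HG.ev_add _ _ _ (fun h => TKL_blk L hΦ.toIsInv h) w)

theorem trL_cls {Φ : (Fin (n + 2) → Fin (p ^ m) → G × Multiplicative ℤ) → L.B}
    (hΦ : IsPhi (c, (1 : Multiplicative ℤ)) Φ) (N : ℕ)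
    (x : HG (GLm N (MonoidAlgebra (LaurentSeries K) G)) n) :
    trL L hΦ (KQ.cls (MonoidAlgebra (LaurentSeries K) G) n N x) = HG.ev (isCoc_TKL L N hΦ) x :=
  KQ.lift_cls _ _ N x

/-- Laurent polynomials as Laurent series -/
noncomputable def lp (K : Type u) [Field K] (G : Type v) [Group G] :
    MonoidAlgebra K (G × Multiplicative ℤ) →+* MonoidAlgebra (LaurentSeries K) G :=
  MonoidAlgebra.liftNCRingHom
    (MonoidAlgebra.singleOneRingHom.comp (HahnSeries.C : K →+* LaurentSeries K))
    { toFun := fun x => MonoidAlgebra.single x.1 (HahnSeries.single (Multiplicative.toAdd x.2) 1)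
      map_one' := by
        show MonoidAlgebra.single (1 : G) (HahnSeries.single (0 : ℤ) (1 : K)) = 1
        rw [HahnSeries.single_zero_one, MonoidAlgebra.one_def]
      map_mul' := by
        intro x y
        show MonoidAlgebra.single (x.1 * y.1) (HahnSeries.single
          (Multiplicative.toAdd x.2 + Multiplicative.toAdd y.2) (1 : K)) = _
        rw [MonoidAlgebra.single_mul_single, HahnSeries.single_mul_single, mul_one] }
    (by
      intro a x
      show MonoidAlgebra.single (1 : G) (HahnSeries.C a) *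
          MonoidAlgebra.single x.1 (HahnSeries.single (Multiplicative.toAdd x.2) (1 : K)) =
        MonoidAlgebra.single x.1 (HahnSeries.single (Multiplicative.toAdd x.2) (1 : K)) *
          MonoidAlgebra.single (1 : G) (HahnSeries.C a)
      rw [MonoidAlgebra.single_mul_single, MonoidAlgebra.single_mul_single, one_mul, mul_one,
        mul_comm])

theorem lp_single (x : G × Multiplicative ℤ) (a : K) : lp K G (MonoidAlgebra.single x a) =
    MonoidAlgebra.single x.1 (HahnSeries.single (Multiplicative.toAdd x.2) a) := by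
  have h : lp K G (MonoidAlgebra.single x a) = MonoidAlgebra.single (1 : G) (HahnSeries.C a) *
      MonoidAlgebra.single x.1 (HahnSeries.single (Multiplicative.toAdd x.2) (1 : K)) :=
    MonoidAlgebra.liftNC_single _ _ _ _
  rw [h, MonoidAlgebra.single_mul_single, one_mul]
  congr 1
  show HahnSeries.single (0 : ℤ) a * _ = _
  rw [HahnSeries.single_mul_single, zero_add, mul_one]

theorem lp_coeff (b : MonoidAlgebra K (G × Multiplicative ℤ)) (g : G) (d : ℤ) :
    ((lp K G b).coeff g).coeff d = b.coeff (g, Multiplicative.ofAdd d) := by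
  classical
  induction b using MonoidAlgebra.induction_linear with
  | zero => rw [map_zero]; rfl
  | add b b' hb hb' =>
    rw [map_add, MonoidAlgebra.coeff_add, MonoidAlgebra.coeff_add, Finsupp.add_apply,
      Finsupp.add_apply, HahnSeries.coeff_add, hb, hb']
  | single x a =>
    rw [lp_single, MonoidAlgebra.coeff_single, MonoidAlgebra.coeff_single]
    by_cases hg : x.1 = g
    · by_cases hd : Multiplicative.toAdd x.2 = d
      · have hx : x = (g, Multiplicative.ofAdd d) := Prod.ext hg hd
        subst hx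
        rw [Finsupp.single_eq_same, Finsupp.single_eq_same]
        exact HahnSeries.coeff_single_same _ _
      · rw [hg, Finsupp.single_eq_same, HahnSeries.coeff_single_of_ne (Ne.symm hd),
          Finsupp.single_eq_of_ne]
        rintro rfl
        exact hd rfl
    · rw [Finsupp.single_eq_of_ne (Ne.symm hg), Finsupp.single_eq_of_ne]
      · rfl
      · rintro rfl
        exact hg rfl

omit [Group G] in
/-- a lower bound for the degrees of finitely many matrices -/
private theorem exists_dges {B : Type w} [CommRing B] {ι : Type*} [Finite ι] {k : ℕ}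
    (b : Fin k → Matrix ι ι (MonoidAlgebra B (G × Multiplicative ℤ))) :
    ∃ M : ℕ, ∀ j, Dge (-(M : ℤ)) (b j) := by
  classical
  have : Fintype ι := Fintype.ofFinite ι
  refine ⟨Finset.univ.sup fun j : Fin k => Finset.univ.sup fun x : ι => Finset.univ.sup fun y : ι =>
    (b j x y).coeff.support.sup fun g => (Multiplicative.toAdd g.2).natAbs, ?_⟩
  intro j x y g hg
  have h1 : (Multiplicative.toAdd g.2).natAbs ≤ Finset.univ.sup fun j : Fin k =>
      Finset.univ.sup fun x : ι => Finset.univ.sup fun y : ι =>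
        (b j x y).coeff.support.sup fun g => (Multiplicative.toAdd g.2).natAbs :=
    (((Finset.le_sup (f := fun g : G × Multiplicative ℤ => (Multiplicative.toAdd g.2).natAbs)
      (Finsupp.mem_support_iff.2 hg)).trans
      (Finset.le_sup (f := fun y : ι => (b j x y).coeff.support.sup
        fun g => (Multiplicative.toAdd g.2).natAbs) (Finset.mem_univ y))).trans
      (Finset.le_sup (f := fun x : ι => Finset.univ.sup fun y : ι => (b j x y).coeff.support.sup
        fun g => (Multiplicative.toAdd g.2).natAbs) (Finset.mem_univ x))).trans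
      (Finset.le_sup (f := fun j : Fin k => Finset.univ.sup fun x : ι => Finset.univ.sup
        fun y : ι => (b j x y).coeff.support.sup
          fun g => (Multiplicative.toAdd g.2).natAbs) (Finset.mem_univ j))
  omega

private theorem TKL_lp {ι : Type*} [Fintype ι] [DecidableEq ι] {k : ℕ}
    {Φ : (Fin (k + 1) → Fin (p ^ m) → G × Multiplicative ℤ) → L.B}
    (hΦ : IsInv (c, (1 : Multiplicative ℤ)) Φ)
    (h : Fin (k + 1) → (Matrix ι ι (MonoidAlgebra K (G × Multiplicative ℤ)))ˣ) :
    TKL L c Φ (fun j => Units.map (lp K G).mapMatrix.toMonoidHom (h j)) = TK L (c, 1) Φ h := by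
  unfold TKL TK
  obtain ⟨M, hM⟩ := exists_dges fun j : Fin (k + 1) => L.lft ((h j)⁻¹ * h (j + 1)).val
  refine TL_eq L hΦ _ _ ⟨M, ((k + 1) * p ^ m * M : ℕ) + 1, lt_add_one _, hM, fun j => ?_⟩
  intro x y g d _
  beta_reduce
  rw [← map_inv, ← map_mul]
  show L.π _ = ((lp K G (((h j)⁻¹ * h (j + 1)).val x y)).coeff g).coeff d
  rw [lp_coeff]
  have h1 := L.red_lft ((h j)⁻¹ * h (j + 1)).val
  have h2 : (MonoidAlgebra.mapRingHom _ L.π (L.lft ((h j)⁻¹ * h (j + 1)).val x y)).coeff
      (g, Multiplicative.ofAdd d) = (((h j)⁻¹ * h (j + 1)).val x y).coeff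
        (g, Multiplicative.ofAdd d) :=
    congrArg (fun Y : Matrix ι ι (MonoidAlgebra K (G × Multiplicative ℤ)) =>
      (Y x y).coeff (g, Multiplicative.ofAdd d)) h1
  rw [MonoidAlgebra.coeff_mapRingHom] at h2
  exact h2

theorem trL_lp {Φ : (Fin (n + 2) → Fin (p ^ m) → G × Multiplicative ℤ) → L.B}
    (hΦ : IsPhi (c, (1 : Multiplicative ℤ)) Φ)
    (w : KQ (MonoidAlgebra K (G × Multiplicative ℤ)) n) :
    trL L hΦ (KQ.map (lp K G) w) = trT L hΦ w := by
  suffices H : (trL L hΦ).comp (KQ.map (lp K G)) = trT L hΦ from DFunLike.congr_fun H w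
  apply KQ.hom_ext
  intro N x
  rw [AddMonoidHom.comp_apply, KQ.map_cls, trL_cls, trT_cls, HG.ev_map]
  exact HG.ev_congr _ _ (fun h => TKL_lp L hΦ.toIsInv h) x

/-- `sig` of tuples of degree zero -/
theorem sig_inl {q : ℕ} (c : G) (v : Fin q → G) :
    sig q (c, (1 : Multiplicative ℤ)) (fun t => (v t, (1 : Multiplicative ℤ))) =
      fun t => (sig q c v t, 1) := by
  funext t
  unfold sig
  split_ifs
  · rfl
  · exact Prod.ext rfl (mul_one _)

theorem isInv_res {B : Type w} {k q : ℕ} {Φ : (Fin k → Fin q → G × Multiplicative ℤ) → B}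
    (hΦ : IsInv (c, (1 : Multiplicative ℤ)) Φ) :
    IsInv c fun v => Φ fun j t => (v j t, (1 : Multiplicative ℤ)) where
  inv g hg v := by
    have h1 := hΦ.inv (g, 1) (Prod.ext hg rfl) fun j t => (v j t, (1 : Multiplicative ℤ))
    rw [← h1]
    rfl
  rot v := by
    have h1 := hΦ.rot fun j t => (v j t, (1 : Multiplicative ℤ))
    rw [← h1]
    congr 1
    funext j
    exact (sig_inl c (v j)).symm

/-- the restriction to the tuples of degree zero -/
theorem isPhi_res {B : Type w} [CommRing B] {q : ℕ}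
    {Φ : (Fin (n + 2) → Fin q → G × Multiplicative ℤ) → B}
    (hΦ : IsPhi (c, (1 : Multiplicative ℤ)) Φ) :
    IsPhi c fun v => Φ fun j t => (v j t, (1 : Multiplicative ℤ)) where
  toIsInv := isInv_res hΦ.toIsInv
  coc v := hΦ.coc fun j t => (v j t, (1 : Multiplicative ℤ))

/-- the words in degree zero -/
private def wdI (G : Type v) [Group G] : Wd G →* Wd (G × Multiplicative ℤ) :=
  FreeMonoid.map fun a : G × ℕ => ((a.1, (1 : Multiplicative ℤ)), a.2)

private theorem wdI_let1 (x : G) (l : ℕ) : wdI G (let1 x l) = let1 (x, 1) l := rfl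

private theorem prd_wdI (W : Wd G) : prd (wdI G W) = (prd W, 1) := by
  induction W using FreeMonoid.recOn with
  | one => rw [map_one, map_one, map_one]; rfl
  | of_mul a W h =>
    have h1 : wdI G (FreeMonoid.of a) = let1 (a.1, 1) a.2 := rfl
    have h2 : prd (FreeMonoid.of a : Wd G) = a.1 := prd_let1 a.1 a.2
    rw [map_mul, map_mul, map_mul, h, h1, prd_let1, h2]
    exact Prod.ext rfl (mul_one _)

private theorem occ_wdI (i : ℕ) (W : Wd G) (y : G) :
    occ i (wdI G W) (y, 1) = (occ i W y).map fun x => (x, (1 : Multiplicative ℤ)) := by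
  induction W using FreeMonoid.recOn generalizing y with
  | one => rfl
  | of_mul a W h =>
    have h1 : wdI G (FreeMonoid.of a) = let1 (a.1, 1) a.2 := rfl
    have h2 : (FreeMonoid.of a : Wd G) = let1 a.1 a.2 := rfl
    have h3 : ((y, 1) : G × Multiplicative ℤ) * (a.1, 1) = (y * a.1, 1) :=
      Prod.ext rfl (mul_one _)
    rw [map_mul, occ_mul, h1, h2, occ_mul, prd_let1, prd_let1, h3, h, occ_let1, occ_let1,
      List.map_append]
    split_ifs <;> rfl

private theorem cnt_wdI (i : ℕ) (W : Wd G) : cnt i (wdI G W) = cnt i W := by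
  rw [← occ_length i (wdI G W) (1, 1), occ_wdI, List.length_map, occ_length]

private theorem wf_wdI {B : Type w} [CommRing B] {k q : ℕ}
    {Φ : (Fin k → Fin q → G × Multiplicative ℤ) → B} (hΦ : IsInv (c, (1 : Multiplicative ℤ)) Φ)
    (hΦ' : IsInv c fun v => Φ fun j t => (v j t, (1 : Multiplicative ℤ))) (ℓ : Fin k → ℕ)
    (W : Wd G) : wf (c, (1 : Multiplicative ℤ)) Φ ℓ (wdI G W) =
      wf c (fun v => Φ fun j t => (v j t, (1 : Multiplicative ℤ))) ℓ W := by
  by_cases h : ∀ j, cnt (ℓ j) W = q
  · by_cases h1 : ∃ u : G, u * prd W * u⁻¹ = c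
    · obtain ⟨u, hu⟩ := h1
      rw [wf_eq hΦ' ℓ W h u hu, wf_eq hΦ ℓ (wdI G W) (fun j => by rw [cnt_wdI, h j]) (u, 1) (by
        rw [prd_wdI]
        exact Prod.ext hu (by simp))]
      congr 1
      funext j t
      have h3 : (t : ℕ) < (occ (ℓ j) W u).length := by
        rw [occ_length, h j]
        exact t.2
      rw [rd, rd, occ_wdI, List.getD_eq_getElem _ _ (by rw [List.length_map]; exact h3),
        List.getD_eq_getElem _ _ h3, List.getElem_map]
    · rw [wf_of_prd _ ℓ W fun y hy => h1 ⟨y, hy⟩, wf_of_prd _ ℓ (wdI G W) fun y hy => ?_]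
      refine h1 ⟨y.1, ?_⟩
      rw [prd_wdI] at hy
      exact congrArg Prod.fst hy
  · push Not at h
    rw [wf_of_cnt _ ℓ W h, wf_of_cnt _ ℓ (wdI G W) (by
      obtain ⟨j, hj⟩ := h
      exact ⟨j, by rw [cnt_wdI]; exact hj⟩)]

/-- the elements of the free ring in degree zero -/
private noncomputable def frI (G : Type v) [Group G] (ι : Type*) [Fintype ι] [DecidableEq ι]
    (B : Type w) [CommRing B] : FR G ι B →+* FR (G × Multiplicative ℤ) ι B :=
  MonoidAlgebra.mapDomainRingHom (Matrix ι ι B) (wdI G)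

private theorem frI_single {ι : Type*} [Fintype ι] [DecidableEq ι] {B : Type w} [CommRing B]
    (W : Wd G) (A : Matrix ι ι B) :
    frI G ι B (MonoidAlgebra.single W A) = MonoidAlgebra.single (wdI G W) A :=
  MonoidAlgebra.mapDomain_single

private theorem frI_io {ι : Type*} [Fintype ι] [DecidableEq ι] {B : Type w} [CommRing B] (l : ℕ)
    (a : Matrix ι ι (MonoidAlgebra B G)) : frI G ι B (io l a) =
      io l (a.map (MonoidAlgebra.mapDomainRingHom B (MonoidHom.inl G (Multiplicative ℤ)))) := by
  induction a using mat_induction with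
  | h0 =>
    rw [map_zero, map_zero, Matrix.map_zero _ (map_zero _), map_zero]
  | hadd a b ha hb =>
    rw [map_add, map_add, ha, hb, Matrix.map_add _ (map_add _), map_add]
  | h1 i j x r =>
    have h1 : MonoidAlgebra.mapDomainRingHom B (MonoidHom.inl G (Multiplicative ℤ))
        (MonoidAlgebra.single x r) = MonoidAlgebra.single (x, 1) r :=
      MonoidAlgebra.mapDomain_single
    rw [io_single, frI_single, wdI_let1, Matrix.map_single, h1, io_single]

private theorem lam_frI {ι : Type*} [Fintype ι] [DecidableEq ι] {B : Type w} [CommRing B]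
    {Ψ : Wd (G × Multiplicative ℤ) → B} {Ψ' : Wd G → B} (h : ∀ W, Ψ (wdI G W) = Ψ' W)
    (X : FR G ι B) : lam Ψ (frI G ι B X) = lam Ψ' X := by
  induction X using MonoidAlgebra.induction_linear with
  | zero => rw [map_zero, map_zero, map_zero]
  | add X Y hX hY => rw [map_add, map_add, map_add, hX, hY]
  | single W A => rw [frI_single, lam_single, lam_single, h]

/-- matrices supported in degree zero -/
theorem TB_inl {B : Type w} [CommRing B] {ι : Type*} [Fintype ι] [DecidableEq ι] {k q : ℕ}
    {Φ : (Fin k → Fin q → G × Multiplicative ℤ) → B} (hΦ : IsInv (c, (1 : Multiplicative ℤ)) Φ)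
    (hΦ' : IsInv c fun v => Φ fun j t => (v j t, (1 : Multiplicative ℤ)))
    (b : Fin k → Matrix ι ι (MonoidAlgebra B G)) :
    TB (c, (1 : Multiplicative ℤ)) Φ (fun j => (b j).map
        (MonoidAlgebra.mapDomainRingHom B (MonoidHom.inl G (Multiplicative ℤ)))) =
      TB c (fun v => Φ fun j t => (v j t, (1 : Multiplicative ℤ))) b := by
  unfold TB
  rw [← lam_frI (wf_wdI hΦ hΦ' fun j : Fin k => (j : ℕ)), map_pow (frI G ι B),
    map_list_prod (frI G ι B), List.map_ofFn]
  simp only [Function.comp_def, frI_io]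

private theorem inl_coeff {B : Type w} [CommRing B] (a : MonoidAlgebra B G) (g : G) (d : ℤ) :
    (MonoidAlgebra.mapDomainRingHom B (MonoidHom.inl G (Multiplicative ℤ)) a).coeff
      (g, Multiplicative.ofAdd d) = if d = 0 then a.coeff g else 0 := by
  classical
  induction a using MonoidAlgebra.induction_linear with
  | zero =>
    rw [map_zero, MonoidAlgebra.coeff_zero, MonoidAlgebra.coeff_zero, Finsupp.zero_apply,
      Finsupp.zero_apply, ite_self]
  | add b b' hb hb' =>
    rw [map_add, MonoidAlgebra.coeff_add, MonoidAlgebra.coeff_add, Finsupp.add_apply,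
      Finsupp.add_apply, hb, hb']
    split_ifs
    · rfl
    · exact add_zero _
  | single x a =>
    have h1 : MonoidAlgebra.mapDomainRingHom B (MonoidHom.inl G (Multiplicative ℤ))
        (MonoidAlgebra.single x a) = MonoidAlgebra.single (x, 1) a :=
      MonoidAlgebra.mapDomain_single
    rw [h1, MonoidAlgebra.coeff_single, MonoidAlgebra.coeff_single]
    by_cases hd : d = 0
    · subst hd
      rw [if_pos rfl]
      by_cases hx : x = g
      · subst hx
        rw [Finsupp.single_eq_same]
        exact Finsupp.single_eq_same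
      · rw [Finsupp.single_eq_of_ne (Ne.symm hx), Finsupp.single_eq_of_ne]
        intro h
        exact hx (congrArg Prod.fst h).symm
    · rw [if_neg hd, Finsupp.single_eq_of_ne]
      intro h
      exact hd (congrArg Prod.snd h)

private theorem TKL_ps {ι : Type*} [Fintype ι] [DecidableEq ι] {k : ℕ}
    {Φ : (Fin (k + 1) → Fin (p ^ m) → G × Multiplicative ℤ) → L.B}
    (hΦ : IsInv (c, (1 : Multiplicative ℤ)) Φ)
    (h : Fin (k + 1) → (Matrix ι ι (MonoidAlgebra (PowerSeries K) G))ˣ) :
    TKL L c Φ (fun j => Units.map ((MonoidAlgebra.mapRingHom G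
        (HahnSeries.ofPowerSeries ℤ K)).mapMatrix.toMonoidHom) (h j)) =
      TK L c (fun v => Φ fun j t => (v j t, (1 : Multiplicative ℤ)))
        (fun j => Units.map ((MonoidAlgebra.mapRingHom G
          (PowerSeries.constantCoeff (R := K))).mapMatrix.toMonoidHom) (h j)) := by
  unfold TKL TK
  rw [← TB_inl hΦ (isInv_res hΦ)]
  refine TL_eq L hΦ _ _ ⟨0, 1, by simp, fun j => ?_, fun j => ?_⟩
  · intro x y g hg
    have h1 := inl_coeff (L.lft ((Units.map ((MonoidAlgebra.mapRingHom G
      (PowerSeries.constantCoeff (R := K))).mapMatrix.toMonoidHom) (h j))⁻¹ *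
      Units.map ((MonoidAlgebra.mapRingHom G
      (PowerSeries.constantCoeff (R := K))).mapMatrix.toMonoidHom) (h (j + 1))).val x y) g.1
      (Multiplicative.toAdd g.2)
    by_cases hd : Multiplicative.toAdd g.2 = 0
    · rw [hd]
      simp
    · rw [if_neg hd] at h1
      exact absurd h1 hg
  · intro x y g d hd
    beta_reduce
    rw [← map_inv, ← map_mul, ← map_inv, ← map_mul]
    show L.π ((MonoidAlgebra.mapDomainRingHom L.B (MonoidHom.inl G (Multiplicative ℤ))
      (L.lft _ x y)).coeff (g, Multiplicative.ofAdd d)) =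
      ((MonoidAlgebra.mapRingHom G (HahnSeries.ofPowerSeries ℤ K)
        (((h j)⁻¹ * h (j + 1)).val x y)).coeff g).coeff d
    rw [inl_coeff, MonoidAlgebra.coeff_mapRingHom]
    by_cases h0 : d = 0
    · subst h0
      rw [if_pos rfl]
      have h1 := L.red_lft (Units.map ((MonoidAlgebra.mapRingHom G
        (PowerSeries.constantCoeff (R := K))).mapMatrix.toMonoidHom) ((h j)⁻¹ * h (j + 1))).val
      have h2 := congrArg (fun Y : Matrix ι ι (MonoidAlgebra K G) => (Y x y).coeff g) h1
      have h3 : L.π ((L.lft (Units.map ((MonoidAlgebra.mapRingHom G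
        (PowerSeries.constantCoeff (R := K))).mapMatrix.toMonoidHom)
          ((h j)⁻¹ * h (j + 1))).val x y).coeff g) =
          PowerSeries.constantCoeff ((((h j)⁻¹ * h (j + 1)).val x y).coeff g) := by
        have h4 : (MonoidAlgebra.mapRingHom _ L.π (L.lft (Units.map ((MonoidAlgebra.mapRingHom G
          (PowerSeries.constantCoeff (R := K))).mapMatrix.toMonoidHom)
          ((h j)⁻¹ * h (j + 1))).val x y)).coeff g = (MonoidAlgebra.mapRingHom G
          (PowerSeries.constantCoeff (R := K)) (((h j)⁻¹ * h (j + 1)).val x y)).coeff g := h2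
        rw [MonoidAlgebra.coeff_mapRingHom, MonoidAlgebra.coeff_mapRingHom] at h4
        exact h4
      rw [h3]
      have h5 := HahnSeries.ofPowerSeries_apply_coeff (Γ := ℤ)
        ((((h j)⁻¹ * h (j + 1)).val x y).coeff g) 0
      rw [PowerSeries.coeff_zero_eq_constantCoeff_apply] at h5
      exact h5.symm
    · rw [if_neg h0, map_zero]
      symm
      have h6 := PowerSeries.coeff_coe ((((h j)⁻¹ * h (j + 1)).val x y).coeff g) d
      rw [if_pos (by omega)] at h6
      exact h6

theorem trL_ps {Φ : (Fin (n + 2) → Fin (p ^ m) → G × Multiplicative ℤ) → L.B}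
    (hΦ : IsPhi (c, (1 : Multiplicative ℤ)) Φ) (w : KQ (MonoidAlgebra (PowerSeries K) G) n) :
    trL L hΦ (KQ.map (MonoidAlgebra.mapRingHom G (HahnSeries.ofPowerSeries ℤ K)) w) =
      trT L (isPhi_res hΦ)
        (KQ.map (MonoidAlgebra.mapRingHom G (PowerSeries.constantCoeff (R := K))) w) := by
  suffices H : (trL L hΦ).comp (KQ.map (MonoidAlgebra.mapRingHom G
      (HahnSeries.ofPowerSeries ℤ K))) = (trT L (isPhi_res hΦ)).comp
        (KQ.map (MonoidAlgebra.mapRingHom G (PowerSeries.constantCoeff (R := K)))) from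
    DFunLike.congr_fun H w
  apply KQ.hom_ext
  intro N x
  rw [AddMonoidHom.comp_apply, AddMonoidHom.comp_apply, KQ.map_cls, KQ.map_cls, trL_cls, trT_cls,
    HG.ev_map, HG.ev_map]
  exact HG.ev_congr _ _ (fun h => TKL_ps L hΦ.toIsInv h) x

end

end Pool.Agent.H16.FU
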