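import Pool.Agent.H71.FQ.HG

/-!
# Project FU: the product of a homology class with a commuting element

`pri u` is the prism operator of the right multiplication by `u` on the chains of a group. For a homomorphism
`f : Γ → Λ` and an element `u` of `Λ` which commutes with its image, `HG.cr f u : H_{n+1}(Γ) → H_{n+2}(Λ)` is the product
with the class of `u`: `z` is sent to the class of `pri u (f z)`.

PROOFS. `bd_pri`: the usual identity for `P (x_0, …, x_m) = ∑ i, (-1) ^ i (x_0, …, x_i, x_i u, …, x_m u)`.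
`cr_cyc`: `bd (pri u y) = y u - y - pri u (bd y)`; for `y = f z` the tuple `(f x_j u)` is `(u f x_j)`, so `y u - y` is in
`coi`, and `pri u` maps `coi` to `coi`. `cr_mul`: `D = pri (u v) - pri u - pri v (· u)` satisfies `bd D + D bd = 0`, is
equivariant under left multiplications and hence is `bd E - E bd` (`exists_null`, recursively `E (n + 1) x =
cone over x 0 of (D x + E (bd x))`, as in `exists_homotopy`); `pri v ((f z) u) - pri v (f z)` is in `coi`.
-/

set_option autoImplicit false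

universe u v w

namespace Pool.Agent.H16.FU

open Pool.Agent.H71.FQ

section

/-- the null homotopy -/
private noncomputable def nul {X : Type v} {Y : Type w} (D : ∀ m, Cx ℤ X m →ₗ[ℤ] Cx ℤ Y (m + 1))
    (b : X → Y) : ∀ m, Cx ℤ X m →ₗ[ℤ] Cx ℤ Y (m + 2)
  | 0 => Finsupp.linearCombination ℤ fun x : Fin 1 → X =>
      cone ℤ (b (x 0)) 1 (D 0 (Finsupp.single x 1))
  | m + 1 => Finsupp.linearCombination ℤ fun x : Fin (m + 2) → X =>
      cone ℤ (b (x 0)) (m + 2) (D (m + 1) (Finsupp.single x 1) +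
        nul D b m (bd ℤ X m (Finsupp.single x 1)))

private theorem nul_zero_single {X : Type v} {Y : Type w}
    (D : ∀ m, Cx ℤ X m →ₗ[ℤ] Cx ℤ Y (m + 1)) (b : X → Y) (x : Fin 1 → X) :
    nul D b 0 (Finsupp.single x 1) = cone ℤ (b (x 0)) 1 (D 0 (Finsupp.single x 1)) := by
  rw [nul, Finsupp.linearCombination_single, one_smul]

private theorem nul_succ_single {X : Type v} {Y : Type w}
    (D : ∀ m, Cx ℤ X m →ₗ[ℤ] Cx ℤ Y (m + 1)) (b : X → Y) (m : ℕ) (x : Fin (m + 2) → X) :
    nul D b (m + 1) (Finsupp.single x 1) = cone ℤ (b (x 0)) (m + 2)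
      (D (m + 1) (Finsupp.single x 1) + nul D b m (bd ℤ X m (Finsupp.single x 1))) := by
  rw [nul, Finsupp.linearCombination_single, one_smul]

/-- A family of maps of degree one which anticommutes with the boundary is null homotopic. -/
theorem exists_null {X : Type v} {Y : Type w} (D : ∀ m, Cx ℤ X m →ₗ[ℤ] Cx ℤ Y (m + 1))
    (h0 : ∀ c, bd ℤ Y 0 (D 0 c) = 0)
    (h1 : ∀ m (c : Cx ℤ X (m + 1)), bd ℤ Y (m + 1) (D (m + 1) c) + D m (bd ℤ X m c) = 0)
    (b : X → Y) :
    ∃ E : ∀ m, Cx ℤ X m →ₗ[ℤ] Cx ℤ Y (m + 2),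
      (∀ c, bd ℤ Y 1 (E 0 c) = D 0 c) ∧
      (∀ m (c : Cx ℤ X (m + 1)), bd ℤ Y (m + 2) (E (m + 1) c) - E m (bd ℤ X m c) = D (m + 1) c) ∧
      ∀ (s : X → X) (t : Y → Y), (∀ m c, D m (push ℤ s m c) = push ℤ t (m + 1) (D m c)) →
        (∀ x, t (b x) = b (s x)) →
        ∀ m (c : Cx ℤ X m), E m (push ℤ s m c) = push ℤ t (m + 2) (E m c) := by
  have k0 : ∀ c, bd ℤ Y 1 (nul D b 0 c) = D 0 c := by
    intro c
    refine cx_ext (f := (bd ℤ Y 1).comp (nul D b 0)) (g := D 0) ?_ c
    intro x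
    rw [LinearMap.comp_apply, nul_zero_single, bd_cone, h0, map_zero, sub_zero]
  have k1 : ∀ m (c : Cx ℤ X (m + 1)),
      bd ℤ Y (m + 2) (nul D b (m + 1) c) - nul D b m (bd ℤ X m c) = D (m + 1) c := by
    intro m
    induction m with
    | zero =>
      intro c
      refine cx_ext (f := (bd ℤ Y 2).comp (nul D b 1) - (nul D b 0).comp (bd ℤ X 0))
        (g := D 1) ?_ c
      intro x
      have hw : bd ℤ Y 1 (D 1 (Finsupp.single x 1) +
          nul D b 0 (bd ℤ X 0 (Finsupp.single x 1))) = 0 := by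
        rw [map_add, k0, h1]
      rw [LinearMap.sub_apply, LinearMap.comp_apply, LinearMap.comp_apply, nul_succ_single,
        bd_cone, hw, map_zero, sub_zero, add_sub_cancel_right]
    | succ m ih =>
      intro c
      refine cx_ext (f := (bd ℤ Y (m + 3)).comp (nul D b (m + 2)) -
        (nul D b (m + 1)).comp (bd ℤ X (m + 1))) (g := D (m + 2)) ?_ c
      intro x
      have h2 := ih (bd ℤ X (m + 1) (Finsupp.single x 1))
      rw [bd_bd, map_zero, sub_zero] at h2
      have hw : bd ℤ Y (m + 2) (D (m + 2) (Finsupp.single x 1) +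
          nul D b (m + 1) (bd ℤ X (m + 1) (Finsupp.single x 1))) = 0 := by
        rw [map_add, h2, h1]
      rw [LinearMap.sub_apply, LinearMap.comp_apply, LinearMap.comp_apply, nul_succ_single,
        bd_cone, hw, map_zero, sub_zero, add_sub_cancel_right]
  refine ⟨nul D b, k0, k1, ?_⟩
  intro s t hD hb m
  induction m with
  | zero =>
    intro c
    refine cx_ext (f := (nul D b 0).comp (push ℤ s 0)) (g := (push ℤ t 2).comp (nul D b 0)) ?_ c
    intro x
    rw [LinearMap.comp_apply, LinearMap.comp_apply, push_single, nul_zero_single,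
      nul_zero_single, push_cone, hb, ← hD, push_single]
  | succ m ih =>
    intro c
    refine cx_ext (f := (nul D b (m + 1)).comp (push ℤ s (m + 1)))
      (g := (push ℤ t (m + 3)).comp (nul D b (m + 1))) ?_ c
    intro x
    rw [LinearMap.comp_apply, LinearMap.comp_apply, push_single, nul_succ_single,
      nul_succ_single, push_cone, hb, map_add (push ℤ t (m + 2)), ← hD, ← ih, ← bd_push,
      push_single]

variable {Λ : Type v} [Group Λ]

/-- the tuple `(x_0, …, x_i, x_i u, …, x_m u)` -/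
def priT (u : Λ) {m : ℕ} (x : Fin (m + 1) → Λ) (i : Fin (m + 1)) : Fin (m + 2) → Λ := fun j =>
  if i.castSucc < j then x (i.predAbove j) * u else x (i.predAbove j)

/-- the prism operator -/
noncomputable def pri (u : Λ) (m : ℕ) : Cx ℤ Λ m →ₗ[ℤ] Cx ℤ Λ (m + 1) :=
  Finsupp.linearCombination ℤ fun x : Fin (m + 1) → Λ =>
    ∑ i : Fin (m + 1), (-1 : ℤ) ^ (i : ℕ) • Finsupp.single (priT u x i) (1 : ℤ)

theorem pri_single (u : Λ) (m : ℕ) (x : Fin (m + 1) → Λ) : pri u m (Finsupp.single x 1) =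
    ∑ i : Fin (m + 1), (-1 : ℤ) ^ (i : ℕ) • Finsupp.single (priT u x i) (1 : ℤ) := by
  rw [pri, Finsupp.linearCombination_single, one_smul]

private theorem priT_cons_zero (u y : Λ) {m : ℕ} (z : Fin (m + 1) → Λ) :
    priT u (Fin.cons y z : Fin (m + 2) → Λ) 0 =
      (Fin.cons y fun j => (Fin.cons y z : Fin (m + 2) → Λ) j * u : Fin (m + 3) → Λ) := by
  funext j
  refine Fin.cases ?_ (fun k => ?_) j
  · unfold priT
    rw [if_neg (by simp)]
    simp
  · unfold priT
    rw [if_pos (by simp)]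
    simp

private theorem priT_cons_succ (u y : Λ) {m : ℕ} (z : Fin (m + 1) → Λ) (i : Fin (m + 1)) :
    priT u (Fin.cons y z : Fin (m + 2) → Λ) i.succ =
      (Fin.cons y (priT u z i) : Fin (m + 3) → Λ) := by
  funext j
  refine Fin.cases ?_ (fun k => ?_) j
  · unfold priT
    rw [if_neg (by simp)]
    simp
  · rw [Fin.cons_succ]
    unfold priT
    rw [Fin.succ_predAbove_succ, Fin.cons_succ]
    have h : i.succ.castSucc < k.succ ↔ i.castSucc < k := by
      rw [← Fin.succ_castSucc, Fin.succ_lt_succ_iff]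
    by_cases h1 : i.castSucc < k
    · rw [if_pos h1, if_pos (h.2 h1)]
    · rw [if_neg h1, if_neg (fun h2 => h1 (h.1 h2))]

private theorem pri_cone (u y : Λ) (m : ℕ) (c : Cx ℤ Λ m) :
    pri u (m + 1) (cone ℤ y m c) =
      cone ℤ y (m + 1) (push ℤ (fun y => y * u) (m + 1) (cone ℤ y m c)) -
        cone ℤ y (m + 1) (pri u m c) := by
  refine cx_ext (f := (pri u (m + 1)).comp (cone ℤ y m))
    (g := (cone ℤ y (m + 1)).comp ((push ℤ (fun y => y * u) (m + 1)).comp (cone ℤ y m)) -
      (cone ℤ y (m + 1)).comp (pri u m)) ?_ c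
  intro z
  simp only [LinearMap.comp_apply, LinearMap.sub_apply]
  rw [cone_single, push_single, cone_single, pri_single, pri_single, Fin.sum_univ_succ, map_sum,
    sub_eq_add_neg, ← Finset.sum_neg_distrib, priT_cons_zero, Fin.val_zero, pow_zero, one_smul]
  congr 1
  refine Finset.sum_congr rfl fun i _ => ?_
  rw [priT_cons_succ, map_smul, cone_single, Fin.val_succ, pow_succ, mul_neg_one, neg_smul]

theorem bd_pri_zero (u : Λ) (c : Cx ℤ Λ 0) :
    bd ℤ Λ 0 (pri u 0 c) = push ℤ (fun y => y * u) 0 c - c := by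
  refine cx_ext (f := (bd ℤ Λ 0).comp (pri u 0))
    (g := push ℤ (fun y => y * u) 0 - LinearMap.id) ?_ c
  intro x
  simp only [LinearMap.comp_apply, LinearMap.sub_apply, LinearMap.id_apply]
  rw [pri_single, push_single, Fin.sum_univ_one, Fin.val_zero, pow_zero, one_smul, bd_single,
    Fin.sum_univ_two, Fin.val_zero, Fin.val_one, pow_zero, pow_one, one_smul, neg_one_smul,
    ← sub_eq_add_neg]
  have e1 : (fun j => priT u x 0 (Fin.succAbove 0 j)) = fun j => x j * u := by
    funext j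
    have hj : j = 0 := Fin.eq_zero j
    subst hj
    unfold priT
    rw [if_pos (by decide)]
    rfl
  have e2 : (fun j => priT u x 0 (Fin.succAbove 1 j)) = x := by
    funext j
    have hj : j = 0 := Fin.eq_zero j
    subst hj
    unfold priT
    rw [if_neg (by decide)]
    rfl
  rw [e1, e2]

omit [Group Λ] in
private theorem single_eq_cone {m : ℕ} (x : Fin (m + 2) → Λ) :
    (Finsupp.single x 1 : Cx ℤ Λ (m + 1)) =
      cone ℤ (x 0) m (Finsupp.single (Fin.tail x : Fin (m + 1) → Λ) 1) := by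
  rw [cone_single, Fin.cons_self_tail]

private theorem bd_pri_cone_zero (u y : Λ) (c : Cx ℤ Λ 0) :
    bd ℤ Λ 1 (pri u 1 (cone ℤ y 0 c)) + pri u 0 (bd ℤ Λ 0 (cone ℤ y 0 c)) =
      push ℤ (fun y => y * u) 1 (cone ℤ y 0 c) - cone ℤ y 0 c := by
  have h1 : pri u 0 (Finsupp.single (fun _ => y) (1 : ℤ)) =
      cone ℤ y 0 (push ℤ (fun y => y * u) 0 (Finsupp.single (fun _ => y) (1 : ℤ))) := by
    rw [push_single, cone_single, pri_single, Fin.sum_univ_one, Fin.val_zero, pow_zero, one_smul]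
    congr 1
    funext j
    refine Fin.cases ?_ (fun k => ?_) j
    · unfold priT
      rw [if_neg (by simp)]
      simp
    · unfold priT
      rw [if_pos (by simp)]
      simp
  rw [pri_cone, map_sub, bd_cone, bd_cone, bd_push, bd_pri_zero, bd_cone_zero]
  simp only [map_sub, map_smul]
  rw [h1]
  abel

theorem bd_pri (u : Λ) (m : ℕ) (c : Cx ℤ Λ (m + 1)) :
    bd ℤ Λ (m + 1) (pri u (m + 1) c) + pri u m (bd ℤ Λ m c) =
      push ℤ (fun y => y * u) (m + 1) c - c := by
  induction m with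
  | zero =>
    refine cx_ext (f := (bd ℤ Λ 1).comp (pri u 1) + (pri u 0).comp (bd ℤ Λ 0))
      (g := push ℤ (fun y => y * u) 1 - LinearMap.id) ?_ c
    intro x
    rw [single_eq_cone]
    exact bd_pri_cone_zero u (x 0) _
  | succ m ih =>
    refine cx_ext (f := (bd ℤ Λ (m + 2)).comp (pri u (m + 2)) +
      (pri u (m + 1)).comp (bd ℤ Λ (m + 1)))
      (g := push ℤ (fun y => y * u) (m + 2) - LinearMap.id) ?_ c
    intro x
    rw [single_eq_cone]
    set y : Λ := x 0 with hy
    set d : Cx ℤ Λ (m + 1) := Finsupp.single (Fin.tail x : Fin (m + 2) → Λ) 1 with hd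
    simp only [LinearMap.comp_apply, LinearMap.sub_apply, LinearMap.add_apply, LinearMap.id_apply]
    rw [pri_cone, map_sub, bd_cone, bd_cone, bd_push, bd_cone, map_sub (pri u (m + 1)), pri_cone,
      map_sub (push ℤ (fun y => y * u) (m + 1))]
    have e1 : cone ℤ y (m + 1) (bd ℤ Λ (m + 1) (pri u (m + 1) d)) +
        cone ℤ y (m + 1) (pri u m (bd ℤ Λ m d)) =
        cone ℤ y (m + 1) (push ℤ (fun y => y * u) (m + 1) d) - cone ℤ y (m + 1) d := by
      rw [← map_add, ih d, map_sub]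
    rw [map_sub (cone ℤ y (m + 1))]
    have e2 : cone ℤ y (m + 1) (bd ℤ Λ (m + 1) (pri u (m + 1) d)) =
        cone ℤ y (m + 1) (push ℤ (fun y => y * u) (m + 1) d) - cone ℤ y (m + 1) d -
          cone ℤ y (m + 1) (pri u m (bd ℤ Λ m d)) := by
      rw [← e1]
      abel
    rw [e2]
    abel

theorem pri_lmul (u g : Λ) (m : ℕ) (c : Cx ℤ Λ m) :
    pri u m (push ℤ (fun y => g * y) m c) = push ℤ (fun y => g * y) (m + 1) (pri u m c) := by
  refine cx_ext (f := (pri u m).comp (push ℤ (fun y => g * y) m))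
    (g := (push ℤ (fun y => g * y) (m + 1)).comp (pri u m)) ?_ c
  intro x
  rw [LinearMap.comp_apply, LinearMap.comp_apply, push_single, pri_single, pri_single, map_sum]
  refine Finset.sum_congr rfl fun i _ => ?_
  rw [map_smul, push_single]
  congr 2
  funext j
  unfold priT
  split_ifs
  · exact mul_assoc _ _ _
  · rfl

theorem pri_coi (u : Λ) {m : ℕ} {c : Cx ℤ Λ m} (hc : c ∈ coi Λ m) : pri u m c ∈ coi Λ (m + 1) := by
  refine coi_le_comap (pri u m) (coi Λ (m + 1)) ?_ hc
  intro g x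
  have h := pri_lmul u g m (Finsupp.single x 1)
  rw [push_single] at h
  rw [h]
  exact push_lmul_sub_mem g _

/-- the right multiplication by `u` on the image of a homomorphism which commutes with `u` -/
private theorem rmul_sub_mem {Γ : Type w} [Group Γ] (f : Γ →* Λ) (u : Λ)
    (hu : ∀ γ, f γ * u = u * f γ) (m : ℕ) (c : Cx ℤ Γ m) :
    push ℤ (fun y => y * u) m (push ℤ f m c) - push ℤ f m c ∈ coi Λ m := by
  have e1 : push ℤ (fun y => y * u) m (push ℤ f m c) =
      push ℤ (fun y => u * y) m (push ℤ f m c) := by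
    rw [push_push, push_push]
    congr 2
    funext x
    exact hu x
  rw [e1]
  exact push_lmul_sub_mem u _

variable {Γ : Type w} [Group Γ] {n : ℕ}

theorem cr_cyc (f : Γ →* Λ) (u : Λ) (hu : ∀ γ, f γ * u = u * f γ) {c : Cx ℤ Γ (n + 1)}
    (hc : c ∈ cyc Γ n) : pri u (n + 1) (push ℤ f (n + 1) c) ∈ cyc Λ (n + 1) := by
  show bd ℤ Λ (n + 1) (pri u (n + 1) (push ℤ f (n + 1) c)) ∈ coi Λ (n + 1)
  have e1 := bd_pri u n (push ℤ f (n + 1) c)
  have e2 : bd ℤ Λ (n + 1) (pri u (n + 1) (push ℤ f (n + 1) c)) =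
      (push ℤ (fun y => y * u) (n + 1) (push ℤ f (n + 1) c) - push ℤ f (n + 1) c) -
        pri u n (bd ℤ Λ n (push ℤ f (n + 1) c)) := by
    rw [← e1]
    abel
  rw [e2]
  exact Submodule.sub_mem _ (rmul_sub_mem f u hu (n + 1) c) (pri_coi u (push_cyc f hc))

theorem cr_bnd (f : Γ →* Λ) (u : Λ) (hu : ∀ γ, f γ * u = u * f γ) {c : Cx ℤ Γ (n + 1)}
    (hc : c ∈ bnd Γ n) : pri u (n + 1) (push ℤ f (n + 1) c) ∈ bnd Λ (n + 1) := by
  obtain ⟨_, ⟨b, rfl⟩, d, hd, rfl⟩ := Submodule.mem_sup.1 hc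
  have e1 := bd_pri u (n + 1) (push ℤ f (n + 2) b)
  have e2 : pri u (n + 1) (push ℤ f (n + 1) (bd ℤ Γ (n + 1) b + d)) =
      bd ℤ Λ (n + 2) (-(pri u (n + 2) (push ℤ f (n + 2) b))) +
        ((push ℤ (fun y => y * u) (n + 2) (push ℤ f (n + 2) b) - push ℤ f (n + 2) b) +
          pri u (n + 1) (push ℤ f (n + 1) d)) := by
    rw [← e1, map_add, map_add, ← bd_push, map_neg]
    abel
  rw [e2]
  exact Submodule.add_mem_sup (LinearMap.mem_range_self _ _)
    (Submodule.add_mem _ (rmul_sub_mem f u hu (n + 2) b) (pri_coi u (push_coi f hd)))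

/-- **The product of a homology class with a commuting element.** -/
noncomputable def HG.cr (f : Γ →* Λ) (u : Λ) (hu : ∀ γ, f γ * u = u * f γ) :
    HG Γ n →+ HG Λ (n + 1) :=
  (Submodule.mapQ ((bnd Γ n).comap (cyc Γ n).subtype)
    ((bnd Λ (n + 1)).comap (cyc Λ (n + 1)).subtype)
    (((pri u (n + 1)).comp (push ℤ f (n + 1))).restrict fun _ hc => cr_cyc f u hu hc)
    fun _ hc => cr_bnd f u hu hc).toAddMonoidHom

theorem HG.cr_mk (f : Γ →* Λ) (u : Λ) (hu : ∀ γ, f γ * u = u * f γ) (z : cyc Γ n) :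
    HG.cr f u hu (HG.mk z) = HG.mk ⟨pri u (n + 1) (push ℤ f (n + 1) z), cr_cyc f u hu z.2⟩ := rfl

theorem HG.cr_mul (f : Γ →* Λ) (u v : Λ) (hu : ∀ γ, f γ * u = u * f γ)
    (hv : ∀ γ, f γ * v = v * f γ) (huv : ∀ γ, f γ * (u * v) = u * v * f γ) (z : HG Γ n) :
    HG.cr f (u * v) huv z = HG.cr f u hu z + HG.cr f v hv z := by
  obtain ⟨z, rfl⟩ := HG.mk_surjective z
  rw [HG.cr_mk, HG.cr_mk, HG.cr_mk, ← HG.mk_add, HG.mk_eq_iff]
  set y : Cx ℤ Λ (n + 1) := push ℤ f (n + 1) (z : Cx ℤ Γ (n + 1)) with hy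
  show pri (u * v) (n + 1) y - (pri u (n + 1) y + pri v (n + 1) y) ∈ bnd Λ (n + 1)
  set D : ∀ m, Cx ℤ Λ m →ₗ[ℤ] Cx ℤ Λ (m + 1) := fun m =>
    pri (u * v) m - pri u m - (pri v m).comp (push ℤ (fun y => y * u) m) with hD
  have hDa : ∀ m (c : Cx ℤ Λ m), D m c =
      pri (u * v) m c - pri u m c - pri v m (push ℤ (fun y => y * u) m c) := fun _ _ => rfl
  have hpp : ∀ m (c : Cx ℤ Λ m), push ℤ (fun y => y * v) m (push ℤ (fun y => y * u) m c) =
      push ℤ (fun y => y * (u * v)) m c := by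
    intro m c
    rw [push_push]
    congr 2
    funext x
    exact mul_assoc _ _ _
  have h0 : ∀ c, bd ℤ Λ 0 (D 0 c) = 0 := by
    intro c
    rw [hDa, map_sub, map_sub, bd_pri_zero, bd_pri_zero, bd_pri_zero, hpp]
    abel
  have h1 : ∀ m (c : Cx ℤ Λ (m + 1)), bd ℤ Λ (m + 1) (D (m + 1) c) + D m (bd ℤ Λ m c) = 0 := by
    intro m c
    have e1 := bd_pri (u * v) m c
    have e2 := bd_pri u m c
    have e3 := bd_pri v m (push ℤ (fun y => y * u) (m + 1) c)
    rw [hpp, bd_push] at e3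
    have e4 : bd ℤ Λ (m + 1) (D (m + 1) c) + D m (bd ℤ Λ m c) =
        (bd ℤ Λ (m + 1) (pri (u * v) (m + 1) c) + pri (u * v) m (bd ℤ Λ m c)) -
        (bd ℤ Λ (m + 1) (pri u (m + 1) c) + pri u m (bd ℤ Λ m c)) -
        (bd ℤ Λ (m + 1) (pri v (m + 1) (push ℤ (fun y => y * u) (m + 1) c)) +
          pri v m (push ℤ (fun y => y * u) m (bd ℤ Λ m c))) := by
      rw [hDa, hDa, map_sub, map_sub]
      abel
    rw [e4, e1, e2, e3]
    abel
  obtain ⟨E, -, k1, k2⟩ := exists_null D h0 h1 fun x => x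
  have hlm : ∀ (g : Λ) m (c : Cx ℤ Λ m), D m (push ℤ (fun y => g * y) m c) =
      push ℤ (fun y => g * y) (m + 1) (D m c) := by
    intro g m c
    have e1 : push ℤ (fun y => y * u) m (push ℤ (fun y => g * y) m c) =
        push ℤ (fun y => g * y) m (push ℤ (fun y => y * u) m c) := by
      rw [push_push, push_push]
      congr 2
      funext x
      exact mul_assoc _ _ _
    rw [hDa, hDa, pri_lmul, pri_lmul, e1, pri_lmul, map_sub, map_sub]
  have hE : E n (bd ℤ Λ n y) ∈ coi Λ (n + 2) := by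
    refine equi_coi (MonoidHom.id Λ) (E n) (fun g c => ?_) (push_cyc f z.2)
    exact k2 (fun y => g * y) (fun y => g * y) (hlm g) (fun _ => rfl) n c
  have hv2 : pri v (n + 1) (push ℤ (fun y => y * u) (n + 1) y - y) ∈ coi Λ (n + 2) := by
    refine pri_coi v ?_
    have e1 : push ℤ (fun y => y * u) (n + 1) y = push ℤ (fun y => u * y) (n + 1) y := by
      rw [hy, push_push, push_push]
      congr 2
      funext x
      exact hu x
    rw [e1]
    exact push_lmul_sub_mem u y
  have e5 : pri (u * v) (n + 1) y - (pri u (n + 1) y + pri v (n + 1) y) =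
      bd ℤ Λ (n + 2) (E (n + 1) y) +
        (pri v (n + 1) (push ℤ (fun y => y * u) (n + 1) y - y) - E n (bd ℤ Λ n y)) := by
    have e6 := k1 n y
    rw [hDa] at e6
    have e7 : bd ℤ Λ (n + 2) (E (n + 1) y) = E n (bd ℤ Λ n y) +
        (pri (u * v) (n + 1) y - pri u (n + 1) y -
          pri v (n + 1) (push ℤ (fun y => y * u) (n + 1) y)) := by
      rw [← e6]
      abel
    rw [e7, map_sub]
    abel
  rw [e5]
  exact Submodule.add_mem_sup (LinearMap.mem_range_self _ _) (Submodule.sub_mem _ hv2 hE)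

theorem HG.cr_one (f : Γ →* Λ) (h : ∀ γ, f γ * 1 = 1 * f γ) (z : HG Γ n) :
    HG.cr f 1 h z = 0 := by
  have h' : ∀ γ, f γ * (1 * 1) = 1 * 1 * f γ := by
    intro γ
    rw [mul_one (1 : Λ)]
    exact h γ
  have e1 := HG.cr_mul f 1 1 h h h' z
  have e2 : ∀ (w : Λ) (_ : w = 1) (hw : ∀ γ, f γ * w = w * f γ),
      HG.cr f w hw z = HG.cr f 1 h z := by
    intro w hw h2
    subst hw
    rfl
  rw [e2 (1 * 1) (mul_one 1) h'] at e1
  exact left_eq_add.1 e1

theorem HG.cr_comp {Γ' : Type*} [Group Γ'] (f : Γ →* Λ) (g : Γ' →* Γ) (u : Λ)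
    (hu : ∀ γ, f γ * u = u * f γ) (h : ∀ γ, (f.comp g) γ * u = u * (f.comp g) γ) (z : HG Γ' n) :
    HG.cr (f.comp g) u h z = HG.cr f u hu (HG.map n g z) := by
  obtain ⟨z, rfl⟩ := HG.mk_surjective z
  rw [HG.map_mk, HG.cr_mk, HG.cr_mk]
  congr 1
  apply Subtype.ext
  exact congrArg (pri u (n + 1)) (push_push (R := ℤ) g f (n + 1) (z : Cx ℤ Γ' (n + 1))).symm

theorem push_pri {Λ' : Type*} [Group Λ'] (g : Λ →* Λ') (u : Λ) (m : ℕ) (c : Cx ℤ Λ m) :
    push ℤ g (m + 1) (pri u m c) = pri (g u) m (push ℤ g m c) := by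
  refine cx_ext (f := (push ℤ g (m + 1)).comp (pri u m)) (g := (pri (g u) m).comp (push ℤ g m)) ?_ c
  intro x
  rw [LinearMap.comp_apply, LinearMap.comp_apply, push_single, pri_single, pri_single, map_sum]
  refine Finset.sum_congr rfl fun i _ => ?_
  rw [map_smul, push_single]
  congr 2
  funext j
  unfold priT
  split_ifs
  · exact map_mul g _ _
  · rfl

theorem HG.map_cr {Λ' : Type*} [Group Λ'] (f : Γ →* Λ) (g : Λ →* Λ') (u : Λ)
    (hu : ∀ γ, f γ * u = u * f γ) (h : ∀ γ, (g.comp f) γ * g u = g u * (g.comp f) γ) (z : HG Γ n) :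
    HG.map (n + 1) g (HG.cr f u hu z) = HG.cr (g.comp f) (g u) h z := by
  obtain ⟨z, rfl⟩ := HG.mk_surjective z
  rw [HG.cr_mk, HG.cr_mk, HG.map_mk]
  congr 1
  apply Subtype.ext
  show push ℤ g (n + 1 + 1) (pri u (n + 1) (push ℤ f (n + 1) (z : Cx ℤ Γ (n + 1)))) =
    pri (g u) (n + 1) (push ℤ (g.comp f) (n + 1) (z : Cx ℤ Γ (n + 1)))
  rw [push_pri]
  exact congrArg (pri (g u) (n + 1)) (push_push (R := ℤ) f g (n + 1) (z : Cx ℤ Γ (n + 1)))

/-- The product with the generator of the second factor of `Γ × ℤ`. -/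
noncomputable def HG.crz (Γ : Type w) [Group Γ] (n : ℕ) :
    HG Γ n →+ HG (Γ × Multiplicative ℤ) (n + 1) :=
  HG.cr (MonoidHom.inl Γ (Multiplicative ℤ)) (1, Multiplicative.ofAdd 1) fun γ => by
    ext <;> simp

/-- the homomorphism `(γ, i) ↦ f γ * u ^ i` -/
def zhom (f : Γ →* Λ) (u : Λ) (hu : ∀ γ, f γ * u = u * f γ) : Γ × Multiplicative ℤ →* Λ where
  toFun x := f x.1 * u ^ (Multiplicative.toAdd x.2)
  map_one' := by
    show f 1 * u ^ (0 : ℤ) = 1
    rw [map_one, zpow_zero, mul_one]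
  map_mul' x y := by
    show f (x.1 * y.1) * u ^ (Multiplicative.toAdd x.2 + Multiplicative.toAdd y.2) =
      f x.1 * u ^ Multiplicative.toAdd x.2 * (f y.1 * u ^ Multiplicative.toAdd y.2)
    have h : f y.1 * u ^ Multiplicative.toAdd x.2 = u ^ Multiplicative.toAdd x.2 * f y.1 :=
      Commute.zpow_right (hu y.1) _
    rw [map_mul, zpow_add, mul_assoc, mul_assoc, ← mul_assoc (f y.1), h, mul_assoc]

theorem HG.cr_eq_map (f : Γ →* Λ) (u : Λ) (hu : ∀ γ, f γ * u = u * f γ) (z : HG Γ n) :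
    HG.cr f u hu z = HG.map (n + 1) (zhom f u hu) (HG.crz Γ n z) := by
  have h1 : (zhom f u hu).comp (MonoidHom.inl Γ (Multiplicative ℤ)) = f := by
    ext γ
    show f γ * u ^ (0 : ℤ) = f γ
    rw [zpow_zero, mul_one]
  have h2 : zhom f u hu (1, Multiplicative.ofAdd 1) = u := by
    show f 1 * u ^ (1 : ℤ) = u
    rw [map_one, zpow_one, one_mul]
  have h3 : ∀ γ, ((zhom f u hu).comp (MonoidHom.inl Γ (Multiplicative ℤ))) γ *
      zhom f u hu (1, Multiplicative.ofAdd 1) = zhom f u hu (1, Multiplicative.ofAdd 1) *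
        ((zhom f u hu).comp (MonoidHom.inl Γ (Multiplicative ℤ))) γ := by
    rw [h1, h2]
    exact hu
  have h4 : ∀ (f' : Γ →* Λ) (w : Λ), f' = f → w = u → ∀ h : ∀ γ, f' γ * w = w * f' γ,
      HG.cr f u hu z = HG.cr f' w h z := by
    intro f' w hf hw h
    subst hf hw
    rfl
  rw [HG.crz, HG.map_cr _ _ _ _ h3]
  exact h4 _ _ h1 h2 h3

/-- a homomorphism which does not depend on the second factor -/
theorem HG.map_crz_zero (g : Γ × Multiplicative ℤ →* Λ)
    (hg : ∀ x, g x = g (x.1, 1)) (z : HG Γ n) : HG.map (n + 1) g (HG.crz Γ n z) = 0 := by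
  have h2 : g (1, Multiplicative.ofAdd 1) = 1 := by
    rw [hg]
    exact map_one g
  have h3 : ∀ γ, (g.comp (MonoidHom.inl Γ (Multiplicative ℤ))) γ *
      g (1, Multiplicative.ofAdd 1) = g (1, Multiplicative.ofAdd 1) *
        (g.comp (MonoidHom.inl Γ (Multiplicative ℤ))) γ := by
    rw [h2]
    intro γ
    rw [mul_one, one_mul]
  rw [HG.crz, HG.map_cr _ _ _ _ h3]
  have h4 : ∀ (w : Λ) (hw : w = 1) (h : ∀ γ, (g.comp (MonoidHom.inl Γ (Multiplicative ℤ))) γ * w =
      w * (g.comp (MonoidHom.inl Γ (Multiplicative ℤ))) γ),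
      HG.cr (g.comp (MonoidHom.inl Γ (Multiplicative ℤ))) w h z = 0 := by
    intro w hw h
    subst hw
    exact HG.cr_one _ h z
  exact h4 _ h2 h3

end

section

variable {Γ : Type w} [Group Γ] {n : ℕ} {M : Type u} [CommRing M]

/-- the cup product of a cocycle with the degree -/
def cupd (φ : (Fin (n + 2) → Γ) → M) (x : Fin (n + 3) → Γ × Multiplicative ℤ) : M :=
  φ (fun j => (x j.castSucc).1) *
    ((Multiplicative.toAdd ((x (Fin.last (n + 1)).castSucc).2⁻¹ * (x (Fin.last (n + 2))).2) : ℤ) : M)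

theorem isCoc_cupd {φ : (Fin (n + 2) → Γ) → M} (hφ : IsCoc Γ n φ) :
    IsCoc (Γ × Multiplicative ℤ) (n + 1) (cupd φ) := by
  refine ⟨fun g x => ?_, fun x => ?_⟩
  · unfold cupd
    have h1 : φ (fun j => (g * x j.castSucc).1) = φ fun j => (x j.castSucc).1 :=
      hφ.inv g.1 fun j => (x j.castSucc).1
    have h2 : (g * x (Fin.last (n + 1)).castSucc).2⁻¹ * (g * x (Fin.last (n + 2))).2 =
        (x (Fin.last (n + 1)).castSucc).2⁻¹ * (x (Fin.last (n + 2))).2 := by
      rw [Prod.snd_mul, Prod.snd_mul, _root_.mul_inv_rev, mul_assoc, inv_mul_cancel_left]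
    rw [h1, h2]
  · set dg : Γ × Multiplicative ℤ → M := fun y => ((Multiplicative.toAdd y.2 : ℤ) : M) with hdg
    have hc : ∀ y : Fin (n + 3) → Γ × Multiplicative ℤ, cupd φ y =
        φ (fun j => (y j.castSucc).1) *
          (dg (y (Fin.last (n + 2))) - dg (y (Fin.last (n + 1)).castSucc)) := by
      intro y
      unfold cupd
      rw [hdg]
      congr 1
      rw [toAdd_mul, toAdd_inv]
      push_cast
      ring
    have h0 := hφ.coc fun j => (x j.castSucc).1
    rw [Fin.sum_univ_castSucc] at h0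
    rw [Fin.sum_univ_castSucc, Fin.sum_univ_castSucc]
    have e1 : ∀ i : Fin (n + 2), (-1 : ℤ) ^ ((i.castSucc.castSucc : Fin (n + 4)) : ℕ) •
        cupd φ (fun j => x (i.castSucc.castSucc.succAbove j)) =
        ((-1 : ℤ) ^ ((i.castSucc : Fin (n + 3)) : ℕ) •
          φ (fun j => (x (i.castSucc.succAbove j).castSucc).1)) *
          (dg (x (Fin.last (n + 3))) - dg (x (Fin.last (n + 2)).castSucc)) := by
      intro i
      rw [hc, smul_mul_assoc]
      have a1 : (fun j : Fin (n + 2) => (x (i.castSucc.castSucc.succAbove j.castSucc)).1) =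
          fun j => (x (i.castSucc.succAbove j).castSucc).1 := by
        funext j
        rw [Fin.castSucc_succAbove_castSucc]
      have a2 : (i.castSucc.castSucc : Fin (n + 4)).succAbove (Fin.last (n + 2)) =
          Fin.last (n + 3) := by
        rw [Fin.succAbove_of_le_castSucc, Fin.succ_last]
        rw [Fin.le_def]
        simp only [Fin.val_castSucc, Fin.val_last]
        have := i.2
        omega
      have a3 : (i.castSucc.castSucc : Fin (n + 4)).succAbove (Fin.last (n + 1)).castSucc =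
          (Fin.last (n + 2)).castSucc := by
        rw [Fin.succAbove_of_le_castSucc]
        · rfl
        · rw [Fin.le_def]
          simp only [Fin.val_castSucc, Fin.val_last]
          have := i.2
          omega
      rw [a1, a2, a3]
      rfl
    have e2 : cupd φ (fun j => x ((Fin.last (n + 2)).castSucc.succAbove j)) =
        φ (fun j => (x ((Fin.last (n + 2)).succAbove j).castSucc).1) *
          (dg (x (Fin.last (n + 3))) - dg (x (Fin.last (n + 1)).castSucc.castSucc)) := by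
      rw [hc]
      have a1 : (fun j : Fin (n + 2) => (x ((Fin.last (n + 2)).castSucc.succAbove j.castSucc)).1) =
          fun j => (x ((Fin.last (n + 2)).succAbove j).castSucc).1 := by
        funext j
        rw [Fin.castSucc_succAbove_castSucc]
      have a2 : ((Fin.last (n + 2)).castSucc : Fin (n + 4)).succAbove (Fin.last (n + 2)) =
          Fin.last (n + 3) := by
        rw [Fin.succAbove_of_le_castSucc _ _ le_rfl, Fin.succ_last]
      have a3 : ((Fin.last (n + 2)).castSucc : Fin (n + 4)).succAbove (Fin.last (n + 1)).castSucc =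
          (Fin.last (n + 1)).castSucc.castSucc := by
        rw [Fin.succAbove_of_castSucc_lt]
        rw [Fin.lt_def]
        simp only [Fin.val_castSucc, Fin.val_last]
        omega
      rw [a1, a2, a3]
    have e3 : cupd φ (fun j => x ((Fin.last (n + 3)).succAbove j)) =
        φ (fun j => (x ((Fin.last (n + 2)).succAbove j).castSucc).1) *
          (dg (x (Fin.last (n + 2)).castSucc) - dg (x (Fin.last (n + 1)).castSucc.castSucc)) := by
      rw [hc]
      have a1 : (fun j : Fin (n + 2) => (x ((Fin.last (n + 3)).succAbove j.castSucc)).1) =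
          fun j => (x ((Fin.last (n + 2)).succAbove j).castSucc).1 := by
        funext j
        rw [Fin.succAbove_last, Fin.succAbove_last]
      rw [a1]
      simp only [Fin.succAbove_last]
    rw [Finset.sum_congr rfl fun i _ => e1 i, e2, e3, ← Finset.sum_mul]
    have h4 : ∑ i : Fin (n + 2), (-1 : ℤ) ^ ((i.castSucc : Fin (n + 3)) : ℕ) •
        φ (fun j => (x (i.castSucc.succAbove j).castSucc).1) =
        -((-1 : ℤ) ^ ((Fin.last (n + 2) : Fin (n + 3)) : ℕ) •
          φ (fun j => (x ((Fin.last (n + 2)).succAbove j).castSucc).1)) :=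
      eq_neg_of_add_eq_zero_left h0
    rw [h4]
    simp only [Fin.val_castSucc, Fin.val_last, zsmul_eq_mul]
    push_cast
    ring

theorem HG.ev_cupd {φ : (Fin (n + 2) → Γ) → M} (hφ : IsCoc Γ n φ) (z : HG Γ n) :
    HG.ev (isCoc_cupd hφ) (HG.crz Γ n z) = (-1 : M) ^ (n + 1) * HG.ev hφ z := by
  obtain ⟨z, rfl⟩ := HG.mk_surjective z
  rw [HG.crz, HG.cr_mk, HG.ev_mk, HG.ev_mk]
  have h : (Finsupp.linearCombination ℤ (cupd φ)).comp
      ((pri ((1 : Γ), Multiplicative.ofAdd (1 : ℤ)) (n + 1)).comp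
        (push ℤ (MonoidHom.inl Γ (Multiplicative ℤ)) (n + 1))) =
      (AddMonoidHom.mulLeft ((-1 : M) ^ (n + 1))).toIntLinearMap.comp
        (Finsupp.linearCombination ℤ φ) := by
    refine Finsupp.lhom_ext' fun x => LinearMap.ext_ring ?_
    simp only [LinearMap.comp_apply, Finsupp.lsingle_apply]
    rw [push_single, pri_single, map_sum, Fin.sum_univ_castSucc]
    have e1 : ∀ i : Fin (n + 1), cupd φ (priT ((1 : Γ), Multiplicative.ofAdd (1 : ℤ))
        (fun j => MonoidHom.inl Γ (Multiplicative ℤ) (x j)) i.castSucc) = 0 := by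
      intro i
      unfold cupd priT
      rw [if_pos (by
        rw [Fin.lt_def]
        simp only [Fin.val_castSucc, Fin.val_last]
        have := i.2
        omega), if_pos (by
        rw [Fin.lt_def]
        simp only [Fin.val_castSucc, Fin.val_last]
        have := i.2
        omega)]
      simp
    have e2 : cupd φ (priT ((1 : Γ), Multiplicative.ofAdd (1 : ℤ))
        (fun j => MonoidHom.inl Γ (Multiplicative ℤ) (x j)) (Fin.last (n + 1))) = φ x := by
      unfold cupd priT
      rw [if_neg (by simp), if_pos (by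
        rw [Fin.lt_def]
        simp only [Fin.val_castSucc, Fin.val_last]
        omega)]
      have a1 : (fun j : Fin (n + 2) => (if (Fin.last (n + 1)).castSucc < j.castSucc then
          MonoidHom.inl Γ (Multiplicative ℤ) (x ((Fin.last (n + 1)).predAbove j.castSucc)) *
            ((1 : Γ), Multiplicative.ofAdd (1 : ℤ)) else
          MonoidHom.inl Γ (Multiplicative ℤ) (x ((Fin.last (n + 1)).predAbove j.castSucc))).1) =
          x := by
        funext j
        rw [if_neg (by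
          rw [Fin.lt_def]
          simp only [Fin.val_castSucc, Fin.val_last]
          have := j.2
          omega), Fin.predAbove_castSucc_of_le _ _ (Fin.le_last j)]
        rfl
      rw [a1]
      simp
    simp only [map_smul, Finsupp.linearCombination_single, one_smul]
    rw [Finset.sum_congr rfl fun i _ => by rw [e1 i, smul_zero], Finset.sum_const_zero, zero_add,
      e2]
    show _ = (-1 : M) ^ (n + 1) * φ x
    rw [zsmul_eq_mul, Fin.val_last]
    push_cast
    rfl
  exact LinearMap.congr_fun h (z : Cx ℤ Γ (n + 1))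

end

end Pool.Agent.H16.FU
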