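import Pool.Agent.H16.FU.Lau2
import Pool.Agent.H16.FU.Pri
import Pool.Agent.H71.FQ.Tors

/-!
# Project FU: the functionals for `K((t))[G]`

For `c ∈ G` of finite order and a cocycle `φ` of its centralizer, `cz φ` is the cocycle `φ ∪ deg` of the centralizer
of `(c, 0)` in `G × ℤ`; `nuz ν` are the measures: for a tuple `v` in `G × ℤ` the measure `ν (v.1)` in the least degree
of the components of `v`. `dtl` is the functional `trL` for `pull (nuz ν) (cz φ)`.

PROOFS. `mdeg` is equivariant under translations and invariant under cyclic permutations. `dtl_ps`: `trL_ps`, the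
restriction to degree zero of `pull (nuz ν) (cz φ)` vanishes because `cupd φ` vanishes on tuples of degree zero and
`nuz ν (v, 1)` is supported in degree zero.
-/

set_option autoImplicit false

open Matrix

universe t u v w

namespace Pool.Agent.H16.FU

open Pool.Agent.H71.FQ

section

variable {G : Type v} [Group G]

theorem cz_mem (c : G) (z : Subgroup.centralizer ({(c, (1 : Multiplicative ℤ))} :
    Set (G × Multiplicative ℤ))) : z.1.1 ∈ Subgroup.centralizer ({c} : Set G) := by
  rw [Subgroup.mem_centralizer_singleton_iff]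
  exact congrArg Prod.fst (Subgroup.mem_centralizer_singleton_iff.1 z.2)

/-- the centralizer of `(c, 1)` -/
def czh (c : G) : Subgroup.centralizer ({(c, (1 : Multiplicative ℤ))} :
    Set (G × Multiplicative ℤ)) →* Subgroup.centralizer ({c} : Set G) × Multiplicative ℤ where
  toFun z := (⟨z.1.1, cz_mem c z⟩, z.1.2)
  map_one' := rfl
  map_mul' _ _ := rfl

/-- the inverse -/
def czi (c : G) : Subgroup.centralizer ({c} : Set G) × Multiplicative ℤ →*
    Subgroup.centralizer ({(c, (1 : Multiplicative ℤ))} : Set (G × Multiplicative ℤ)) where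
  toFun z := ⟨(z.1.1, z.2), by
    rw [Subgroup.mem_centralizer_singleton_iff]
    exact Prod.ext (Subgroup.mem_centralizer_singleton_iff.1 z.1.2) (mul_comm _ _)⟩
  map_one' := rfl
  map_mul' _ _ := rfl

theorem czh_czi (c : G) (z : Subgroup.centralizer ({c} : Set G) × Multiplicative ℤ) :
    czh c (czi c z) = z := rfl

theorem czi_czh (c : G) (z : Subgroup.centralizer ({(c, (1 : Multiplicative ℤ))} :
    Set (G × Multiplicative ℤ))) : czi c (czh c z) = z := rfl

variable {q : ℕ}

/-- the least degree of the components of a tuple -/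
noncomputable def mdeg (v : Fin q → G × Multiplicative ℤ) : Multiplicative ℤ :=
  Multiplicative.ofAdd (⨅ t, Multiplicative.toAdd (v t).2)

theorem mdeg_lmul (hq : 0 < q) (g : G × Multiplicative ℤ) (v : Fin q → G × Multiplicative ℤ) :
    mdeg (lmul g v) = g.2 * mdeg v := by
  have : Nonempty (Fin q) := ⟨⟨0, hq⟩⟩
  have h1 := (OrderIso.addLeft (Multiplicative.toAdd g.2)).map_ciInf
    (f := fun t => Multiplicative.toAdd (v t).2) (Set.finite_range _).bddBelow
  unfold mdeg
  have h2 : (⨅ t, Multiplicative.toAdd (lmul g v t).2) =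
      Multiplicative.toAdd g.2 + ⨅ t, Multiplicative.toAdd (v t).2 := h1.symm
  rw [h2, ofAdd_add, ofAdd_toAdd]

theorem mdeg_sig (hq : 0 < q) (c : G) (v : Fin q → G × Multiplicative ℤ) :
    mdeg (sig q (c, 1) v) = mdeg v := by
  have h1 : ∀ t : Fin q, (sig q (c, (1 : Multiplicative ℤ)) v t).2 =
      (v (if h : (t : ℕ) + 1 < q then ⟨(t : ℕ) + 1, h⟩ else ⟨0, hq⟩)).2 := by
    intro t
    unfold sig
    by_cases h : (t : ℕ) + 1 < q
    · rw [dif_pos h, dif_pos h]
    · rw [dif_neg h, dif_neg h, Prod.snd_mul, one_mul]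
  have h2 : Function.Surjective fun t : Fin q =>
      (if h : (t : ℕ) + 1 < q then (⟨(t : ℕ) + 1, h⟩ : Fin q) else ⟨0, hq⟩) := by
    intro s
    by_cases hs : (s : ℕ) = 0
    · refine ⟨⟨q - 1, by omega⟩, ?_⟩
      have h3 : ¬ (q - 1) + 1 < q := by omega
      simp only
      rw [dif_neg h3]
      exact Fin.ext hs.symm
    · have := s.2
      refine ⟨⟨(s : ℕ) - 1, by omega⟩, ?_⟩
      have h3 : ((s : ℕ) - 1) + 1 < q := by omega
      simp only
      rw [dif_pos h3]
      exact Fin.ext (by simp only; omega)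
  unfold mdeg
  simp only [h1]
  rw [h2.iInf_comp fun t => Multiplicative.toAdd (v t).2]

theorem mdeg_one (v : Fin q → G) : mdeg (fun t => (v t, (1 : Multiplicative ℤ))) = 1 := by
  unfold mdeg
  rcases isEmpty_or_nonempty (Fin q) with h | h
  · rw [iInf, Set.range_eq_empty, Int.csInf_empty, ofAdd_zero]
  · simp only [toAdd_one]
    rw [ciInf_const, ofAdd_zero]

/-- the measures for `G × ℤ` -/
noncomputable def nuz {c : G} (ν : (Fin q → G) → Subgroup.centralizer ({c} : Set G) →₀ ℤ)
    (v : Fin q → G × Multiplicative ℤ) : Subgroup.centralizer ({(c, (1 : Multiplicative ℤ))} :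
      Set (G × Multiplicative ℤ)) →₀ ℤ :=
  (ν fun t => (v t).1).mapDomain fun y => czi c (y, mdeg v)

variable {c : G} (ν : (Fin q → G) → Subgroup.centralizer ({c} : Set G) →₀ ℤ)

theorem nuz_mass {D₀ : ℤ} (h1 : ∀ v, mass (ν v) = D₀) (v : Fin q → G × Multiplicative ℤ) :
    mass (nuz ν v) = D₀ := by
  rw [← h1 fun t => (v t).1]
  unfold nuz mass
  exact Finsupp.sum_mapDomain_index (fun _ => rfl) (fun _ _ _ => rfl)

theorem nuz_mul (hq : 0 < q) (h2 : ∀ (z : Subgroup.centralizer ({c} : Set G)) (v : Fin q → G),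
      ν (lmul (z : G) v) = (ν v).mapDomain fun y => z * y)
    (z : Subgroup.centralizer ({(c, (1 : Multiplicative ℤ))} : Set (G × Multiplicative ℤ)))
    (v : Fin q → G × Multiplicative ℤ) :
    nuz ν (lmul (z : G × Multiplicative ℤ) v) = (nuz ν v).mapDomain fun y => z * y := by
  unfold nuz
  have e1 : (fun t => (lmul (z : G × Multiplicative ℤ) v t).1) =
      lmul (((czh c z).1 : Subgroup.centralizer ({c} : Set G)) : G) fun t => (v t).1 := rfl
  rw [e1, h2, mdeg_lmul hq, ← Finsupp.mapDomain_comp, ← Finsupp.mapDomain_comp]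
  rfl

theorem nuz_sig (hq : 0 < q) (h3 : ∀ v, ν (sig q c v) = ν v) (v : Fin q → G × Multiplicative ℤ) :
    nuz ν (sig q (c, 1) v) = nuz ν v := by
  unfold nuz
  have e1 : (fun t => (sig q (c, (1 : Multiplicative ℤ)) v t).1) = sig q c fun t => (v t).1 := by
    funext t
    unfold sig
    split_ifs <;> rfl
  rw [e1, h3, mdeg_sig hq]

variable {n : ℕ} {Λ : Type u} [CommRing Λ]

/-- the cocycle `φ ∪ deg` -/
def cz (φ : (Fin (n + 2) → Subgroup.centralizer ({c} : Set G)) → Λ)
    (x : Fin (n + 1 + 2) → Subgroup.centralizer ({(c, (1 : Multiplicative ℤ))} :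
      Set (G × Multiplicative ℤ))) : Λ :=
  cupd φ fun j => czh c (x j)

theorem isCoc_cz {φ : (Fin (n + 2) → Subgroup.centralizer ({c} : Set G)) → Λ}
    (hφ : IsCoc (Subgroup.centralizer ({c} : Set G)) n φ) :
    IsCoc (Subgroup.centralizer ({(c, (1 : Multiplicative ℤ))} : Set (G × Multiplicative ℤ)))
      (n + 1) (cz φ) :=
  (isCoc_cupd hφ).comp (czh c)

theorem pull_inl (φ : (Fin (n + 2) → Subgroup.centralizer ({c} : Set G)) → Λ)
    (v : Fin (n + 1 + 2) → Fin q → G) :
    pull (nuz ν) (cz φ) (fun j t => (v j t, (1 : Multiplicative ℤ))) = 0 := by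
  classical
  unfold pull
  rw [Finsupp.linearCombination_apply]
  refine Finset.sum_eq_zero fun w hw => ?_
  have hdeg : ∀ j, (czh c (w j)).2 = 1 := by
    intro j
    have h1 : nuz ν (fun t => (v j t, (1 : Multiplicative ℤ))) (w j) ≠ 0 := by
      rw [Finsupp.mem_support_iff, tens_apply] at hw
      exact Finset.prod_ne_zero_iff.1 hw j (Finset.mem_univ j)
    have h2 := Finsupp.mapDomain_support (Finsupp.mem_support_iff.2 h1)
    rw [Finset.mem_image] at h2
    obtain ⟨y, -, hy⟩ := h2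
    rw [← hy, czh_czi]
    exact mdeg_one (v j)
  have h3 : cz φ w = 0 := by
    unfold cz cupd
    rw [hdeg, hdeg, inv_one, one_mul, toAdd_one, Int.cast_zero, mul_zero]
  change _ • cz φ w = 0
  rw [h3, smul_zero]

end

section

variable {K : Type u} [Field K] {p m : ℕ} (L : LD K p m) {G : Type v} [Group G] {n : ℕ} {c : G}

theorem trT_eq_zero {Φ : (Fin (n + 2) → Fin (p ^ m) → G) → L.B} (hΦ : IsPhi c Φ)
    (h : ∀ v, Φ v = 0) (w : KQ (MonoidAlgebra K G) n) : trT L hΦ w = 0 := by
  have e : (fun v => (0 : ℤ) • Φ v) = Φ := funext fun v => by rw [zero_smul, h v]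
  have key : ∀ (Φ' : (Fin (n + 2) → Fin (p ^ m) → G) → L.B) (hΦ' : IsPhi c Φ'), Φ' = Φ →
      trT L hΦ' w = trT L hΦ w := by
    rintro _ _ rfl
    rfl
  have h0 : IsPhi c fun v => (0 : ℤ) • Φ v := by
    rw [e]
    exact hΦ
  rw [← key _ h0 e, trT_smul L hΦ 0 h0, zero_smul]

end

section

variable {k : Type u} [Field k] {K : Type t} [Field K] {G : Type v} [Group G] (X : Ctx k K G)
  {n : ℕ}

theorem isPhiz (m : ℕ) (c : G) (hc : IsOfFinOrder c)
    {φ : (Fin (n + 2) → Subgroup.centralizer ({c} : Set G)) → X.L.Lam}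
    (hφ : IsCoc (Subgroup.centralizer ({c} : Set G)) n φ) :
    IsPhi (B := (X.ld m).B) (c, (1 : Multiplicative ℤ))
      fun v => X.L.th m (pull (nuz (X.nu m c hc)) (cz φ) v) :=
  (isPhi_pull X.L.tf (nuz (X.nu m c hc)) (X.d c) (X.d_ne c hc)
    (nuz_mass _ (X.nu_mass m c hc))
    (nuz_mul _ (pow_pos X.hp.pos m) (X.nu_mul m c hc))
    (nuz_sig _ (pow_pos X.hp.pos m) (X.nu_sig m c hc)) (isCoc_cz hφ)).map (X.L.th m)

/-- **The functional of `K((t))[G]`.** -/
noncomputable def dtl (c : G) (hc : IsOfFinOrder c)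
    {φ : (Fin (n + 2) → Subgroup.centralizer ({c} : Set G)) → X.L.Lam}
    (hφ : IsCoc (Subgroup.centralizer ({c} : Set G)) n φ) (m : ℕ) :
    KQ (MonoidAlgebra (LaurentSeries K) G) (n + 1) →+ X.L.sys.B m :=
  trL (X.ld m) (isPhiz X m c hc hφ)

/-- The functional vanishes on power series. -/
theorem dtl_ps (c : G) (hc : IsOfFinOrder c)
    {φ : (Fin (n + 2) → Subgroup.centralizer ({c} : Set G)) → X.L.Lam}
    (hφ : IsCoc (Subgroup.centralizer ({c} : Set G)) n φ) (m : ℕ)
    (w : KQ (MonoidAlgebra (PowerSeries K) G) (n + 1)) :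
    dtl X c hc hφ m
      (KQ.map (MonoidAlgebra.mapRingHom G (HahnSeries.ofPowerSeries ℤ K)) w) = 0 := by
  refine (trL_ps (X.ld m) (isPhiz X m c hc hφ) w).trans ?_
  refine trT_eq_zero (X.ld m) _ (fun v => ?_) _
  change X.L.th m (pull (nuz (X.nu m c hc)) (cz φ)
    (fun j t => (v j t, (1 : Multiplicative ℤ)))) = 0
  rw [pull_inl, map_zero]

end

end Pool.Agent.H16.FU
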